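import Pool.Agent.J6H14.WF2.CritA

/-!
# Irreducibility and assembly of the 3-adic criterion
-/

set_option autoImplicit false

namespace Pool.Agent.J6H14.WF2

open Polynomial Pool.Agent.R80.WF

/-- a monic integer polynomial with all roots of absolute value `√2` -/
theorem eval_two {A : ℤ[X]} (hA : A.Monic) (hr : ∀ x : ℂ, aeval x A = 0 → ‖x‖ = Real.sqrt 2) :
    A.eval 2 = A.eval 0 * A.eval 1 := by
  set Q : ℂ[X] := A.map (Int.castRingHom ℂ) with hQ
  have hQm : Q.Monic := hA.map _
  have hs : Q.Splits := IsAlgClosed.splits _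
  have hev : ∀ z : ℤ, Q.eval (z : ℂ) = ((A.eval z : ℤ) : ℂ) := by
    intro z
    exact eval_map_apply (Int.castRingHom ℂ) z
  have h2 : Q.eval 2 = Q.eval 0 * (starRingEnd ℂ) (Q.eval 1) := by
    rw [hs.eval_eq_prod_roots_of_monic hQm, hs.eval_eq_prod_roots_of_monic hQm,
      hs.eval_eq_prod_roots_of_monic hQm, map_multiset_prod, Multiset.map_map,
      ← Multiset.prod_map_mul]
    congr 1
    refine Multiset.map_congr rfl fun y hy => ?_
    rw [mem_roots hQm.ne_zero, IsRoot.def, hQ, eval_map] at hy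
    have h3 := hr y hy
    have h4 : y * (starRingEnd ℂ) y = 2 := by
      rw [Complex.mul_conj, Complex.normSq_eq_norm_sq, h3, Real.sq_sqrt (by norm_num)]
      norm_num
    simp only [Function.comp_apply, map_sub, map_one]
    linear_combination -h4
  have e2 := hev 2
  have e0 := hev 0
  have e1 := hev 1
  push_cast at e0 e1 e2
  rw [e2, e0, e1, map_intCast] at h2
  exact_mod_cast h2

/-- one of the two possible factorizations -/
theorem no_fac {g : ℕ} (hg : 1 ≤ g) {A B : ℤ[X]} (hA : A.Monic) (hB : B.Monic)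
    (hAB : (A * B).map (Int.castRingHom (ZMod 3)) = (X ^ 2 - 1) ^ g)
    (hd : (A * B).natDegree = 2 * g)
    (hr : ∀ x : ℂ, aeval x A = 0 → ‖x‖ = Real.sqrt 2)
    (hA1 : ¬ (3 : ℤ) ∣ A.eval (-1)) (hB1 : ¬ (3 : ℤ) ∣ B.eval 1) : False := by
  set φ := Int.castRingHom (ZMod 3) with hφ
  set A' := A.map φ with hA'
  set B' := B.map φ with hB'
  have hA'm : A'.Monic := hA.map _
  have hB'm : B'.Monic := hB.map _
  have hX : ((X : (ZMod 3)[X]) ^ 2 - 1) ^ g = (X - C 1) ^ g * (X - C (-1)) ^ g := by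
    rw [← mul_pow]
    congr 1
    rw [C_neg, C_1]
    ring
  have hmul : A' * B' = (X - C 1) ^ g * (X - C (-1)) ^ g := by
    rw [← hX, ← hAB, Polynomial.map_mul]
  have hev : ∀ (F : ℤ[X]) (z : ℤ), (F.map φ).eval (z : ZMod 3) = ((F.eval z : ℤ) : ZMod 3) := by
    intro F z
    exact eval_map_apply φ z
  have hA'1 : A'.eval (-1) ≠ 0 := by
    have h1 := hev A (-1)
    push_cast at h1
    rw [hA', h1, Ne, ZMod.intCast_zmod_eq_zero_iff_dvd]
    exact hA1
  have hB'1 : B'.eval 1 ≠ 0 := by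
    have h1 := hev B 1
    push_cast at h1
    rw [hB', h1, Ne, ZMod.intCast_zmod_eq_zero_iff_dvd]
    exact hB1
  have hcopA : IsCoprime A' ((X - C (-1)) ^ g) := by
    apply IsCoprime.pow_right
    rw [isCoprime_comm]
    refine (irreducible_X_sub_C _).coprime_iff_not_dvd.2 ?_
    rw [dvd_iff_isRoot]
    exact hA'1
  have hcopB : IsCoprime B' ((X - C 1) ^ g) := by
    apply IsCoprime.pow_right
    rw [isCoprime_comm]
    refine (irreducible_X_sub_C _).coprime_iff_not_dvd.2 ?_
    rw [dvd_iff_isRoot]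
    exact hB'1
  have h1 : A' ∣ (X - C 1) ^ g := hcopA.dvd_of_dvd_mul_right ⟨B', hmul.symm⟩
  have h2 : B' ∣ (X - C (-1)) ^ g := by
    refine hcopB.dvd_of_dvd_mul_left ⟨A', ?_⟩
    rw [mul_comm B', hmul]
  have hdA : A'.natDegree ≤ g := by
    have := natDegree_le_of_dvd h1 (pow_ne_zero _ (X_sub_C_ne_zero _))
    rwa [natDegree_pow, natDegree_X_sub_C, mul_one] at this
  have hdB : B'.natDegree ≤ g := by
    have := natDegree_le_of_dvd h2 (pow_ne_zero _ (X_sub_C_ne_zero _))
    rwa [natDegree_pow, natDegree_X_sub_C, mul_one] at this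
  rw [hA.natDegree_mul hB] at hd
  rw [hA', hA.natDegree_map] at hdA
  rw [hB', hB.natDegree_map] at hdB
  have h3 : A' = (X - C 1) ^ g := by
    symm
    refine eq_of_monic_of_dvd_of_natDegree_le hA'm ((monic_X_sub_C _).pow _) h1 ?_
    rw [natDegree_pow, natDegree_X_sub_C, mul_one, hA', hA.natDegree_map]
    omega
  have h4 := eval_two hA hr
  have h5 : A'.eval 2 = A'.eval 0 * A'.eval 1 := by
    have e2 := hev A 2
    have e0 := hev A 0
    have e1 := hev A 1
    push_cast at e0 e1 e2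
    rw [hA', e2, e0, e1, h4]
    push_cast
    rfl
  rw [h3] at h5
  simp only [eval_pow, eval_sub, eval_X, eval_C] at h5
  rw [sub_self, zero_pow (by omega), mul_zero] at h5
  have h6 : (2 - 1 : ZMod 3) = 1 := by decide
  rw [h6, one_pow] at h5
  exact one_ne_zero h5

theorem irrA {g : ℕ} (hg : 2 ≤ g) {P : ℤ[X]} (hPm : P.Monic) (hd : P.natDegree = 2 * g)
    (hP : P.map (Int.castRingHom (ZMod 3)) = (X ^ 2 - 1) ^ g)
    (hr : ∀ x : ℂ, aeval x P = 0 → ‖x‖ = Real.sqrt 2)
    (h1 : ¬ (9 : ℤ) ∣ P.eval 1) (h2 : P.eval (-2) = 2 ^ g * P.eval (-1)) :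
    Irreducible (P.map (Int.castRingHom ℚ)) := by
  -- `P(1) = P(-2)` modulo 9
  have h9 : ¬ (9 : ℤ) ∣ P.eval (-1) := by
    intro h
    apply h1
    obtain ⟨k, hk⟩ := P.binomExpansion (-2) 3
    have h3 : (3 : ℤ) ∣ P.derivative.eval (-2) := by
      refine (ZMod.intCast_zmod_eq_zero_iff_dvd _ 3).1 ?_
      have e1 : (P.derivative.map (Int.castRingHom (ZMod 3))).eval ((-2 : ℤ) : ZMod 3) =
          ((P.derivative.eval (-2) : ℤ) : ZMod 3) := eval_map_apply (Int.castRingHom (ZMod 3)) (-2)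
      rw [← e1, ← derivative_map, hP, derivative_pow]
      simp only [eval_mul, eval_pow, eval_sub, eval_X, eval_one]
      have h4 : (((-2 : ℤ) : ZMod 3) ^ 2 - 1) = 0 := by decide
      rw [h4, zero_pow (by omega), mul_zero, zero_mul]
    obtain ⟨m, hm⟩ := h3
    have h4 : (-2 + 3 : ℤ) = 1 := by norm_num
    rw [h4, hm, h2] at hk
    obtain ⟨j, hj⟩ := h
    refine ⟨2 ^ g * j + m + k, ?_⟩
    rw [hk, hj]
    ring
  have hirrZ : Irreducible P := by
    rw [hPm.irreducible_iff_natDegree]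
    refine ⟨?_, ?_⟩
    · intro h
      rw [h, natDegree_one] at hd
      omega
    · intro A B hA hB hAB
      by_contra hcon
      push Not at hcon
      obtain ⟨hdA, hdB⟩ := hcon
      have e1 : A.eval 1 * B.eval 1 = P.eval 1 := by rw [← hAB, eval_mul]
      have e2 : A.eval (-1) * B.eval (-1) = P.eval (-1) := by rw [← hAB, eval_mul]
      have hno : ∀ u v : ℤ, (3 : ℤ) ∣ u → (3 : ℤ) ∣ v → (9 : ℤ) ∣ u * v := by
        rintro u v ⟨a, rfl⟩ ⟨b, rfl⟩
        exact ⟨a * b, by ring⟩
      -- a nonconstant factor vanishes at `1` or `-1` modulo 3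
      have hvan : ∀ F G : ℤ[X], F.Monic → F * G = P → F.natDegree ≠ 0 →
          (3 : ℤ) ∣ F.eval 1 ∨ (3 : ℤ) ∣ F.eval (-1) := by
        intro F G hF hFG hdF
        set φ := Int.castRingHom (ZMod 3) with hφ
        have hdvd : F.map φ ∣ (X - C 1) ^ g * (X - C (-1)) ^ g := by
          refine ⟨G.map φ, ?_⟩
          rw [← Polynomial.map_mul, hFG, hP, ← mul_pow]
          congr 1
          rw [C_neg, C_1]
          ring
        have hnu : ¬ IsUnit (F.map φ) := by
          intro hu
          apply hdF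
          rw [← hF.natDegree_map φ]
          exact natDegree_eq_zero_of_isUnit hu
        have hne : F.map φ ≠ 0 := (hF.map φ).ne_zero
        obtain ⟨q, hq, hqd⟩ := WfDvdMonoid.exists_irreducible_factor hnu hne
        have hqp : Prime q := hq.prime
        have hev : ∀ z : ℤ, q ∣ (X - C (z : ZMod 3)) → (3 : ℤ) ∣ F.eval z := by
          intro z hz
          have hass : Associated q (X - C (z : ZMod 3)) :=
            hq.associated_of_dvd (irreducible_X_sub_C _) hz
          have h3 : (X - C (z : ZMod 3)) ∣ F.map φ := hass.symm.dvd.trans hqd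
          rw [dvd_iff_isRoot, IsRoot.def] at h3
          have e1 : (F.map φ).eval ((z : ℤ) : ZMod 3) = ((F.eval z : ℤ) : ZMod 3) :=
            eval_map_apply φ z
          rw [e1, ZMod.intCast_zmod_eq_zero_iff_dvd] at h3
          exact h3
        rcases hqp.dvd_or_dvd (hqd.trans hdvd) with h | h
        · left
          refine hev 1 ?_
          have := hqp.dvd_of_dvd_pow h
          simpa using this
        · right
          refine hev (-1) ?_
          have := hqp.dvd_of_dvd_pow h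
          simpa using this
      have hrA : ∀ x : ℂ, aeval x A = 0 → ‖x‖ = Real.sqrt 2 := by
        intro x hx
        apply hr
        rw [← hAB, map_mul, hx, zero_mul]
      have hrB : ∀ x : ℂ, aeval x B = 0 → ‖x‖ = Real.sqrt 2 := by
        intro x hx
        apply hr
        rw [← hAB, map_mul, hx, mul_zero]
      have hAB3 : (A * B).map (Int.castRingHom (ZMod 3)) = (X ^ 2 - 1) ^ g := by rw [hAB, hP]
      have hBA3 : (B * A).map (Int.castRingHom (ZMod 3)) = (X ^ 2 - 1) ^ g := by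
        rw [mul_comm, hAB, hP]
      have hdAB : (A * B).natDegree = 2 * g := by rw [hAB, hd]
      have hdBA : (B * A).natDegree = 2 * g := by rw [mul_comm, hAB, hd]
      rcases hvan A B hA hAB hdA with h | h
      · have h3 : ¬ (3 : ℤ) ∣ B.eval 1 := fun h4 => h1 (e1 ▸ hno _ _ h h4)
        rcases hvan B A hB (by rw [mul_comm]; exact hAB) hdB with h5 | h5
        · exact h3 h5
        · have h6 : ¬ (3 : ℤ) ∣ A.eval (-1) := fun h4 => h9 (e2 ▸ hno _ _ h4 h5)
          exact no_fac (by omega) hA hB hAB3 hdAB hrA h6 h3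
      · have h3 : ¬ (3 : ℤ) ∣ B.eval (-1) := fun h4 => h9 (e2 ▸ hno _ _ h h4)
        rcases hvan B A hB (by rw [mul_comm]; exact hAB) hdB with h5 | h5
        · have h6 : ¬ (3 : ℤ) ∣ A.eval 1 := fun h4 => h1 (e1 ▸ hno _ _ h4 h5)
          exact no_fac (by omega) hB hA hBA3 hdBA hrB h3 h6
        · exact h3 h5
  exact (Polynomial.IsPrimitive.Int.irreducible_iff_irreducible_map_cast hPm.isPrimitive).1 hirrZ

/-- the coefficients of `(X² - 1)^g` -/
def cz (g i : ℕ) : ℤ := if i % 2 = 0 then (-1) ^ (i / 2) * (g.choose (i / 2) : ℤ) else 0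

theorem map_of_res {g : ℕ} {a : ℕ → ℤ}
    (hres : ∀ i ≤ g, (3 : ℤ) ∣ a i - cz g i) :
    (PP 2 g a).map (Int.castRingHom (ZMod 3)) = (X ^ 2 - 1) ^ g := by
  have hres' : ∀ i ≤ g, ((a i : ℤ) : ZMod 3) = ((cz g i : ℤ) : ZMod 3) := by
    intro i hi
    have := (ZMod.intCast_zmod_eq_zero_iff_dvd _ 3).2 (hres i hi)
    push_cast at this
    exact sub_eq_zero.1 this
  have hexp : ((X : (ZMod 3)[X]) ^ 2 - 1) ^ g = expand (ZMod 3) 2 ((X + C (-1)) ^ g) := by
    rw [map_pow, map_add, expand_X, expand_C, C_neg, C_1]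
    ring
  have h2 : (2 : ZMod 3) = -1 := by decide
  ext k
  rw [hexp, coeff_expand (by norm_num), coeff_X_add_C_pow, coeff_map, coeff_PP, eq_intCast]
  by_cases hk : k < g
  · rw [if_pos hk]
    push_cast
    rw [hres' k hk.le, cz, h2]
    by_cases hk2 : k % 2 = 0
    · rw [if_pos hk2, if_pos (Nat.dvd_of_mod_eq_zero hk2)]
      push_cast
      obtain ⟨j, rfl⟩ : ∃ j, k = 2 * j := ⟨k / 2, by omega⟩
      have e1 : 2 * j / 2 = j := by omega
      rw [e1, ← mul_assoc, ← pow_add]
      congr 2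
      omega
    · rw [if_neg hk2, if_neg (by omega)]
      simp
  · rw [if_neg hk]
    by_cases hkg : k = g
    · rw [if_pos hkg, hres' g le_rfl, cz, hkg]
      by_cases hk2 : g % 2 = 0
      · rw [if_pos hk2, if_pos (Nat.dvd_of_mod_eq_zero hk2)]
        push_cast
        congr 2
        omega
      · rw [if_neg hk2, if_neg (by omega)]
        simp
    · rw [if_neg hkg]
      by_cases hk2 : k ≤ 2 * g
      · rw [if_pos hk2, hres' (2 * g - k) (by omega), cz]
        by_cases hk3 : k % 2 = 0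
        · rw [if_pos (by omega), if_pos (Nat.dvd_of_mod_eq_zero hk3)]
          push_cast
          obtain ⟨j, rfl⟩ : ∃ j, k = 2 * j := ⟨k / 2, by omega⟩
          have e1 : 2 * j / 2 = j := by omega
          have e2 : (2 * g - 2 * j) / 2 = g - j := by omega
          rw [e1, e2]
          congr 2
          exact Nat.choose_symm (by omega)
        · rw [if_neg (by omega), if_neg (by omega)]
          simp
      · rw [if_neg hk2]
        by_cases hk3 : 2 ∣ k
        · rw [if_pos hk3, Nat.choose_eq_zero_of_lt (by omega)]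
          simp
        · rw [if_neg hk3]
          simp

theorem eval_PP (g : ℕ) (a : ℕ → ℤ) (z : ℤ) : (PP 2 g a).eval z =
    ∑ i ∈ Finset.range g, a i * (z ^ (2 * g - i) + 2 ^ (g - i) * z ^ i) + a g * z ^ g := by
  simp [PP, eval_finsetSum]

theorem dual_neg {g : ℕ} (a : ℕ → ℤ) :
    (PP 2 g a).eval (-2) = 2 ^ g * (PP 2 g a).eval (-1) := by
  rw [eval_PP, eval_PP, mul_add, Finset.mul_sum]
  congr 1
  · refine Finset.sum_congr rfl fun i hi => ?_
    have hi' := Finset.mem_range.1 hi
    have e1 : (-2 : ℤ) ^ (2 * g - i) = (-1) ^ i * 2 ^ (g - i) * 2 ^ g := by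
      have : (-2 : ℤ) = (-1) * 2 := by norm_num
      rw [this, mul_pow]
      have h3 : (-1 : ℤ) ^ (2 * g - i) = (-1) ^ i := by
        have : (-1 : ℤ) ^ (2 * g - i) * ((-1) ^ i * (-1) ^ i) = (-1) ^ (2 * g) * (-1) ^ i := by
          rw [← pow_add, ← pow_add, ← pow_add]
          congr 1
          omega
        rw [← mul_pow, pow_mul] at this
        simpa using this
      rw [h3, mul_assoc, ← pow_add]
      congr 2
      omega
    have e2 : (-2 : ℤ) ^ i = (-1) ^ i * 2 ^ i := by
      rw [← mul_pow]; norm_num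
    have e3 : (-1 : ℤ) ^ (2 * g - i) = (-1) ^ i := by
      have : (-1 : ℤ) ^ (2 * g - i) * ((-1) ^ i * (-1) ^ i) = (-1) ^ (2 * g) * (-1) ^ i := by
        rw [← pow_add, ← pow_add, ← pow_add]
        congr 1
        omega
      rw [← mul_pow, pow_mul] at this
      simpa using this
    have e4 : (2 : ℤ) ^ g = 2 ^ (g - i) * 2 ^ i := by
      rw [← pow_add]; congr 1; omega
    rw [e1, e2, e3]
    linear_combination -(a i * (-1) ^ i) * e4
  · have e2 : (-2 : ℤ) ^ g = (-1) ^ g * 2 ^ g := by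
      rw [← mul_pow]; norm_num
    rw [e2]
    ring

theorem critA {g f : ℕ} (hg : 2 ≤ g) (hf : f ≤ g) {a : ℕ → ℤ} (ha0 : a 0 = 1)
    (hres : ∀ i < g, (3 : ℤ) ∣ a i - cz g i) (h1 : (PP 2 g a).eval 1 % 9 = 6)
    (hzf : ∀ w : ℂ, ‖w‖ ≤ (Real.sqrt (2 : ℕ))⁻¹ → AA g a w ≠ 0)
    (hodd : ∃ i ≤ g, i % 2 = 1 ∧ a i ≠ 0) (h3 : ∃ i ≤ g, i % 3 ≠ 0 ∧ a i ≠ 0)
    (hpar : ∀ i, f < i → i ≤ g → (2 : ℤ) ∣ a i) (hf' : ¬ (2 : ℤ) ∣ a f) : Good 2 g f := by
  -- the residue of the middle coefficient
  have hresg : (3 : ℤ) ∣ a g - cz g g := by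
    set a' : ℕ → ℤ := fun i => if i = g then cz g g else a i with ha'
    have h2 : (PP 2 g a').map (Int.castRingHom (ZMod 3)) = (X ^ 2 - 1) ^ g := by
      apply map_of_res
      intro i hi
      rw [ha']
      dsimp only
      by_cases hig : i = g
      · rw [if_pos hig, hig, sub_self]
        exact dvd_zero _
      · rw [if_neg hig]
        exact hres i (by omega)
    have h4 : (3 : ℤ) ∣ (PP 2 g a').eval 1 := by
      refine (ZMod.intCast_zmod_eq_zero_iff_dvd _ 3).1 ?_
      have e1 : ((PP 2 g a').map (Int.castRingHom (ZMod 3))).eval ((1 : ℤ) : ZMod 3) =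
          (((PP 2 g a').eval 1 : ℤ) : ZMod 3) := eval_map_apply (Int.castRingHom (ZMod 3)) 1
      rw [← e1, h2]
      simp only [eval_pow, eval_sub, eval_X, eval_one]
      have : (((1 : ℤ) : ZMod 3) ^ 2 - 1) = 0 := by decide
      rw [this, zero_pow (by omega)]
    have h5 : (PP 2 g a).eval 1 - (PP 2 g a').eval 1 = a g - cz g g := by
      rw [eval_PP, eval_PP]
      have : ∀ i ∈ Finset.range g, a' i = a i := by
        intro i hi
        have hi' := Finset.mem_range.1 hi
        rw [ha']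
        dsimp only
        rw [if_neg (by omega)]
      have h6 : a' g = cz g g := by
        rw [ha']
        dsimp only
        rw [if_pos rfl]
      have h7 : ∑ i ∈ Finset.range g, a' i * ((1 : ℤ) ^ (2 * g - i) + 2 ^ (g - i) * 1 ^ i) =
          ∑ i ∈ Finset.range g, a i * ((1 : ℤ) ^ (2 * g - i) + 2 ^ (g - i) * 1 ^ i) :=
        Finset.sum_congr rfl fun i hi => by rw [this i hi]
      rw [h7, h6]
      ring
    omega
  have hres' : ∀ i ≤ g, (3 : ℤ) ∣ a i - cz g i := by
    intro i hi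
    rcases Nat.lt_or_eq_of_le hi with h | h
    · exact hres i h
    · rw [h]; exact hresg
  have hmod := map_of_res hres'
  have hm : (PP 2 g a).Monic := monic_PP (by omega) ha0
  have hd : (PP 2 g a).natDegree = 2 * g := natDegree_PP (by omega) ha0
  have hroot : ∀ x : ℂ, aeval x (PP 2 g a) = 0 → ‖x‖ = Real.sqrt (2 : ℕ) := fun x hx =>
    root_zf (by norm_num) (by omega) a hzf hx
  have hroot' : ∀ x : ℂ, aeval x (PP 2 g a) = 0 → ‖x‖ = Real.sqrt 2 := by
    intro x hx
    have := hroot x hx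
    push_cast at this
    exact this
  have hirr : Irreducible ((PP 2 g a).map (Int.castRingHom ℚ)) :=
    irrA hg hm hd hmod hroot' (by omega) (dual_neg a)
  refine ⟨PP 2 g a, hm, hd, hirr, hroot, ?_, ?_, ?_⟩
  · intro i hi
    rw [coeff_PP]
    split_ifs with h4 h5 h6
    · exact Dvd.dvd.mul_right (dvd_pow_self _ (by omega)) _
    · exact_mod_cast hpar g (by omega) le_rfl
    · exact_mod_cast hpar (2 * g - i) (by omega) (by omega)
    · exact dvd_zero _
  · rw [coeff_PP, if_neg (by omega)]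
    by_cases hfg : f = g
    · rw [if_pos (by omega)]
      rw [hfg] at hf'
      exact_mod_cast hf'
    · rw [if_neg (by omega), if_pos (by omega)]
      have e : 2 * g - (2 * g - f) = f := by omega
      rw [e]
      exact_mod_cast hf'
  · intro x hx n hn
    have hx0 : x ≠ 0 := by
      rintro rfl
      have := hroot' 0 hx
      rw [norm_zero] at this
      have h2 : (0 : ℝ) < Real.sqrt 2 := Real.sqrt_pos.2 (by norm_num)
      linarith
    have hcoef : ∀ i ≤ g, (PP 2 g a).coeff (2 * g - i) = a i := by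
      intro i hi
      rw [coeff_PP, if_neg (by omega)]
      by_cases hig : i = g
      · rw [if_pos (by omega), hig]
      · rw [if_neg (by omega), if_pos (by omega)]
        congr 1
        omega
    refine ndA hm hmod hirr hx hx0 (no_omega hm hirr hx h1) ?_ ?_ hn
    · obtain ⟨i, hi, hi2, hi3⟩ := hodd
      refine ⟨2 * g - i, by rw [hcoef i hi]; exact hi3, ?_⟩
      rw [hd]
      omega
    · obtain ⟨i, hi, hi2, hi3⟩ := h3
      refine ⟨2 * g - i, by rw [hcoef i hi]; exact hi3, ?_⟩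
      rw [hd]
      omega

end Pool.Agent.J6H14.WF2
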