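import Pool.Agent.J6H14.WF2.BigTab
import Pool.Agent.J6H14.WF2.IrrA

/-!
# The case `p = 2`, `g ≥ 18`, `f ≥ 2`
-/

set_option autoImplicit false

namespace Pool.Agent.J6H14.WF2

open Polynomial Pool.Agent.R80.WF

theorem czc_eq (g i : ℕ) : czc g i = cz g i := by
  rw [czc, cz, Nat.choose_eq_descFactorial_div_factorial]

theorem choose_mod9 (g k : ℕ) (hk : k < 9) : g.choose k ≡ (g % 9).choose k [MOD 3] := by
  have h : ∀ n : ℕ, n.choose k ≡ (n % 3).choose (k % 3) *
      (((n / 3) % 3).choose ((k / 3) % 3)) [MOD 3] := by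
    intro n
    have h1 := Choose.choose_modEq_choose_mod_mul_choose_div_nat (n := n) (k := k) (p := 3)
    have h2 := Choose.choose_modEq_choose_mod_mul_choose_div_nat (n := n / 3) (k := k / 3) (p := 3)
    have h3 : k / 3 / 3 = 0 := by omega
    rw [h3, Nat.choose_zero_right, mul_one] at h2
    exact h1.trans (h2.mul_left _)
  refine (h g).trans ?_
  have h4 := h (g % 9)
  have e1 : g % 9 % 3 = g % 3 := by omega
  have e2 : g % 9 / 3 % 3 = g / 3 % 3 := by omega
  rw [e1, e2] at h4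
  exact h4.symm

theorem cz_mod9 (g i : ℕ) (hi : i < 18) : (3 : ℤ) ∣ cz g i - cz (g % 9) i := by
  rw [cz, cz]
  split_ifs with h
  · have h1 := choose_mod9 g (i / 2) (by omega)
    have h2 := (Nat.modEq_iff_dvd).1 h1.symm
    rw [← mul_sub]
    exact Dvd.dvd.mul_left (by exact_mod_cast h2) _
  · exact ⟨0, by ring⟩

/-- balanced residue modulo 3 -/
def bal (x : ℤ) : ℤ := (x + 1) % 3 - 1

/-- the coefficients with index at least 18 -/
def mid (g f i : ℕ) : ℤ :=
  if i % 2 = 1 then (if i = f then 3 else 0) else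
    if i < f then bal (cz g i) else
      if i = f then (if bal (cz g i) = 0 then 3 else bal (cz g i)) else -2 * bal (cz g i)

theorem mid_res (g f i : ℕ) : (3 : ℤ) ∣ mid g f i - cz g i := by
  unfold mid bal
  by_cases h : i % 2 = 1
  · rw [if_pos h]
    have : cz g i = 0 := by rw [cz, if_neg (by omega)]
    rw [this]
    split_ifs <;> norm_num
  · rw [if_neg h]
    split_ifs <;> omega

theorem mid_even (g f i : ℕ) (h : f < i) : (2 : ℤ) ∣ mid g f i := by
  unfold mid bal
  split_ifs <;> omega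

theorem mid_odd (g f : ℕ) : ¬ (2 : ℤ) ∣ mid g f f := by
  unfold mid bal
  split_ifs <;> omega

/-- the bound for `mid` -/
def mb (f i : ℕ) : ℝ := (if i % 2 = 0 then 2 else 0) + (if i = f then 3 else 0)

theorem mid_bound (g f i : ℕ) : |(mid g f i : ℝ)| ≤ mb f i := by
  have h : |mid g f i| ≤ (if i % 2 = 0 then 2 else 0) + (if i = f then 3 else 0) := by
    unfold mid bal
    rw [abs_le]
    split_ifs <;> omega
  have h2 : ((|mid g f i| : ℤ) : ℝ) ≤
      (((if i % 2 = 0 then 2 else 0) + (if i = f then 3 else 0) : ℤ) : ℝ) := by exact_mod_cast h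
  rw [mb]
  push_cast at h2
  exact h2

/-- the coefficients with index less than `g` -/
def pre (g f : ℕ) (t : List ℤ) (i : ℕ) : ℤ := if i < 18 then t.getD i 0 else mid g f i

/-- their contribution to the value at `1` -/
def SS (g f : ℕ) (t : List ℤ) : ℤ := ∑ i ∈ Finset.range g, pre g f t i * (1 + 2 ^ (g - i))

/-- the middle coefficient -/
def agv (g f : ℕ) (t : List ℤ) : ℤ :=
  if (6 - SS g f t) % 9 % 2 = (if f = g then 1 else 0) then (6 - SS g f t) % 9
  else (6 - SS g f t) % 9 - 9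

/-- the coefficient sequence -/
def aseq (g f : ℕ) (t : List ℤ) (i : ℕ) : ℤ := if i = g then agv g f t else pre g f t i

theorem agv_bound (g f : ℕ) (t : List ℤ) : |agv g f t| ≤ 9 := by
  unfold agv
  rw [abs_le]
  split_ifs <;> omega

theorem agv_even (g f : ℕ) (t : List ℤ) (h : f ≠ g) : (2 : ℤ) ∣ agv g f t := by
  unfold agv
  rw [if_neg h]
  split_ifs <;> omega

theorem agv_odd (g f : ℕ) (t : List ℤ) (h : f = g) : ¬ (2 : ℤ) ∣ agv g f t := by
  unfold agv
  rw [if_pos h]
  split_ifs <;> omega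

theorem agv_mod (g f : ℕ) (t : List ℤ) : (SS g f t + agv g f t) % 9 = 6 := by
  unfold agv
  split_ifs <;> omega

theorem eval_aseq (g f : ℕ) (t : List ℤ) : (PP 2 g (aseq g f t)).eval 1 % 9 = 6 := by
  rw [eval_PP, ← agv_mod g f t]
  congr 1
  rw [SS]
  congr 1
  · refine Finset.sum_congr rfl fun i hi => ?_
    have hi' := Finset.mem_range.1 hi
    rw [aseq, if_neg (by omega)]
    simp
  · rw [aseq, if_pos rfl]
    simp

/-! ### the tail -/

theorem tail_even (ρ : ℝ) (hρ : 0 ≤ ρ) (hρ2 : ρ ^ 2 = 1 / 2) (n : ℕ) :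
    ∑ i ∈ Finset.range n, (if (18 + i) % 2 = 0 then (2 : ℝ) else 0) * ρ ^ (18 + i) ≤ 1 / 128 := by
  have h1 : ∀ m : ℕ, ∑ i ∈ Finset.range (2 * m),
      (if (18 + i) % 2 = 0 then (2 : ℝ) else 0) * ρ ^ (18 + i) = 1 / 128 * (1 - (1 / 2) ^ m) := by
    intro m
    induction m with
    | zero => simp
    | succ m ih =>
      rw [mul_add, mul_one, Finset.sum_range_succ, Finset.sum_range_succ, ih,
        if_pos (by omega), if_neg (by omega)]
      have e1 : 18 + 2 * m = 2 * (9 + m) := by ring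
      rw [e1, pow_mul, hρ2, pow_add, pow_succ]
      norm_num
      ring
  have h2 : ∑ i ∈ Finset.range n, (if (18 + i) % 2 = 0 then (2 : ℝ) else 0) * ρ ^ (18 + i) ≤
      ∑ i ∈ Finset.range (2 * n), (if (18 + i) % 2 = 0 then (2 : ℝ) else 0) * ρ ^ (18 + i) := by
    refine Finset.sum_le_sum_of_subset_of_nonneg (Finset.range_mono (by omega)) ?_
    intro i _ _
    split_ifs <;> positivity
  rw [h1] at h2
  have h3 : (0 : ℝ) ≤ (1 / 2) ^ n := by positivity
  linarith

theorem tail_sum (ρ : ℝ) (hρ : 0 ≤ ρ) (hρ2 : ρ ^ 2 = 1 / 2) (f n : ℕ) :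
    ∑ i ∈ Finset.range n, mb f (18 + i) * ρ ^ (18 + i) ≤ 1 / 128 + 3 / 512 := by
  have hρ1 : ρ ≤ 1 := by nlinarith
  have h18 : ρ ^ 18 = 1 / 512 := by
    have : ρ ^ 18 = (ρ ^ 2) ^ 9 := by ring
    rw [this, hρ2]; norm_num
  have h1 : ∑ i ∈ Finset.range n, mb f (18 + i) * ρ ^ (18 + i) =
      ∑ i ∈ Finset.range n, (if (18 + i) % 2 = 0 then (2 : ℝ) else 0) * ρ ^ (18 + i) +
      ∑ i ∈ Finset.range n, (if 18 + i = f then (3 : ℝ) else 0) * ρ ^ (18 + i) := by
    rw [← Finset.sum_add_distrib]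
    refine Finset.sum_congr rfl fun i _ => ?_
    rw [mb, add_mul]
  have h2 : ∑ i ∈ Finset.range n, (if 18 + i = f then (3 : ℝ) else 0) * ρ ^ (18 + i) ≤
      3 / 512 := by
    by_cases hf : ∃ j < n, 18 + j = f
    · obtain ⟨j, hj, hjf⟩ := hf
      rw [Finset.sum_eq_single j]
      · rw [if_pos hjf, pow_add, h18]
        have := pow_le_one₀ hρ hρ1 (n := j)
        linarith
      · intro b _ hb
        rw [if_neg (by omega), zero_mul]
      · intro h
        exact absurd (Finset.mem_range.2 hj) h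
    · rw [Finset.sum_eq_zero]
      · norm_num
      · intro i hi
        rw [if_neg, zero_mul]
        intro h
        exact hf ⟨i, Finset.mem_range.1 hi, h⟩
  rw [h1]
  linarith [tail_even ρ hρ hρ2 n]

/-- the part of `AA` with index at least 18 -/
noncomputable def TT (g : ℕ) (a : ℕ → ℤ) (w : ℂ) : ℂ :=
  ∑ i ∈ Finset.range (g - 18), (a (18 + i) : ℂ) * w ^ (18 + i) + (a g : ℂ) / 2 * w ^ g

theorem AA_split {g : ℕ} (hg : 18 ≤ g) (a : ℕ → ℤ) (w : ℂ) :
    AA g a w = ∑ i ∈ Finset.range 18, (a i : ℂ) * w ^ i + TT g a w := by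
  rw [AA, TT, ← add_assoc]
  congr 1
  obtain ⟨n, rfl⟩ := Nat.exists_eq_add_of_le hg
  rw [Finset.sum_range_add, Nat.add_sub_cancel_left]

theorem norm_TT {g : ℕ} (hg : 18 ≤ g) (f : ℕ) (t : List ℤ) {w : ℂ}
    (hw : ‖w‖ ^ 2 = 1 / 2) : ‖TT g (aseq g f t) w‖ ≤ 3 / 128 := by
  have hρ := norm_nonneg w
  have hρ1 : ‖w‖ ≤ 1 := by nlinarith
  rw [TT]
  have h1 : ‖∑ i ∈ Finset.range (g - 18), ((aseq g f t (18 + i) : ℤ) : ℂ) * w ^ (18 + i)‖ ≤
      1 / 128 + 3 / 512 := by
    refine (norm_sum_le _ _).trans (le_trans (Finset.sum_le_sum fun i hi => ?_)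
      (tail_sum ‖w‖ hρ hw f (g - 18)))
    have hi' := Finset.mem_range.1 hi
    rw [aseq, if_neg (by omega), pre, if_neg (by omega), norm_mul, norm_pow, Complex.norm_intCast]
    exact mul_le_mul_of_nonneg_right (mid_bound g f _) (by positivity)
  have h2 : ‖((aseq g f t g : ℤ) : ℂ) / 2 * w ^ g‖ ≤ 9 / 1024 := by
    rw [aseq, if_pos rfl, norm_mul, norm_pow, norm_div, Complex.norm_intCast, Complex.norm_ofNat]
    have h3 : |((agv g f t : ℤ) : ℝ)| ≤ 9 := by exact_mod_cast agv_bound g f t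
    have h4 : ‖w‖ ^ g ≤ ‖w‖ ^ 18 := pow_le_pow_of_le_one hρ hρ1 hg
    have h5 : ‖w‖ ^ 18 = 1 / 512 := by
      have : ‖w‖ ^ 18 = (‖w‖ ^ 2) ^ 9 := by ring
      rw [this, hw]; norm_num
    rw [h5] at h4
    have h6 : (0 : ℝ) ≤ ‖w‖ ^ g := by positivity
    have h7 := abs_nonneg ((agv g f t : ℤ) : ℝ)
    nlinarith [mul_le_mul h3 h4 h6 (by norm_num)]
  refine (norm_add_le _ _).trans ?_
  linarith

/-! ### the low part -/

theorem ev_scB (l : List ℤ) (w : ℂ) : 2 * ev (scB l) (2 * w) =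
    2 ^ l.length * ∑ i ∈ Finset.range l.length, ((l.getD i 0 : ℤ) : ℂ) * w ^ i := by
  induction l with
  | nil => simp [scB, ev_nil]
  | cons x l ih =>
    rw [scB, ev_cons, List.length_cons, Finset.sum_range_succ']
    simp only [List.getD_cons_succ, List.getD_cons_zero, pow_zero, mul_one]
    have h1 : ∑ i ∈ Finset.range l.length, ((l.getD i 0 : ℤ) : ℂ) * w ^ (i + 1) =
        w * ∑ i ∈ Finset.range l.length, ((l.getD i 0 : ℤ) : ℂ) * w ^ i := by
      rw [Finset.mul_sum]
      refine Finset.sum_congr rfl fun i _ => ?_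
      ring
    rw [h1]
    push_cast
    linear_combination 2 * w * ih

theorem blt_or {a b : ℕ} {c : Bool} (h : (!(Nat.blt a b) || c) = true) (hab : a < b) :
    c = true := by
  have h1 : Nat.blt a b = true := by
    rw [Nat.blt_eq]; exact hab
  rw [h1] at h
  simpa using h

theorem good_big {g f : ℕ} (hg : 18 ≤ g) (hf2 : 2 ≤ f) (hf : f ≤ g) : Good 2 g f := by
  set k := min f 18 - 2 with hk
  set r := g % 9 with hr
  have hk17 : k < 17 := by omega
  have hr9 : r < 9 := Nat.mod_lt _ (by norm_num)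
  obtain ⟨t, β, R, htab⟩ : ∃ t β R, (bigTab.getD k []).getD r ([], [], []) = (t, β, R) :=
    ⟨_, _, _, rfl⟩
  have hok : okBig (k + 2) r (t, β, R) = true := by
    have h1 := bigTab_ok
    rw [List.all_eq_true] at h1
    have h2 := h1 k (List.mem_range.2 hk17)
    rw [List.all_eq_true] at h2
    have h3 := h2 r (List.mem_range.2 hr9)
    rw [htab] at h3
    exact h3
  have hk2 : k + 2 = min f 18 := by omega
  rw [hk2] at hok
  simp only [okBig, Bool.and_eq_true] at hok
  obtain ⟨⟨⟨⟨⟨⟨⟨hlen, h0⟩, hres⟩, heven⟩, hodd⟩, h17⟩, hβ⟩, hpos⟩ := hok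
  rw [beq_iff_eq] at hlen h0
  rw [List.all_eq_true] at hres heven
  have hf18 : ∀ i, i < 18 → f < i → (2 : ℤ) ∣ t.getD i 0 := by
    intro i hi hfi
    have h1 := blt_or (heven i (List.mem_range.2 hi)) (by omega)
    rw [beq_iff_eq] at h1
    omega
  have hfodd : f < 18 → ¬ (2 : ℤ) ∣ t.getD f 0 := by
    intro hf18
    have e : min f 18 = f := by omega
    rw [e] at hodd
    have h1 := blt_or hodd hf18
    rw [beq_iff_eq] at h1
    omega
  have h17' : t.getD 17 0 ≠ 0 := by
    simpa using h17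
  have hpre : ∀ i < g, aseq g f t i = pre g f t i := by
    intro i hi
    rw [aseq, if_neg (by omega)]
  have hlow : ∀ i < 18, i < g → aseq g f t i = t.getD i 0 := by
    intro i hi hig
    rw [hpre i hig, pre, if_pos hi]
  refine critA (a := aseq g f t) (by omega) hf ?_ ?_ (eval_aseq g f t) ?_ ?_ ?_ ?_ ?_
  · rw [hlow 0 (by norm_num) (by omega), h0]
  · intro i hi
    rw [hpre i hi, pre]
    split_ifs with hi18
    · have h1 := hres i (List.mem_range.2 hi18)
      rw [beq_iff_eq, czc_eq] at h1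
      have h2 := cz_mod9 g i hi18
      rw [← hr] at h2
      omega
    · exact mid_res g f i
  · -- zero-free
    have h2 : (0 : ℝ) < Real.sqrt 2 := Real.sqrt_pos.2 (by norm_num)
    have h22 : Real.sqrt 2 ^ 2 = 2 := Real.sq_sqrt (by norm_num)
    have hinv : 2 * (Real.sqrt 2)⁻¹ = Real.sqrt 2 := by
      field_simp
      linarith
    have e2 : ((2 : ℕ) : ℝ) = 2 := by norm_num
    rw [e2]
    have hn2 : ∀ w : ℂ, ‖2 * w‖ = 2 * ‖w‖ := by
      intro w
      rw [norm_mul, Complex.norm_ofNat]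
    have hZβ : Zf β := zf_of_chk zf_one hβ
    refine zf_step (differentiable_AA g _) (B := fun w => ev β (2 * w)) ?_ (inv_pos.2 h2) ?_ ?_
    · exact (differentiable_ev β).comp (by fun_prop)
    · intro w hw
      apply hZβ
      rw [hn2, ← hinv]
      linarith
    · intro w hw
      have hw2 : ‖w‖ ^ 2 = 1 / 2 := by
        rw [hw, inv_pow, h22]; norm_num
      have hu : ‖2 * w‖ = Real.sqrt 2 := by rw [hn2, hw, hinv]
      have hu2 := normSq_of_norm hu
      have h3 := posChk_spec hpos hu2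
      have h4 := absb_spec hu.le β
      have h5 := norm_TT hg f t hw2
      have h6 : AA g (aseq g f t) w =
          ∑ i ∈ Finset.range 18, ((t.getD i 0 : ℤ) : ℂ) * w ^ i + TT g (aseq g f t) w := by
        rw [AA_split hg]
        congr 1
        refine Finset.sum_congr rfl fun i hi => ?_
        have hi' := Finset.mem_range.1 hi
        rw [hlow i hi' (by omega)]
      have h7 := ev_scB t w
      rw [hlen] at h7
      set A0 := ∑ i ∈ Finset.range 18, ((t.getD i 0 : ℤ) : ℂ) * w ^ i with hA0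
      have h8 : ev (scB t) (2 * w) = (2 ^ 17 : ℝ) * A0 := by
        push_cast
        linear_combination (1 / 2 : ℂ) * h7
      rw [h8, mul_assoc ((2 ^ 17 : ℝ) : ℂ), Complex.re_ofReal_mul] at h3
      rw [h6, add_mul, Complex.add_re]
      have h9 : -(3 / 128 * ‖ev β (2 * w)‖) ≤
          (TT g (aseq g f t) w * (starRingEnd ℂ) (ev β (2 * w))).re := by
        have h10 := (abs_le.1 (Complex.abs_re_le_norm
          (TT g (aseq g f t) w * (starRingEnd ℂ) (ev β (2 * w))))).1
        rw [norm_mul, RCLike.norm_conj] at h10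
        have h11 := mul_le_mul_of_nonneg_right h5 (norm_nonneg (ev β (2 * w)))
        linarith
      push_cast at h3
      have h12 := sqrt_two_lt
      have h13 : (0 : ℝ) ≤ (absb β).2 := Nat.cast_nonneg _
      have h14 : 12 * ‖ev β (2 * w)‖ ≤ 12 * ((absb β).1 : ℝ) + 17 * ((absb β).2 : ℝ) := by
        nlinarith [mul_le_mul_of_nonneg_left h12.le h13]
      linarith
  · exact ⟨17, by omega, by norm_num, by rw [hlow 17 (by norm_num) (by omega)]; exact h17'⟩
  · exact ⟨17, by omega, by norm_num, by rw [hlow 17 (by norm_num) (by omega)]; exact h17'⟩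
  · intro i hfi hi
    by_cases hig : i = g
    · rw [aseq, if_pos hig]
      exact agv_even g f t (by omega)
    · rw [hpre i (by omega), pre]
      split_ifs with hi18
      · exact hf18 i hi18 hfi
      · exact mid_even g f i hfi
  · by_cases hfg : f = g
    · rw [aseq, if_pos hfg]
      exact agv_odd g f t hfg
    · rw [hpre f (by omega), pre]
      split_ifs with hi18
      · exact hfodd hi18
      · exact mid_odd g f

end Pool.Agent.J6H14.WF2
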