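import Pool.Agent.J6H14.WF2.Lst

/-!
# Table of the first 18 coefficients for `g ≥ 18`, with certificates

Each entry consists of the coefficients, the comparison polynomial and the certificate; the position
in the list is `g` modulo 9.
-/

set_option autoImplicit false

namespace Pool.Agent.J6H14.WF2

/-- the entries for `f = 2` -/
def bt2 : List (List ℤ × List ℤ × List ℤ) := [
  ([1, 0, 3, 0, 6, 0, 12, 0, 18, 0, 24, 0, 30, 0, 30, 0, 30, -6], [16, 0, 0, 0, 1],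
    [92711, 125, 30475, -66, 20318, -45, 12136, -70, 5514, -7, 2061, 24, 845, 7, 228, 11, 85, -8]),
  ([1, 0, -1, 0, 0, 0, 0, 0, 0, 0, 6, 0, -12, 0, 0, -6, 12, 12], [1],
    [36025, -46, -7140, -2, 118, 30, 51, -5, 86, -3, 107, -3, -84, -3, 4, -3, 5, 3]),
  ([1, 0, 1, 0, -2, 0, -6, 0, -6, 0, 6, 0, 24, 0, 12, 0, -18, 6], [1],
    [32856, -64, 4781, 0, -2517, -7, -1869, 1, -556, 5, 99, 3, 164, 2, 29, -1, -9, 1]),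
  ([1, 0, 3, 0, 6, 0, 8, 0, 12, 0, 18, 0, 24, -6, 24, -12, 18, -18], [4, 0, 1],
    [61100, -314, 33699, -75, 14082, 92, 4212, -36, 1571, 21, 677, 67, 268, -10, 80, -14, 19, -10]),
  ([1, 0, -1, 0, 0, 0, 2, 0, -2, 0, -6, 0, 18, 0, -24, 0, 18, 6], [1],
    [34548, -3, -6398, -1, 656, -9, 612, 9, -288, 0, -102, -2, 105, 0, -39, 1, 9, 1]),
  ([1, 0, 1, 0, -2, 0, -4, 0, 2, 0, 14, 0, 12, -6, -12, -24, -18, -24], [1],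
    [33979, 315, 7210, 196, -1718, 99, -1405, 21, 22, -48, 315, -20, 100, -12, -15, -18, -9, -6]),
  ([1, 0, -3, 0, 6, 0, -8, 0, 12, 0, -18, 0, 22, 0, -18, 0, 6, -6], [4, 0, -1],
    [61233, -48, -33602, 45, 14118, -28, -4196, -5, 1578, 7, -716, 8, 278, 3, -69, -4, 6, -3]),
  ([1, 0, -1, 0, 0, 0, 4, 0, -4, 0, 0, 0, 22, 0, -34, 0, 42, 6], [1],
    [34445, -11, -5762, -2, 948, -9, 1248, 2, -333, -2, 59, -4, 124, 0, -51, 1, 20, 1]),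
  ([1, 0, 1, 0, -2, 0, -2, 0, 4, 0, 4, 0, -8, 0, -14, 6, -8, 12], [1],
    [35524, 67, 8840, 4, -2014, 14, -1119, -1, 268, -9, 131, 9, -40, 0, -22, 3, -4, 3])]

/-- the entries for `f = 3` -/
def bt3 : List (List ℤ × List ℤ × List ℤ) := [
  ([1, 0, 0, 3, 0, 0, 6, 0, 0, 12, 0, 0, 18, 0, 0, 12, 0, -6], [1],
    [31074, -13, -38, 6675, 2, -6, 1732, 2, 3, 541, 1, 1, 130, 0, 3, 13, 0, -2]),
  ([1, 0, -1, 3, 0, -6, 6, 6, -12, 6, 18, -30, -18, 18, -36, -30, 54, 12], [8, 0, 0, 1],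
    [87845, 9605, -2473, 20857, 2219, -6696, 4014, 3081, -2078, 528, 1325, -972, -388, 172, -191, -106, 79, 9]),
  ([1, 0, -2, 3, 4, -6, 0, 12, -6, -12, 24, 12, -36, 12, 48, -24, -18, 24], [4, 0, -1],
    [55061, -47, -21513, 12279, 8304, -5722, 101, 2765, -875, -606, 955, 201, -429, 99, 191, -49, -21, 14]),
  ([1, 0, 0, -3, 0, 0, 8, 0, 0, -12, 0, 0, 12, 0, 0, -6, 0, 6], [8, 0, 0, -1],
    [92099, -73, -25, -26705, 32, 50, 8129, -6, -18, -1781, 0, -11, 251, 0, 6, -17, 0, 4]),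
  ([1, 0, -1, -3, 0, 6, 2, 0, -14, 0, 12, 12, 6, -36, 12, -12, 36, -6], [1],
    [26900, -2992, -2082, -5712, 959, 2839, 516, 116, -1119, 98, 277, 183, 14, -134, 30, -10, 22, -2]),
  ([1, 0, 1, -3, -2, 0, 2, 12, -4, 6, -22, 0, -6, 12, 18, -6, 6, -24], [8, 0, 0, -1],
    [81678, 11749, 25278, -21098, -7007, -5329, 985, 5368, -119, 1426, -1547, 13, -285, 127, 76, 0, 15, -19]),
  ([1, 0, 0, 3, 0, 0, 4, 0, 0, 0, 0, 0, -8, 0, 0, -12, 0, 6], [1],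
    [31916, -16, -32, 8021, 9, -3, 2030, 2, 10, 132, 0, 0, -41, 0, -3, -12, 0, 2]),
  ([1, 0, -1, 3, 0, -6, 4, 0, -16, 0, 6, -18, 4, 24, 2, 24, 42, 6], [8, 0, 0, 1],
    [86212, 9962, -11048, 20390, 3465, -10380, 2140, 791, -3927, -501, 625, -582, -14, 259, 26, 61, 63, 5]),
  ([1, 0, 1, -3, -2, -6, 4, 0, 16, 6, 10, -12, -20, -36, -8, 12, 34, 42], [8, 0, 0, -1],
    [82664, -7819, 12916, -23493, -6736, -7916, 4591, -3, 3737, 234, 623, -389, -342, -356, -41, 29, 60, 33])]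

/-- the entries for `f = 4` -/
def bt4 : List (List ℤ × List ℤ × List ℤ) := [
  ([1, 0, 0, 0, 3, 0, 0, 0, 6, 0, 0, 0, 6, 0, 0, 0, 0, -6], [1],
    [33836, -10, 0, 6, 4382, -9, 0, 1, 648, 1, 0, 0, 46, 3, 0, 0, 0, -1]),
  ([1, 0, -1, 0, 3, 0, -6, 0, 6, 0, -12, 0, 24, 0, 0, 0, 48, -6], [1],
    [32920, 25, -1190, 34, 3283, 13, -1811, 4, 414, -1, -281, -5, 154, 2, 3, 0, 24, -1]),
  ([1, 0, 1, 0, 1, 0, 0, 0, 0, 0, 0, 0, 6, 0, 12, 0, 18, -6], [1],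
    [35109, -5, 6200, 5, 1880, 6, 35, -1, 0, 0, -33, -1, 26, 0, 16, 1, 8, -1]),
  ([1, 0, 0, 0, 3, 0, 2, 0, 6, 0, 6, 0, 18, 0, 0, 0, 42, -6], [1],
    [34413, 3, -1860, -37, 4196, 3, 522, 2, 498, 1, 176, 3, 99, 3, 4, 0, 20, -1]),
  ([1, 0, -1, 0, 3, 0, -4, 0, 4, 0, -12, 0, 0, 0, -18, 0, -6, 6], [1],
    [33392, 16, -2924, 5, 3877, 22, -1260, 6, 324, 4, -319, 2, -7, -3, -36, 1, -3, 1]),
  ([1, 0, 1, 0, 1, 0, 2, 0, 2, 0, 2, 0, 6, -6, 6, -24, 0, -24], [1],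
    [35118, 1, 5904, 23, 1214, -8, 761, 12, 186, 22, 29, 23, 37, -7, 11, -19, 0, -6]),
  ([1, 0, 0, 0, 3, 0, -2, 0, 6, 0, -6, 0, 16, 0, 0, 0, 36, 6], [1],
    [34319, -1, 1918, -6, 4219, -5, -547, 1, 526, -1, -178, 3, 89, -3, -4, 0, 17, 1]),
  ([1, 0, -1, 0, 3, 0, -2, 0, 8, 0, -6, 0, 22, 0, -16, 6, 36, -6], [1],
    [33375, 44, -4025, -75, 3722, 26, -332, -17, 637, 1, -74, -9, 130, 5, -23, 5, 18, -1]),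
  ([1, 0, 1, 0, 1, 0, 4, 0, 4, 0, -2, 0, 4, 0, 10, 0, -8, 6], [1],
    [34995, -19, 5375, 3, 957, 1, 1529, 8, 468, 0, -70, -4, 19, 0, 21, -1, -4, 1])]

/-- the entries for `f = 5` -/
def bt5 : List (List ℤ × List ℤ × List ℤ) := [
  ([1, 0, 0, 0, 0, -3, 0, 0, 0, 0, 6, 0, 0, 0, 0, 0, 0, 6], [1],
    [35232, 0, -19, -4, 0, -2459, 0, 0, 0, 0, 179, 0, 3, 0, 0, 0, 0, 1]),
  ([1, 0, -1, 0, 0, 3, 0, -6, 0, 0, 6, 6, -18, 6, 24, -6, 6, 12], [1],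
    [34412, 1144, -5431, 1239, 474, 1580, -48, -1146, 28, 22, 109, 93, -112, 16, 47, -4, 3, 3]),
  ([1, 0, 1, 0, 1, -3, 0, -6, 0, -6, 0, 0, 12, 0, 18, 12, 6, 12], [1],
    [34566, 79, 4332, 1829, 1719, -1784, 149, -1012, -7, -321, -32, -13, 74, -9, 31, 10, 3, 3]),
  ([1, 0, 0, 0, 0, 3, 2, 0, 0, 0, 6, 12, 0, 0, 6, -6, 30, 18], [1],
    [35607, -1880, 51, -87, 43, 2273, 546, -6, -10, 2, 186, 143, -9, 1, 11, -4, 14, 4]),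
  ([1, 0, -1, 0, 0, 3, 2, -6, -2, 6, 6, 0, -12, -6, 12, 18, -6, -30], [1],
    [33854, 235, -4599, 1350, -23, 1731, 860, -1060, -124, 315, 105, 2, -72, -15, 24, 14, -3, -7]),
  ([1, 0, 1, 0, 1, -3, 2, -6, -4, -6, 2, -12, 12, 0, 6, 12, 18, -18], [1],
    [34124, 1383, 4489, 728, 1209, -1535, 953, -964, -454, -284, 20, -175, 76, -6, 6, 13, 9, -4]),
  ([1, 0, 0, 0, 0, -3, -2, 0, 0, 0, 6, 12, -2, 0, 0, 0, -42, 18], [1],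
    [35656, -1807, -33, 30, -2, -2229, -609, -30, 0, 13, 167, 143, -6, 0, 0, -2, -19, 4]),
  ([1, 0, -1, 0, 0, 3, 4, -6, -4, 6, 6, 6, -2, -24, 14, 30, -6, -12], [1],
    [33769, -955, -4029, 1417, 501, 1758, 1263, -1036, -246, 297, 154, 52, -10, -77, 28, 28, -3, -3]),
  ([1, 0, 1, 0, 1, 3, -2, 6, -2, 12, 4, 6, 10, -12, 28, -12, 34, -24], [1],
    [34331, 2434, 3685, -1015, 1544, 1590, -756, 783, -162, 581, 101, 87, 56, -39, 46, -11, 17, -6])]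

/-- the entries for `f = 6` -/
def bt6 : List (List ℤ × List ℤ × List ℤ) := [
  ([1, 0, 0, 0, 0, 0, 3, 0, 0, 0, 0, 0, 12, 0, 0, 0, 0, 6], [1],
    [35178, 26, 0, 0, 0, -9, 1231, 1, 0, 0, 0, -3, 89, 0, 0, 0, 0, 1]),
  ([1, 0, -1, 0, 0, 0, 3, 0, -6, 0, 6, 0, 0, 0, -6, 0, 6, -6], [1],
    [33951, -10, -5870, 9, 519, 0, 990, 1, -586, -2, 177, 3, -7, 0, -10, -1, 3, -1]),
  ([1, 0, 1, 0, 1, 0, 3, 0, 6, 0, 6, 0, 6, 0, 12, -6, 12, -12], [1],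
    [34448, -70, 5180, -32, 721, -6, 906, 14, 575, 16, 147, 4, 32, 3, 19, -4, 6, -3]),
  ([1, 0, 0, 0, 0, 0, -1, 0, 0, 0, 0, 0, 6, 0, 0, 0, 0, -6], [1],
    [34155, 6, 0, 0, 0, 7, -452, 0, 0, 0, 0, -1, 46, 0, 0, 0, 0, -1]),
  ([1, 0, -1, 0, 0, 0, -1, 0, 4, 0, 0, 0, -12, 0, 12, -6, 0, 12], [1],
    [35760, 9, -7041, -58, 51, 43, -222, 6, 436, -12, -56, -1, -71, -3, 22, -3, 0, 3]),
  ([1, 0, 1, 0, 1, 0, -1, 0, -4, 0, -10, 0, -12, 0, -12, 0, 0, 6], [1],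
    [34038, 7, 5451, 11, 1930, 4, -173, 6, -278, 3, -237, 2, -78, -1, -23, -1, 0, 1]),
  ([1, 0, 0, 0, 0, 0, 1, 0, 0, 0, 0, 0, 4, 0, 0, 0, 0, -6], [1],
    [33885, -4, 0, 0, 0, 4, 468, 0, 0, 0, 0, 1, 31, 0, 0, 0, 0, -1]),
  ([1, 0, -1, 0, 0, 0, 1, 0, 2, 0, -12, 0, 22, 0, -16, 0, 6, -6], [1],
    [34545, 14, -5919, -13, 193, 21, 469, -13, 72, 3, -263, 1, 147, -1, -28, -1, 3, -1]),
  ([1, 0, 1, 0, 1, 0, 1, 0, 4, 0, 10, 0, 16, -6, 16, -12, 10, -24], [1],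
    [34185, 59, 5339, 107, 1235, 89, 85, 27, 277, 7, 227, 13, 103, -15, 28, -8, 5, -6])]

/-- the entries for `f = 7` -/
def bt7 : List (List ℤ × List ℤ × List ℤ) := [
  ([1, 0, 0, 0, 0, 0, 0, -3, 0, 0, 0, 0, 0, 0, 12, 0, 0, 6], [1],
    [34653, 0, 0, -8, -3, 0, 0, -670, 0, 0, 4, 0, 0, 0, 23, 0, 0, 1]),
  ([1, 0, -1, 0, 0, 0, 0, 3, 0, -6, 6, 0, -12, 6, 18, 18, -18, -36], [1],
    [35577, 587, -6447, -193, 140, 415, 34, 436, 49, -338, 137, 27, -66, 29, 27, 11, -8, -8]),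
  ([1, 0, 1, 0, 1, 0, 0, 3, 0, 6, 0, 12, -6, 6, -12, 0, -24, -6], [1],
    [34673, 260, 5431, 20, 1589, -282, -17, 510, 7, 260, 29, 164, -28, 23, -16, 1, -11, -1]),
  ([1, 0, 0, 0, 0, 0, -1, 3, 0, 0, 0, 0, 0, -6, 18, 12, 6, 6], [1],
    [35370, 467, -7, -8, 6, 11, -439, 619, 2, 2, -1, 1, 1, -23, 33, 11, 3, 1]),
  ([1, 0, -1, 0, 0, 0, 2, -3, -2, 6, 0, -6, 6, -6, 0, 24, 0, -30], [1],
    [35381, 985, -6327, -713, 521, -237, 671, -437, -202, 266, 29, -93, 45, -8, -2, 17, 0, -7]),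
  ([1, 0, 1, 0, 1, 0, 2, 3, 2, 6, 2, 6, 0, 12, 6, 6, 18, -6], [1],
    [34837, -577, 5411, -398, 1129, -548, 768, 409, 217, 282, 61, 67, -7, 43, 6, 7, 8, -1]),
  ([1, 0, 0, 0, 0, 0, 1, -3, 0, 0, 0, 0, -2, -6, 18, 18, 12, 6], [1],
    [35390, 316, 4, 38, 24, -35, 443, -620, 10, 0, -1, -1, -15, -23, 33, 17, 6, 1]),
  ([1, 0, -1, 0, 0, 0, 1, 3, 2, -6, -6, 6, 4, 6, 20, -30, -30, 48], [1],
    [35181, -681, -6114, 481, 446, 289, 370, 475, 183, -289, -151, 94, 50, 8, 26, -21, -14, 11]),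
  ([1, 0, 1, 0, 1, 0, 1, -3, -2, -6, -2, -12, -2, -18, -8, 0, -14, 12], [1],
    [35115, -899, 5273, -133, 1374, 400, 521, -471, -190, -236, -45, -138, -9, -68, -11, -2, -6, 3])]

/-- the entries for `f = 8` -/
def bt8 : List (List ℤ × List ℤ × List ℤ) := [
  ([1, 0, 0, 0, 0, 0, 0, 0, 3, 0, 0, 0, 0, 0, 0, 0, 18, -6], [1],
    [34251, 15, 0, 0, 0, 0, 0, -1, 345, 4, 0, 0, 0, 0, 0, 0, 9, -1]),
  ([1, 0, -1, 0, 0, 0, 0, 0, 3, 0, -6, 0, 6, 0, -6, -6, 6, 12], [1],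
    [35758, -32, -7069, 24, 95, -12, 204, 16, 233, -6, -148, -3, 37, -3, -9, -3, 3, 3]),
  ([1, 0, 1, 0, 1, 0, 0, 0, -3, 0, -6, 0, -6, 0, -6, 0, 6, -6], [1],
    [34542, 2, 5885, -4, 1910, 2, 289, -2, -219, -3, -145, -1, -39, 1, -13, 1, 3, -1]),
  ([1, 0, 0, 0, 0, 0, -1, 0, 3, 0, 0, 0, 0, 0, -12, 6, 6, 12], [1],
    [35150, 39, 276, 28, 13, 0, -433, -16, 334, -2, 2, 2, 1, 0, -22, 5, 3, 3]),
  ([1, 0, -1, 0, 0, 0, 2, 0, -5, 0, 6, 0, 0, 0, -6, 6, 0, -12], [1],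
    [35009, 6, -6406, -15, 335, -4, 568, 16, -458, -10, 176, 5, -8, 3, -11, 4, 0, -3]),
  ([1, 0, 1, 0, 1, 0, 2, 0, 5, 0, 8, 0, 6, 0, 0, 0, 0, 6], [1],
    [34339, 24, 5434, 16, 1024, 2, 542, -5, 453, -4, 215, -1, 46, 0, 0, -1, 0, 1]),
  ([1, 0, 0, 0, 0, 0, 1, 0, 3, 0, 0, 0, -2, 0, 12, 0, 0, -6], [1],
    [35209, -6, -242, 9, 42, -5, 442, 0, 340, 4, -1, 1, -14, 0, 22, 0, 0, -1]),
  ([1, 0, -1, 0, 0, 0, 1, 0, -1, 0, 0, 0, 4, 0, -10, 6, 6, -12], [1],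
    [35866, 25, -7165, -19, 311, 2, 367, 0, -96, -1, 13, 4, 16, 3, -16, 3, 3, -3]),
  ([1, 0, 1, 0, 1, 0, 1, 0, 1, 0, -2, 0, -8, -6, -14, -18, -8, -18], [1],
    [34588, -144, 5979, -94, 1551, -23, 439, 7, 185, 10, -12, 20, -42, -10, -24, -14, -4, -4])]

/-- the entries for `f = 9` -/
def bt9 : List (List ℤ × List ℤ × List ℤ) := [
  ([1, 0, 0, 0, 0, 0, 0, 0, 0, -3, 0, 0, 0, 0, 0, 0, 0, 6], [1],
    [34506, 5, 0, 0, 0, 0, 0, 0, 4, -182, 0, 0, 0, 0, 0, 0, 0, 1]),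
  ([1, 0, -1, 0, 0, 0, 3, 0, -6, 3, 6, -6, 0, 6, -6, 0, 18, -12], [1],
    [34424, 302, -5644, -439, 437, 205, 999, 69, -579, 117, 169, -73, -6, 23, -6, -2, 9, -3]),
  ([1, 0, 1, 0, 1, 0, 0, 0, -3, -3, -6, -6, -6, -12, -6, -18, -6, -12], [1],
    [34492, -587, 5638, -315, 1803, -109, 233, 76, -246, -123, -152, -57, -39, -34, -10, -15, -3, -3]),
  ([1, 0, 0, 0, 0, 0, -1, 0, 0, -3, 0, 0, 6, 0, 0, 6, 0, 6], [1],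
    [34753, -1, -2, -59, -3, -7, -434, 0, 4, -176, 0, 1, 45, 0, 0, 6, 0, 1]),
  ([1, 0, -1, 0, 0, 0, 2, 0, -5, 3, 6, -6, 0, 6, -6, -12, 6, 12], [1],
    [35064, 319, -6099, -349, 211, 182, 629, 60, -471, 138, 175, -82, -8, 16, -9, -9, 3, 3]),
  ([1, 0, 1, 0, 1, 0, 2, 0, 2, 3, 2, 12, 6, 18, 6, 18, 0, 18], [1],
    [34688, -201, 5411, -230, 1102, -174, 763, -185, 204, 47, 39, 134, 40, 57, 12, 14, 0, 4]),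
  ([1, 0, 0, 0, 0, 0, 1, 0, 0, 3, 0, 0, -2, 0, 0, 12, 0, 6], [1],
    [34603, 2, -9, -83, 0, 3, 472, 1, -4, 172, 0, -1, -15, 0, 0, 11, 0, 1]),
  ([1, 0, -1, 0, 0, 0, 1, 0, -1, -3, 0, 12, 4, -18, -10, 12, 12, -6], [1],
    [35336, -105, -6576, 192, 128, -205, 413, -10, -112, -85, 15, 136, 18, -59, -14, 10, 6, -1]),
  ([1, 0, 1, 0, 1, 0, 1, 0, 1, 3, 4, 6, 10, 6, 16, 12, 10, 6], [1],
    [34770, -382, 5876, -201, 1490, -101, 358, -135, 30, 121, 66, 75, 55, 15, 27, 10, 5, 1])]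

/-- the entries for `f = 10` -/
def bt10 : List (List ℤ × List ℤ × List ℤ) := [
  ([1, 0, 0, 0, 0, 0, 0, 0, 0, 0, 3, 0, 0, 0, 0, 0, 0, 6], [1],
    [34021, 0, 0, 1, 0, 0, 0, -4, 0, 0, 92, 0, 0, 0, 0, 0, 0, 1]),
  ([1, 0, -1, 0, 0, 0, 3, 0, -6, 0, 3, 0, 6, 0, -18, 0, 18, -6], [1],
    [34350, -1, -6074, 6, 807, 0, 826, -3, -586, -3, 105, 2, 23, 0, -28, -1, 9, -1]),
  ([1, 0, 1, 0, 1, 0, 0, 0, -3, 0, -9, 0, -18, 0, -24, 0, -18, -6], [1],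
    [33554, 13, 5360, -13, 1595, -15, 182, -8, -177, -3, -178, -1, -108, 1, -41, 1, -9, -1]),
  ([1, 0, 0, 0, 0, 0, -1, 0, 0, 0, 3, 0, 0, 0, 0, 0, -18, 6], [1],
    [34583, 18, 15, 1, 73, 2, -467, -4, 0, 0, 84, 1, 0, 0, 0, 0, -9, 1]),
  ([1, 0, -1, 0, 0, 0, 2, 0, -2, 0, -3, 0, 12, 0, -18, 0, 12, -6], [1],
    [34877, -2, -6774, -1, 674, 4, 658, -4, -244, 0, -37, 2, 66, 0, -29, -1, 6, -1]),
  ([1, 0, 1, 0, 1, 0, 2, 0, 5, 0, 5, 0, 0, 0, -6, -6, 0, -6], [1],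
    [34576, -71, 5534, -45, 1143, -1, 594, 19, 518, 8, 153, 2, 7, 4, -11, -5, 0, -1]),
  ([1, 0, 0, 0, 0, 0, 1, 0, 0, 0, -3, 0, 4, 0, -6, 0, -18, -6], [1],
    [34642, -21, 55, -7, 66, 6, 442, -4, 9, 0, -84, 1, 31, 0, -11, 0, -9, -1]),
  ([1, 0, -1, 0, 0, 0, 1, 0, -1, 0, 3, 0, -8, 6, 8, -18, 0, 18], [1],
    [35580, 79, -7058, -89, 266, 24, 446, -8, -86, 16, 50, 7, -48, 11, 15, -13, 0, 4]),
  ([1, 0, 1, 0, 1, 0, 1, 0, 1, 0, 1, 0, -2, 0, -8, 6, -8, 12], [1],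
    [34732, 17, 6191, 18, 1565, 2, 394, -2, 104, -1, 44, -1, -4, -5, -12, 4, -4, 3])]

/-- the entries for `f = 11` -/
def bt11 : List (List ℤ × List ℤ × List ℤ) := [
  ([1, 0, 0, 0, 0, 0, 0, 0, 0, 0, 0, 3, 0, 0, 0, 0, 0, -6], [1],
    [33650, 0, 0, 0, 0, 0, 4, 0, 0, 0, 0, 47, 0, 0, 0, 0, 0, -1]),
  ([1, 0, -1, 0, 0, 0, 3, 0, -6, 0, 6, -3, 0, 6, -6, -6, 6, 6], [1],
    [34338, 15, -5745, -61, 469, 112, 1002, -62, -586, -11, 176, -35, -7, 19, -10, -5, 3, 1]),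
  ([1, 0, 1, 0, 1, 0, 0, 0, -3, 0, -6, -3, -12, -6, -12, -12, -6, -18], [1],
    [34498, -163, 5752, -164, 1778, -101, 222, -28, -223, 21, -115, -29, -76, -14, -21, -9, -3, -4]),
  ([1, 0, 0, 0, 0, 0, -1, 0, 0, 0, 0, -3, 0, 0, 0, 0, 0, 24], [1],
    [34332, -16, 0, 0, 0, -37, -476, 0, 0, 0, 0, -41, 0, 0, 0, 0, 0, 6]),
  ([1, 0, -1, 0, 0, 0, 2, 0, -2, 0, -3, -3, 12, 12, -18, -24, 12, 18], [1],
    [34645, -125, -6587, 121, 612, 12, 674, -65, -247, 7, -38, -22, 67, 29, -30, -19, 6, 4]),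
  ([1, 0, 1, 0, 1, 0, 2, 0, 5, 0, 8, 3, 6, 6, 0, 0, 0, -6], [1],
    [34409, -50, 5370, -125, 1031, -64, 546, -7, 454, -25, 216, 33, 46, 23, 0, 1, 0, -1]),
  ([1, 0, 0, 0, 0, 0, 1, 0, 0, 0, 0, -3, 4, 0, 0, 0, -6, -12], [1],
    [34296, 51, -4, 0, 8, 39, 457, -1, 0, 0, 3, -43, 31, 0, 0, 0, -3, -3]),
  ([1, 0, -1, 0, 0, 0, 1, 0, -1, 0, 3, -3, -8, 18, 8, -42, 0, 36], [1],
    [35185, 218, -6625, -216, 123, 82, 480, -51, -99, 15, 57, -17, -51, 42, 16, -33, 0, 8]),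
  ([1, 0, 1, 0, 1, 0, 1, 0, 1, 0, 1, 3, -2, 12, -8, 24, -8, 24], [1],
    [34562, 270, 6018, 68, 1535, -17, 408, -25, 112, -46, 46, 8, -4, 29, -13, 19, -4, 6])]

/-- the entries for `f = 12` -/
def bt12 : List (List ℤ × List ℤ × List ℤ) := [
  ([1, 0, 0, 0, 0, 0, 0, 0, 0, 0, 0, 0, 3, 0, 0, 0, 0, 6], [1],
    [33373, 0, 0, 0, 0, -4, 0, 0, 0, 0, 0, 0, 24, 0, 0, 0, 0, 1]),
  ([1, 0, -1, 0, 0, 0, 3, 0, -6, 0, 6, 0, 3, 0, -12, 0, 12, -6], [1],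
    [34214, -8, -5950, 8, 608, 3, 910, 2, -553, -2, 185, 3, 8, 0, -19, -1, 6, -1]),
  ([1, 0, 1, 0, 1, 0, 0, 0, -3, 0, -9, 0, -15, 0, -18, 0, -12, 6], [1],
    [33860, -8, 5514, 7, 1690, 9, 229, 7, -168, 3, -192, 1, -91, -1, -31, -1, -6, 1]),
  ([1, 0, 0, 0, 0, 0, -1, 0, 0, 0, 0, 0, 3, 0, 0, 0, 0, -6], [1],
    [33826, 3, 0, 0, 0, 3, -475, 0, 0, 0, 0, -1, 23, 0, 0, 0, 0, -1]),
  ([1, 0, -1, 0, 0, 0, 2, 0, -2, 0, -3, -3, 9, 12, -12, -24, 6, 24], [1],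
    [34846, -107, -6676, 102, 650, 8, 688, -58, -265, 6, -48, -24, 52, 29, -21, -18, 3, 6]),
  ([1, 0, 1, 0, 1, 0, 2, 0, 5, 0, 8, 0, 9, 0, 12, -6, 12, -12], [1],
    [34384, -47, 5479, -25, 967, 6, 475, 18, 426, 10, 196, 2, 54, 4, 19, -4, 6, -3]),
  ([1, 0, 0, 0, 0, 0, 1, 0, 0, 0, 0, 0, 1, 0, 0, 0, 0, -6], [1],
    [34169, -1, 0, 0, 0, 0, 484, 0, 0, 0, 0, 1, 8, 0, 0, 0, 0, -1]),
  ([1, 0, -1, 0, 0, 0, 1, 0, -1, 0, 3, 3, -11, -6, 20, 0, -12, 6], [1],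
    [35481, 52, -6921, -54, 221, -8, 463, 31, -109, 23, 47, 27, -55, -22, 33, 1, -6, 1]),
  ([1, 0, 1, 0, 1, 0, 1, 0, 1, 0, 1, 0, 1, 0, 4, 6, 4, 12], [1],
    [34783, -13, 6220, -2, 1562, 2, 390, 0, 97, 0, 23, -1, 2, -5, 6, 4, 2, 3])]

/-- the entries for `f = 13` -/
def bt13 : List (List ℤ × List ℤ × List ℤ) := [
  ([1, 0, 0, 0, 0, 0, 0, 0, 0, 0, 0, 0, 0, -3, 0, 0, 0, 6], [1],
    [33170, 0, 0, 0, 4, 0, 0, 0, 0, 0, 0, 0, 0, -12, 0, 0, 0, 1]),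
  ([1, 0, -1, 0, 0, 0, 3, 0, -6, 0, 6, 0, 0, 3, -6, -6, 6, 6], [1],
    [33762, -29, -5865, 7, 517, 25, 994, -36, -590, 17, 178, 4, -7, 8, -10, -5, 3, 1]),
  ([1, 0, 1, 0, 1, 0, 0, 0, -3, 0, -9, 0, -18, -3, -24, -6, -18, -6], [1],
    [33693, -115, 5331, -89, 1587, -61, 180, -30, -178, -6, -179, 7, -108, -8, -41, -5, -9, -1]),
  ([1, 0, 0, 0, 0, 0, -1, 0, 0, 0, 0, 0, 3, 3, 0, 0, 0, 6], [1],
    [34177, -27, -2, 0, -4, -4, -471, 10, 0, 0, 0, 1, 23, 12, 0, 0, 0, 1]),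
  ([1, 0, -1, 0, 0, 0, 2, 0, -2, 0, -3, 0, 12, 3, -18, -6, 12, 6], [1],
    [34849, -24, -6767, 36, 673, -14, 659, -11, -244, 9, -37, 6, 66, 7, -29, -5, 6, 1]),
  ([1, 0, 1, 0, 1, 0, 2, 0, 5, 0, 8, 0, 9, -3, 6, -6, 0, -6], [1],
    [34284, -83, 5424, -14, 967, 30, 510, 23, 447, 8, 201, 9, 62, -8, 11, -5, 0, -1]),
  ([1, 0, 0, 0, 0, 0, 1, 0, 0, 0, 0, 0, 4, -3, 0, 0, 0, -6], [1],
    [34263, 30, 2, 0, -4, 2, 464, 10, 0, 0, 0, 1, 31, -11, 0, 0, 0, -1]),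
  ([1, 0, -1, 0, 0, 0, 1, 0, -1, 0, 3, 3, -8, -9, 8, 12, 0, -6], [1],
    [35561, -85, -7048, 57, 255, -25, 448, 33, -87, 14, 50, 24, -48, -25, 15, 10, 0, -1]),
  ([1, 0, 1, 0, 1, 0, 1, 0, 1, 0, 1, 0, 4, 3, 10, 12, 10, 12], [1],
    [34535, -95, 6190, -18, 1572, 7, 396, 2, 92, -3, 4, -11, 16, 3, 16, 9, 5, 3])]

/-- the entries for `f = 14` -/
def bt14 : List (List ℤ × List ℤ × List ℤ) := [
  ([1, 0, 0, 0, 0, 0, 0, 0, 0, 0, 0, 0, 0, 0, 3, 0, 0, 6], [1],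
    [33022, 0, 0, -4, 0, 0, 0, 0, 0, 0, 0, 0, 0, 0, 6, 0, 0, 1]),
  ([1, 0, -1, 0, 0, 0, 3, 0, -6, 0, 6, 0, 0, -3, -9, 6, 12, -12], [1],
    [34010, 18, -5891, 2, 526, -25, 977, 37, -571, -19, 171, -1, -11, -8, -13, 4, 6, -3]),
  ([1, 0, 1, 0, 1, 0, 0, 0, -3, 0, -9, 0, -15, 0, -15, 0, -12, -6], [1],
    [33813, 2, 5535, -2, 1715, -9, 243, -7, -164, -3, -194, -1, -95, 1, -25, 1, -6, -1]),
  ([1, 0, 0, 0, 0, 0, -1, 0, 0, 0, 0, 0, 3, 0, 3, 0, 0, -6], [1],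
    [34111, 3, -12, 5, -2, 3, -472, 0, 5, 0, 0, -1, 23, 0, 6, 0, 0, -1]),
  ([1, 0, -1, 0, 0, 0, 2, 0, -2, 0, -3, 0, 12, 3, -15, -6, 6, 6], [1],
    [34845, -37, -6801, 40, 705, -12, 649, -11, -252, 9, -31, 6, 69, 7, -26, -5, 3, 1]),
  ([1, 0, 1, 0, 1, 0, 2, 0, 5, 0, 8, 0, 9, 3, 9, 12, 6, 12], [1],
    [34127, 104, 5444, 28, 965, -37, 495, -38, 439, -15, 200, -10, 58, 4, 15, 10, 3, 3]),
  ([1, 0, 0, 0, 0, 0, 1, 0, 0, 0, 0, 0, 4, 0, -3, 0, 0, -6], [1],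
    [34052, -4, 17, -3, -2, 4, 466, 0, 5, 0, 0, 1, 31, 0, -6, 0, 0, -1]),
  ([1, 0, -1, 0, 0, 0, 1, 0, -1, 3, 3, -12, -8, 18, 11, -6, -6, -6], [1],
    [35001, -136, -6565, 46, 126, 127, 468, 19, -96, 81, 57, -131, -45, 63, 18, -7, -3, -1]),
  ([1, 0, 1, 0, 1, 0, 1, 0, 1, 0, 1, 0, 4, -6, 7, -18, 4, -18], [1],
    [34613, 88, 6154, 25, 1572, -4, 398, -2, 92, 6, 5, 20, 20, -10, 12, -14, 2, -4])]

/-- the entries for `f = 15` -/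
def bt15 : List (List ℤ × List ℤ × List ℤ) := [
  ([1, 0, 0, 0, 0, 0, 0, 0, 0, 0, 0, 0, 0, 0, 0, -3, 0, 6], [1],
    [32915, 0, 4, 0, 0, 0, 0, 0, 0, 0, 0, 0, 0, 0, 0, -3, 0, 1]),
  ([1, 0, -1, 0, 0, 0, 3, 0, -6, 0, 6, 0, 0, 0, -6, -3, 6, 6], [1],
    [33891, 7, -5871, -4, 520, 4, 991, -7, -587, 8, 178, -3, -7, -2, -10, -2, 3, 1]),
  ([1, 0, 1, 0, 1, 0, 0, 0, -3, 0, -9, 0, -18, 0, -24, 3, -18, 6], [1],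
    [33613, -1, 5352, 29, 1594, 29, 182, 15, -177, 5, -178, 0, -108, -2, -41, 2, -9, 1]),
  ([1, 0, 0, 0, 0, 0, -1, 0, 0, 0, 0, 0, 3, 0, 0, 3, 0, -6], [1],
    [33964, 3, 4, -8, 0, 3, -474, 0, 0, 3, 0, -1, 23, 0, 0, 3, 0, -1]),
  ([1, 0, -1, 0, 0, 0, 2, 0, -2, 0, -3, 0, 12, -3, -15, 9, 6, -12], [1],
    [34755, 29, -6802, -44, 707, 23, 650, 7, -252, -12, -31, -3, 69, -5, -26, 6, 3, -3]),
  ([1, 0, 1, 0, 1, 0, 2, 0, 5, 0, 8, 0, 9, 0, 9, -3, 6, -6], [1],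
    [34169, -40, 5485, -15, 968, 4, 491, 10, 437, 5, 199, 1, 58, 2, 15, -2, 3, -1]),
  ([1, 0, 0, 0, 0, 0, 1, 0, 0, 0, 0, 0, 4, 0, 0, -3, 0, 6], [1],
    [33997, 4, 4, 7, 0, -4, 467, 0, 0, 2, 0, -1, 31, 0, 0, -3, 0, 1]),
  ([1, 0, -1, 0, 0, 0, 1, 0, 2, 0, -9, 0, 13, 0, -7, 3, 0, -6], [1],
    [34934, -2, -6757, -11, 436, 19, 509, -13, 80, 1, -200, 2, 87, 2, -13, 2, 0, -1]),
  ([1, 0, 1, 0, 1, 0, 1, 0, 1, 0, 1, 0, 4, 0, 10, 3, 10, 6], [1],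
    [34640, -9, 6206, -8, 1566, -1, 393, 1, 92, 0, 4, -1, 16, -2, 16, 2, 5, 1])]

/-- the entries for `f = 16` -/
def bt16 : List (List ℤ × List ℤ × List ℤ) := [
  ([1, 0, 0, 0, 0, 0, 0, 0, 0, 0, 0, 0, 0, 0, 0, 0, 3, 6], [1],
    [32839, -4, 0, 0, 0, 0, 0, 0, 0, 0, 0, 0, 0, 0, 0, 0, 1, 1]),
  ([1, 0, -1, 0, 0, 0, 3, 0, -6, 0, 6, 0, 0, 0, -6, -3, 9, 6], [1],
    [33920, 7, -5886, -4, 522, 4, 988, -7, -584, 8, 175, -3, -7, -2, -9, -2, 4, 1]),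
  ([1, 0, 1, 0, 1, 0, 0, 0, -3, 0, -9, 0, -18, 0, -24, -3, -21, -6], [1],
    [33559, -8, 5353, -28, 1583, -29, 174, -15, -181, -6, -179, 0, -107, 2, -40, -2, -10, -1]),
  ([1, 0, 0, 0, 0, 0, -1, 0, 0, 0, 0, 0, 3, 0, 0, 0, -3, -6], [1],
    [33902, -1, 2, 0, 3, 3, -474, 0, 0, 0, -1, -1, 23, 0, 0, 0, -1, -1]),
  ([1, 0, -1, 0, 0, 0, 2, 0, -2, 0, -3, 0, 12, 3, -15, -9, 9, 12], [1],
    [34769, -27, -6796, 39, 699, -24, 653, -7, -252, 12, -33, 3, 70, 5, -25, -6, 4, 3]),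
  ([1, 0, 1, 0, 1, 0, 2, 0, 5, 0, 8, 0, 6, 0, 0, 3, -3, 6], [1],
    [34138, 65, 5428, 29, 1020, -4, 547, -13, 458, -6, 217, -1, 46, -2, 1, 2, -1, 1]),
  ([1, 0, 0, 0, 0, 0, 1, 0, 0, 0, 0, 0, 4, 0, 0, 0, 3, -6], [1],
    [33885, 0, 2, 0, -4, 4, 468, 0, 0, 0, -1, 1, 31, 0, 0, 0, 1, -1]),
  ([1, 0, -1, 0, 0, 0, 1, 0, -1, 0, 3, 3, -8, -15, 8, 30, -3, -24], [1],
    [35268, -156, -6857, 143, 183, -54, 468, 44, -92, -4, 54, 18, -50, -37, 14, 24, -1, -6]),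
  ([1, 0, 1, 0, 1, 0, 1, 0, 1, 0, 1, 0, 1, -3, 1, -12, 1, -12], [1],
    [34571, 1, 6226, -1, 1567, 0, 393, 1, 98, 3, 24, 11, 6, -3, 2, -9, 0, -3])]

/-- the entries for `f = 17` -/
def bt17 : List (List ℤ × List ℤ × List ℤ) := [
  ([1, 0, 0, 0, 0, 0, 0, 0, 0, 0, 0, 0, 0, 0, 0, 0, 0, 3], [1],
    [32518, 0, 0, 0, 0, 0, 0, 0, 0, 0, 0, 0, 0, 0, 0, 0, 0, 1]),
  ([1, 0, -1, 0, 0, 0, 3, 0, -6, 0, 6, 0, 0, 0, -6, 0, 9, 3], [1],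
    [33800, 0, -5901, -5, 526, 0, 989, -1, -585, 1, 175, -1, -7, 0, -9, 1, 4, 1]),
  ([1, 0, 1, 0, 1, 0, 0, 0, -3, 0, -9, 0, -18, 0, -24, 0, -18, -3], [1],
    [33407, 6, 5370, -7, 1600, -7, 184, -4, -177, -2, -178, 0, -108, 0, -41, 0, -9, -1]),
  ([1, 0, 0, 0, 0, 0, -1, 0, 0, 0, 0, 0, 3, 0, 0, 0, 0, 3], [1],
    [33697, -2, 0, 0, 0, -2, -477, 0, 0, 0, 0, 1, 23, 0, 0, 0, 0, 1]),
  ([1, 0, -1, 0, 0, 0, 2, 0, -2, 0, -3, 0, 12, 3, -15, -9, 9, 9], [1],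
    [34683, -29, -6810, 41, 705, -22, 654, -9, -253, 13, -33, 4, 70, 5, -25, -7, 4, 2]),
  ([1, 0, 1, 0, 1, 0, 2, 0, 5, 0, 8, 0, 9, -3, 9, -9, 6, -9], [1],
    [34146, -75, 5460, -17, 965, 32, 494, 30, 438, 11, 199, 9, 58, -6, 15, -7, 3, -2]),
  ([1, 0, 0, 0, 0, 0, 1, 0, 0, 0, 0, 0, 4, 0, 0, 0, 0, 3], [1],
    [33758, 2, 0, 0, 0, -2, 469, 0, 0, 0, 0, -1, 31, 0, 0, 0, 0, 1]),
  ([1, 0, -1, 0, 0, 0, 1, 0, -1, 0, 3, -3, -8, 12, 11, -18, -6, 9], [1],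
    [35425, 101, -6975, -75, 218, 29, 456, -38, -90, -6, 55, -19, -45, 32, 18, -15, -3, 2]),
  ([1, 0, 1, 0, 1, 0, 1, 0, 1, 0, -2, 0, -11, 3, -20, 9, -17, 9], [1],
    [34196, 144, 5925, 67, 1541, 6, 447, -8, 198, -6, 8, -10, -56, 5, -33, 7, -8, 2])]

/-- the entries for `f ≥ 18` -/
def bt18 : List (List ℤ × List ℤ × List ℤ) := [
  ([1, 0, 0, 0, 0, 0, 0, 0, 0, 0, 0, 0, 0, 0, 0, 0, 0, -3], [1],
    [32518, 0, 0, 0, 0, 0, 0, 0, 0, 0, 0, 0, 0, 0, 0, 0, 0, -1]),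
  ([1, 0, -1, 0, 0, 0, 3, 0, -6, 0, 6, 0, 0, 0, -6, 0, 9, -3], [1],
    [33800, 0, -5901, 5, 526, 0, 989, 1, -585, -1, 175, 1, -7, 0, -9, -1, 4, -1]),
  ([1, 0, 1, 0, 1, 0, 0, 0, -3, 0, -9, 0, -18, 0, -24, 0, -18, -3], [1],
    [33407, 6, 5370, -7, 1600, -7, 184, -4, -177, -2, -178, 0, -108, 0, -41, 0, -9, -1]),
  ([1, 0, 0, 0, 0, 0, -1, 0, 0, 0, 0, 0, 3, 0, 0, 0, 0, -3], [1],
    [33697, 2, 0, 0, 0, 2, -477, 0, 0, 0, 0, -1, 23, 0, 0, 0, 0, -1]),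
  ([1, 0, -1, 0, 0, 0, 2, 0, -2, 0, -3, 0, 12, 3, -15, -9, 9, 9], [1],
    [34683, -29, -6810, 41, 705, -22, 654, -9, -253, 13, -33, 4, 70, 5, -25, -7, 4, 2]),
  ([1, 0, 1, 0, 1, 0, 2, 0, 5, 0, 8, 0, 9, 0, 9, -3, 6, -6], [1],
    [34169, -40, 5485, -15, 968, 4, 491, 10, 437, 5, 199, 1, 58, 2, 15, -2, 3, -1]),
  ([1, 0, 0, 0, 0, 0, 1, 0, 0, 0, 0, 0, 4, 0, 0, 0, 0, 3], [1],
    [33758, 2, 0, 0, 0, -2, 469, 0, 0, 0, 0, -1, 31, 0, 0, 0, 0, 1]),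
  ([1, 0, -1, 0, 0, 0, 1, 0, 2, 0, -9, 0, 13, 0, -7, 0, 0, 3], [1],
    [34890, -4, -6766, 3, 437, -3, 509, 3, 80, -2, -200, -1, 87, 0, -13, 1, 0, 1]),
  ([1, 0, 1, 0, 1, 0, 1, 0, 1, 0, 1, 0, 1, 3, 1, 12, 1, 12], [1],
    [34571, -1, 6226, 1, 1567, 0, 393, -1, 98, -3, 24, -11, 6, 3, 2, 9, 0, 3])]

/-- the whole table -/
def bigTab : List (List (List ℤ × List ℤ × List ℤ)) :=
  [bt2, bt3, bt4, bt5, bt6, bt7, bt8, bt9, bt10, bt11, bt12, bt13, bt14, bt15, bt16, bt17, bt18]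

/-- scaled coefficients -/
def scB : List ℤ → List ℤ
  | [] => []
  | x :: l => 2 ^ l.length * x :: scB l

/-- coefficients of `(X² - 1)^g`, computable form -/
def czc (g i : ℕ) : ℤ :=
  if i % 2 = 0 then (-1) ^ (i / 2) * ((g.descFactorial (i / 2) / (i / 2).factorial : ℕ) : ℤ) else 0

/-- the checks for one entry -/
def okBig (f r : ℕ) (t : List ℤ × List ℤ × List ℤ) : Bool :=
  t.1.length == 18 && t.1.getD 0 0 == 1 &&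
  (List.range 18).all (fun i => (t.1.getD i 0 - czc r i) % 3 == 0) &&
  (List.range 18).all (fun i => !(Nat.blt f i) || t.1.getD i 0 % 2 == 0) &&
  (!(Nat.blt f 18) || t.1.getD f 0 % 2 == 1) &&
  !(t.1.getD 17 0 == 0) &&
  posChk t.2.1 [1] [] 0 0 &&
  posChk (scB t.1) t.2.1 t.2.2 14
    (2 ^ 14 * 256 * (12 * ((absb t.2.1).1 : ℤ) + 17 * ((absb t.2.1).2 : ℤ)))

theorem bigTab_ok : (List.range 17).all (fun k => (List.range 9).all (fun r =>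
    okBig (k + 2) r ((bigTab.getD k []).getD r ([], [], [])))) = true := by
  decide +kernel

end Pool.Agent.J6H14.WF2
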