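import Mathlib

/-!
# No square root of `-3` in the field generated by a root of `P` if `P(1) = 6` modulo 9
-/

set_option autoImplicit false

namespace Pool.Agent.J6H14.WF2

open Polynomial Module

theorem rat_sq_ne (b : ℚ) : b ^ 2 ≠ -3 := by
  intro h
  have := sq_nonneg b
  linarith

section quad

variable {F : Type*} [Field F] [Algebra ℚ F]

theorem indep {s : F} (hs : s ^ 2 = -3) : LinearIndependent ℚ ![(1 : F), s] := by
  rw [LinearIndependent.pair_iff]
  intro a b h
  rw [Algebra.smul_def, Algebra.smul_def, mul_one] at h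
  have hb : b = 0 := by
    by_contra hb
    have h1 : s = algebraMap ℚ F (-a / b) := by
      have hb' : algebraMap ℚ F b ≠ 0 := by
        rw [Ne, map_eq_zero]; exact hb
      rw [map_div₀, map_neg, eq_div_iff hb']
      linear_combination h
    rw [h1, ← map_pow] at hs
    have h2 : algebraMap ℚ F ((-a / b) ^ 2) = algebraMap ℚ F (-3) := by
      rw [hs]; simp
    exact rat_sq_ne _ ((algebraMap ℚ F).injective h2)
  rw [hb, map_zero, zero_mul, add_zero, map_eq_zero] at h
  exact ⟨h, hb⟩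

theorem quad {s : F} (hs : s ^ 2 = -3) (hfin : finrank ℚ F = 2) (b : F) :
    ∃ u v : ℚ, Algebra.norm ℚ b = u ^ 2 + 3 * v ^ 2 ∧ Algebra.trace ℚ F b = 2 * u := by
  have hcard : Fintype.card (Fin 2) = finrank ℚ F := by rw [hfin]; simp
  set B : Basis (Fin 2) ℚ F := basisOfLinearIndependentOfCardEqFinrank (indep hs) hcard with hB
  have hB0 : B 0 = 1 := by
    rw [hB, coe_basisOfLinearIndependentOfCardEqFinrank]; rfl
  have hB1 : B 1 = s := by
    rw [hB, coe_basisOfLinearIndependentOfCardEqFinrank]; rfl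
  have hb := B.sum_repr b
  rw [Fin.sum_univ_two] at hb
  set u := B.repr b 0 with hu
  set v := B.repr b 1 with hv
  have h0 : b * B 0 = u • B 0 + v • B 1 := by
    rw [hb, hB0, mul_one]
  have h1 : b * B 1 = (-3 * v) • B 0 + u • B 1 := by
    rw [← hb, hB0, hB1, Algebra.smul_def, Algebra.smul_def, Algebra.smul_def, Algebra.smul_def,
      map_mul, map_neg, map_ofNat]
    linear_combination algebraMap ℚ F v * hs
  refine ⟨u, v, ?_, ?_⟩
  · rw [Algebra.norm_eq_matrix_det B, Matrix.det_fin_two]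
    simp only [Algebra.leftMulMatrix_eq_repr_mul, h0, h1, map_add, map_smul, B.repr_self]
    simp
    ring
  · rw [Algebra.trace_eq_matrix_trace B, Matrix.trace_fin_two]
    simp only [Algebra.leftMulMatrix_eq_repr_mul, h0, h1, map_add, map_smul, B.repr_self]
    simp
    ring

end quad

theorem arith {n m : ℤ} {Y : ℤ} (hn : n % 9 = 6) (h : Y ^ 2 = 12 * n - 3 * m ^ 2) : False := by
  obtain ⟨j, hj⟩ : ∃ j, n = 9 * j + 6 := ⟨n / 9, by omega⟩
  have h3 : Prime (3 : ℤ) := Int.prime_three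
  have hY : (3 : ℤ) ∣ Y := by
    apply h3.dvd_of_dvd_pow (n := 2)
    rw [h]
    exact ⟨4 * n - m ^ 2, by ring⟩
  obtain ⟨Y', rfl⟩ := hY
  have hm : (3 : ℤ) ∣ m := by
    apply h3.dvd_of_dvd_pow (n := 2)
    exact ⟨12 * j + 8 - Y' ^ 2, by rw [hj] at h; linarith⟩
  obtain ⟨m', rfl⟩ := hm
  have h4 : Y' ^ 2 = 12 * j + 8 - 3 * m' ^ 2 := by
    rw [hj] at h; linarith
  have h5 : Y' ^ 2 % 3 = 2 := by
    rw [h4]
    omega
  have h6 : Y' % 3 = 0 ∨ Y' % 3 = 1 ∨ Y' % 3 = 2 := by omega
  rcases h6 with h7 | h7 | h7 <;> rw [pow_two, Int.mul_emod, h7] at h5 <;> norm_num at h5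

theorem no_omega {P : ℤ[X]} (hPm : P.Monic) (hirr : Irreducible (P.map (Int.castRingHom ℚ)))
    {x : ℂ} (hx : aeval x P = 0) (h1 : P.eval 1 % 9 = 6) :
    ∀ s ∈ IntermediateField.adjoin ℚ {x}, s ^ 2 ≠ -3 := by
  intro s hs hs2
  have hxZ : IsIntegral ℤ x := ⟨P, hPm, hx⟩
  have hxi : IsIntegral ℚ x := hxZ.tower_top
  have hmin : minpoly ℚ x = P.map (Int.castRingHom ℚ) := by
    symm
    refine minpoly.eq_of_irreducible_of_monic hirr ?_ (hPm.map _)
    have : aeval x (P.map (algebraMap ℤ ℚ)) = 0 := by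
      rw [aeval_map_algebraMap]; exact hx
    exact this
  let K := IntermediateField.adjoin ℚ {x}
  have : FiniteDimensional ℚ K := IntermediateField.adjoin.finiteDimensional hxi
  let x' : K := IntermediateField.AdjoinSimple.gen ℚ x
  have hx' : (algebraMap K ℂ) x' = x := IntermediateField.AdjoinSimple.algebraMap_gen ℚ x
  let s' : K := ⟨s, hs⟩
  have hs' : s' ^ 2 = -3 := by
    apply (algebraMap K ℂ).injective
    rw [map_pow, map_neg, map_ofNat]
    exact hs2
  have hminx' : minpoly ℚ x' = P.map (Int.castRingHom ℚ) := by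
    rw [← hmin, ← hx']
    exact (minpoly.algebraMap_eq (algebraMap K ℂ).injective x').symm
  -- the norm of `1 - x`
  have hnorm : Algebra.norm ℚ (1 - x') = ((P.eval 1 : ℤ) : ℚ) := by
    let pb := IntermediateField.adjoin.powerBasis hxi
    have hgen : pb.gen = x' := IntermediateField.adjoin.powerBasis_gen hxi
    have hcp : (Algebra.lmul ℚ K x').charpoly = P.map (Int.castRingHom ℚ) := by
      have e0 := charpoly_leftMulMatrix pb
      have e00 : Algebra.leftMulMatrix pb.basis pb.gen =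
        LinearMap.toMatrix pb.basis pb.basis (Algebra.lmul ℚ K x') := by rw [hgen]; rfl
      rw [e00, LinearMap.charpoly_toMatrix, hgen] at e0
      exact e0.trans hminx'
    rw [Algebra.norm_apply]
    have e1 : Algebra.lmul ℚ K (1 - x') = algebraMap ℚ (Module.End ℚ K) 1 - Algebra.lmul ℚ K x' := by
      rw [map_sub, map_one, map_one]
    rw [e1, ← LinearMap.eval_charpoly, hcp]
    have e2 : (P.map (Int.castRingHom ℚ)).eval ((Int.castRingHom ℚ) 1) =
        (Int.castRingHom ℚ) (P.eval 1) := eval_map_apply _ _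
    rw [map_one] at e2
    rw [e2]
    rfl
  have hx'Z : IsIntegral ℤ x' := by
    have : IsIntegral ℤ ((algebraMap K ℂ) x') := by rw [hx']; exact hxZ
    exact (isIntegral_algebraMap_iff (algebraMap K ℂ).injective).1 this
  let F := IntermediateField.adjoin ℚ {s'}
  have hsi : IsIntegral ℚ s' := ⟨X ^ 2 + C 3, by
    exact monic_X_pow_add_C 3 (by norm_num), by simp [hs']⟩
  have hFfin : finrank ℚ F = 2 := by
    rw [IntermediateField.adjoin.finrank hsi]
    have : minpoly ℚ s' = X ^ 2 - C (-3) := by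
      symm
      refine minpoly.eq_of_irreducible_of_monic ?_ (by simp [hs']) (monic_X_pow_sub_C _ (by norm_num))
      exact X_pow_sub_C_irreducible_of_prime Nat.prime_two rat_sq_ne
    rw [this, natDegree_X_pow_sub_C]
  let s'' : F := IntermediateField.AdjoinSimple.gen ℚ s'
  have hs'' : s'' ^ 2 = -3 := by
    apply (algebraMap F K).injective
    rw [map_pow, map_neg, map_ofNat]
    have : (algebraMap F K) s'' = s' := IntermediateField.AdjoinSimple.algebraMap_gen ℚ s'
    rw [this]
    exact hs'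
  set b : F := Algebra.norm F (1 - x') with hb
  have hbZ : IsIntegral ℤ b := Algebra.isIntegral_norm F (isIntegral_one.sub hx'Z)
  obtain ⟨u, v, h2, h3⟩ := quad hs'' hFfin b
  rw [hb, Algebra.norm_norm, hnorm] at h2
  have htr : IsIntegral ℤ (Algebra.trace ℚ F b) := Algebra.isIntegral_trace hbZ
  obtain ⟨m, hm⟩ := IsIntegrallyClosed.isIntegral_iff.1 htr
  rw [h3] at hm
  have hm' : (m : ℚ) = 2 * u := hm
  -- `6 v` is an integer
  have h6 : IsIntegral ℤ (6 * v) := by
    have : (6 * v) ^ 2 = ((12 * P.eval 1 - 3 * m ^ 2 : ℤ) : ℚ) := by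
      push_cast
      rw [h2, hm']
      ring
    refine IsIntegral.of_pow (n := 2) (by norm_num) ?_
    rw [this]
    exact isIntegral_algebraMap (R := ℤ) (x := 12 * P.eval 1 - 3 * m ^ 2)
  obtain ⟨Y, hY⟩ := IsIntegrallyClosed.isIntegral_iff.1 h6
  have hY' : (Y : ℚ) = 6 * v := hY
  refine arith (m := m) (Y := Y) h1 ?_
  have : ((Y ^ 2 : ℤ) : ℚ) = ((12 * P.eval 1 - 3 * m ^ 2 : ℤ) : ℚ) := by
    push_cast
    rw [h2, hm', hY']
    ring
  exact_mod_cast this

end Pool.Agent.J6H14.WF2
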