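import Pool.Agent.R80.WF.Coef

/-!
# Location of the roots of `PP p g a` from a zero-free polynomial (maximum modulus principle)
-/

set_option autoImplicit false

namespace Pool.Agent.J6H14.WF2

open Polynomial Complex Pool.Agent.R80.WF

/-- half of the Weil polynomial, as a function -/
noncomputable def AA (g : ℕ) (a : ℕ → ℤ) (w : ℂ) : ℂ :=
  ∑ i ∈ Finset.range g, (a i : ℂ) * w ^ i + (a g : ℂ) / 2 * w ^ g

/-- the other half divided by `w` -/
noncomputable def NN (p g : ℕ) (a : ℕ → ℤ) (w : ℂ) : ℂ :=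
  ∑ i ∈ Finset.range g, (a i : ℂ) * (p : ℂ) ^ (g - i) * w ^ (2 * g - i - 1)
    + (a g : ℂ) / 2 * w ^ (g - 1)

theorem differentiable_AA (g : ℕ) (a : ℕ → ℤ) : Differentiable ℂ (AA g a) := by
  unfold AA
  fun_prop

theorem differentiable_NN (p g : ℕ) (a : ℕ → ℤ) : Differentiable ℂ (NN p g a) := by
  unfold NN
  fun_prop

theorem rel_PP {p g : ℕ} (hg : 1 ≤ g) (a : ℕ → ℤ) {x y : ℂ} (hxy : x * y = 1) :
    aeval x (PP p g a) * y ^ (2 * g) = AA g a y + y * NN p g a y := by
  have e1 : aeval x (PP p g a) = ∑ i ∈ Finset.range g, (a i : ℂ) *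
      (x ^ (2 * g - i) + (p : ℂ) ^ (g - i) * x ^ i) + (a g : ℂ) * x ^ g := by
    simp [PP, map_sum]
  have hk : ∀ j k : ℕ, j ≤ k → x ^ j * y ^ k = y ^ (k - j) := by
    intro j k hjk
    obtain ⟨m, rfl⟩ := Nat.exists_eq_add_of_le hjk
    rw [Nat.add_sub_cancel_left, pow_add, ← mul_assoc, ← mul_pow, hxy, one_pow, one_mul]
  rw [e1, AA, NN, add_mul, Finset.sum_mul, mul_add, Finset.mul_sum]
  have h1 : ∀ i ∈ Finset.range g, (a i : ℂ) *
      (x ^ (2 * g - i) + (p : ℂ) ^ (g - i) * x ^ i) * y ^ (2 * g) =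
      (a i : ℂ) * y ^ i + y * ((a i : ℂ) * (p : ℂ) ^ (g - i) * y ^ (2 * g - i - 1)) := by
    intro i hi
    have hi' := Finset.mem_range.1 hi
    have h2 := hk (2 * g - i) (2 * g) (by omega)
    have h3 := hk i (2 * g) (by omega)
    have e2 : 2 * g - (2 * g - i) = i := by omega
    rw [e2] at h2
    have e3 : y ^ (2 * g - i) = y * y ^ (2 * g - i - 1) := by
      rw [← pow_succ']
      congr 1
      omega
    rw [e3] at h3
    linear_combination (a i : ℂ) * h2 + (a i : ℂ) * (p : ℂ) ^ (g - i) * h3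
  rw [Finset.sum_congr rfl h1, Finset.sum_add_distrib]
  have h4 := hk g (2 * g) (by omega)
  have e4 : 2 * g - g = g := by omega
  rw [e4] at h4
  have e5 : y * y ^ (g - 1) = y ^ g := by
    rw [← pow_succ']
    congr 1
    omega
  linear_combination (a g : ℂ) * h4 - (a g : ℂ) / 2 * e5

/-- the two halves have the same absolute value on the circle -/
theorem norm_NN {p g : ℕ} (hp : 1 ≤ p) (hg : 1 ≤ g) (a : ℕ → ℤ) {w : ℂ}
    (hw : ‖w‖ = (Real.sqrt p)⁻¹) : ‖NN p g a w‖ = Real.sqrt p * ‖AA g a w‖ := by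
  have hp' : (0 : ℝ) < p := by exact_mod_cast hp
  have hq0 : 0 < Real.sqrt p := Real.sqrt_pos.mpr hp'
  have hqq : Real.sqrt p ^ 2 = p := Real.sq_sqrt hp'.le
  have hpw : (p : ℂ) * (w * (starRingEnd ℂ) w) = 1 := by
    rw [mul_conj, normSq_eq_norm_sq, hw]
    have : (p : ℝ) * (Real.sqrt p)⁻¹ ^ 2 = 1 := by
      rw [inv_pow, hqq]
      field_simp
    exact_mod_cast this
  set v := (starRingEnd ℂ) w with hv
  have hw0 : w ≠ 0 := by
    rintro h0
    rw [h0] at hpw
    simp at hpw
  -- `w N(w) = p^g w^(2g) conj (A w)`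
  have key : w * NN p g a w = (p : ℂ) ^ g * w ^ (2 * g) * (starRingEnd ℂ) (AA g a w) := by
    have e1 : (starRingEnd ℂ) (AA g a w) =
        ∑ i ∈ Finset.range g, (a i : ℂ) * v ^ i + (a g : ℂ) / 2 * v ^ g := by
      have h2 : (starRingEnd ℂ) 2 = 2 := by
        rw [show (2 : ℂ) = ((2 : ℝ) : ℂ) by norm_num, conj_ofReal]
      rw [AA, map_add, map_sum, map_mul, map_div₀, h2, map_pow, map_intCast, ← hv]
      congr 1
      refine Finset.sum_congr rfl fun i _ => ?_
      rw [map_mul, map_pow, map_intCast, ← hv]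
    have hk : ∀ i : ℕ, i ≤ g → (p : ℂ) ^ g * w ^ (2 * g) * v ^ i =
        (p : ℂ) ^ (g - i) * w ^ (2 * g - i) := by
      intro i hi
      have e2 : (p : ℂ) ^ g = (p : ℂ) ^ (g - i) * (p : ℂ) ^ i := by
        rw [← pow_add]; congr 1; omega
      have e3 : w ^ (2 * g) = w ^ (2 * g - i) * w ^ i := by
        rw [← pow_add]; congr 1; omega
      have e4 : (p : ℂ) ^ i * w ^ i * v ^ i = 1 := by
        rw [← mul_pow, ← mul_pow, mul_assoc, hpw, one_pow]
      rw [e2, e3]
      linear_combination (p : ℂ) ^ (g - i) * w ^ (2 * g - i) * e4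
    rw [e1, NN, mul_add, mul_add, Finset.mul_sum, Finset.mul_sum]
    congr 1
    · refine Finset.sum_congr rfl fun i hi => ?_
      have hi' := Finset.mem_range.1 hi
      have h2 := hk i (by omega)
      have e5 : w ^ (2 * g - i) = w * w ^ (2 * g - i - 1) := by
        rw [← pow_succ']; congr 1; omega
      rw [e5] at h2
      linear_combination -(a i : ℂ) * h2
    · have h2 := hk g le_rfl
      have e5 : w ^ (2 * g - g) = w * w ^ (g - 1) := by
        rw [← pow_succ']; congr 1; omega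
      rw [e5, Nat.sub_self, pow_zero, one_mul] at h2
      linear_combination -(a g : ℂ) / 2 * h2
  have h1 := congrArg norm key
  rw [norm_mul, norm_mul, norm_mul, norm_pow, norm_pow, RCLike.norm_conj, hw, Complex.norm_natCast] at h1
  have h2 : (p : ℝ) ^ g * (Real.sqrt p)⁻¹ ^ (2 * g) = 1 := by
    rw [pow_mul, ← mul_pow, inv_pow, hqq, mul_inv_cancel₀ hp'.ne', one_pow]
  rw [h2, one_mul] at h1
  rw [← h1]
  field_simp

/-- the roots are on the circle if one half has no zero in the closed disc -/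
theorem root_zf {p g : ℕ} (hp : 1 ≤ p) (hg : 1 ≤ g) (a : ℕ → ℤ)
    (hz : ∀ w : ℂ, ‖w‖ ≤ (Real.sqrt p)⁻¹ → AA g a w ≠ 0) {x : ℂ}
    (hx : aeval x (PP p g a) = 0) : ‖x‖ = Real.sqrt p := by
  have hp' : (0 : ℝ) < p := by exact_mod_cast hp
  have hq0 : 0 < Real.sqrt p := Real.sqrt_pos.mpr hp'
  have hqq : Real.sqrt p ^ 2 = p := Real.sq_sqrt hp'.le
  set ρ : ℝ := (Real.sqrt p)⁻¹ with hρ
  have hρ0 : 0 < ρ := inv_pos.2 hq0
  have hbound : ∀ y : ℂ, ‖y‖ < ρ → ‖NN p g a y‖ ≤ Real.sqrt p * ‖AA g a y‖ := by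
    intro y hy
    have hd : DiffContOnCl ℂ (fun w => NN p g a w / AA g a w) (Metric.ball (0 : ℂ) ρ) := by
      have hcl : closure (Metric.ball (0 : ℂ) ρ) = Metric.closedBall 0 ρ :=
        closure_ball _ hρ0.ne'
      refine ⟨?_, ?_⟩
      · refine ((differentiable_NN p g a).differentiableOn).div
          ((differentiable_AA g a).differentiableOn) fun w hw => ?_
        exact hz w (by rw [mem_ball_zero_iff] at hw; exact hw.le)
      · rw [hcl]
        refine ((differentiable_NN p g a).continuous.continuousOn).div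
          ((differentiable_AA g a).continuous.continuousOn) fun w hw => ?_
        exact hz w (by rwa [mem_closedBall_zero_iff] at hw)
    have h1 := norm_le_of_forall_mem_frontier_norm_le Metric.isBounded_ball hd
      (C := Real.sqrt p) (z := y) (by
        intro w hw
        rw [frontier_ball _ hρ0.ne', mem_sphere_zero_iff_norm] at hw
        rw [norm_div, norm_NN hp hg a hw, mul_div_assoc, div_self, mul_one]
        rw [norm_ne_zero_iff]
        exact hz w hw.le)
      (subset_closure (by rw [mem_ball_zero_iff]; exact hy))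
    rw [norm_div, div_le_iff₀] at h1
    · exact h1
    · rw [norm_pos_iff]
      exact hz y hy.le
  have hout : ∀ z : ℂ, aeval z (PP p g a) = 0 → ‖z‖ ≤ Real.sqrt p := by
    intro z hz0
    by_contra hcon
    push Not at hcon
    have hzne : z ≠ 0 := by
      rintro rfl
      rw [norm_zero] at hcon
      linarith
    have hylt : ‖z⁻¹‖ < ρ := by
      rw [norm_inv, hρ]
      exact inv_strictAnti₀ hq0 hcon
    have h1 := rel_PP (p := p) hg a (mul_inv_cancel₀ hzne)
    rw [hz0, zero_mul] at h1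
    have h2 : ‖AA g a z⁻¹‖ = ‖z⁻¹‖ * ‖NN p g a z⁻¹‖ := by
      rw [← norm_mul, ← norm_neg (z⁻¹ * _)]
      congr 1
      linear_combination -h1
    have h3 := hbound _ hylt
    have h4 : 0 < ‖AA g a z⁻¹‖ := norm_pos_iff.2 (hz _ hylt.le)
    have h5 : ‖z⁻¹‖ * ‖NN p g a z⁻¹‖ ≤ ‖z⁻¹‖ * (Real.sqrt p * ‖AA g a z⁻¹‖) :=
      mul_le_mul_of_nonneg_left h3 (norm_nonneg _)
    have h6 : ‖z⁻¹‖ * Real.sqrt p < 1 := by
      have : ρ * Real.sqrt p = 1 := inv_mul_cancel₀ hq0.ne'
      rw [← this]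
      exact mul_lt_mul_of_pos_right hylt hq0
    have h7 : ‖z⁻¹‖ * (Real.sqrt p * ‖AA g a z⁻¹‖) < ‖AA g a z⁻¹‖ := by
      rw [← mul_assoc]
      exact mul_lt_of_lt_one_left h4 h6
    linarith
  refine le_antisymm (hout x hx) ?_
  -- functional equation
  have ha0 : a 0 ≠ 0 := by
    intro h0
    apply hz 0 (by rw [norm_zero]; exact hρ0.le)
    rw [AA, zero_pow (by omega), mul_zero, add_zero]
    refine Finset.sum_eq_zero fun i _ => ?_
    rcases Nat.eq_zero_or_pos i with h | h
    · rw [h, h0]; simp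
    · rw [zero_pow (by omega), mul_zero]
  have hx0 : x ≠ 0 := by
    rintro rfl
    have hx' : (((PP p g a).coeff 0 : ℤ) : ℂ) = 0 := by
      have h1 := aeval_algebraMap_apply ℂ (0 : ℤ) (PP p g a)
      rw [map_zero, hx] at h1
      rw [coeff_zero_eq_eval_zero, ← coe_aeval_eq_eval]
      exact h1.symm
    rw [coeff_PP, if_pos (by omega)] at hx'
    have : ((p : ℤ) ^ (g - 0) * a 0 : ℤ) = 0 := by exact_mod_cast hx'
    rcases mul_eq_zero.1 this with h | h
    · have := pow_eq_zero_iff (by omega) |>.1 h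
      omega
    · exact ha0 h
  have hdual : aeval ((p : ℂ) / x) (PP p g a) = 0 := by
    have hpc : (p : ℂ) ≠ 0 := by
      have : p ≠ 0 := by omega
      exact_mod_cast this
    have e1 : ∀ z : ℂ, aeval z (PP p g a) = ∑ i ∈ Finset.range g, (a i : ℂ) *
        (z ^ (2 * g - i) + (p : ℂ) ^ (g - i) * z ^ i) + (a g : ℂ) * z ^ g := by
      intro z
      simp [PP, map_sum]
    have h1 : x ^ (2 * g) * aeval ((p : ℂ) / x) (PP p g a) =
        (p : ℂ) ^ g * aeval x (PP p g a) := by
      rw [e1, e1, mul_add, mul_add, Finset.mul_sum, Finset.mul_sum]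
      have hk : ∀ i : ℕ, i ≤ 2 * g → x ^ (2 * g) * ((p : ℂ) / x) ^ i =
          (p : ℂ) ^ i * x ^ (2 * g - i) := by
        intro i hi
        have e2 : x ^ (2 * g) = x ^ (2 * g - i) * x ^ i := by
          rw [← pow_add]; congr 1; omega
        rw [e2, div_pow]
        field_simp
      congr 1
      · refine Finset.sum_congr rfl fun i hi => ?_
        have hi' := Finset.mem_range.1 hi
        have h2 := hk i (by omega)
        have h3 := hk (2 * g - i) (by omega)
        have e3 : 2 * g - (2 * g - i) = i := by omega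
        rw [e3] at h3
        have e4 : (p : ℂ) ^ (2 * g - i) = (p : ℂ) ^ g * (p : ℂ) ^ (g - i) := by
          rw [← pow_add]; congr 1; omega
        have e5 : (p : ℂ) ^ g = (p : ℂ) ^ (g - i) * (p : ℂ) ^ i := by
          rw [← pow_add]; congr 1; omega
        rw [e4] at h3
        linear_combination (a i : ℂ) * h3 + (a i : ℂ) * (p : ℂ) ^ (g - i) * h2
          - (a i : ℂ) * x ^ (2 * g - i) * e5
      · have h2 := hk g (by omega)
        have e3 : 2 * g - g = g := by omega
        rw [e3] at h2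
        linear_combination (a g : ℂ) * h2
    rw [hx, mul_zero] at h1
    rcases mul_eq_zero.1 h1 with h | h
    · exact absurd h (pow_ne_zero _ hx0)
    · exact h
  have h1 := hout _ hdual
  rw [norm_div, Complex.norm_natCast, div_le_iff₀ (norm_pos_iff.2 hx0)] at h1
  nlinarith [norm_nonneg x]

/-- a zero-free function from a zero-free comparison function -/
theorem zf_step {A B : ℂ → ℂ} (hA : Differentiable ℂ A) (hB : Differentiable ℂ B) {ρ : ℝ}
    (hρ : 0 < ρ) (hB0 : ∀ w, ‖w‖ ≤ ρ → B w ≠ 0)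
    (hpos : ∀ w, ‖w‖ = ρ → 0 < (A w * (starRingEnd ℂ) (B w)).re) :
    ∀ w, ‖w‖ ≤ ρ → A w ≠ 0 := by
  have hFre : ∀ w, ‖w‖ = ρ → 0 < (A w / B w).re := by
    intro w hw
    have h1 := hpos w hw
    have hBw := hB0 w hw.le
    have h2 : A w / B w = (A w * (starRingEnd ℂ) (B w)) * ((normSq (B w))⁻¹ : ℝ) := by
      rw [div_eq_mul_inv, Complex.inv_def]
      ring
    rw [h2, mul_comm, re_ofReal_mul]
    exact mul_pos (inv_pos.2 (normSq_pos.2 hBw)) h1
  have hcl : closure (Metric.ball (0 : ℂ) ρ) = Metric.closedBall 0 ρ := closure_ball _ hρ.ne'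
  have hcont : ContinuousOn (fun w => A w / B w) (Metric.closedBall (0 : ℂ) ρ) := by
    refine hA.continuous.continuousOn.div hB.continuous.continuousOn fun w hw => ?_
    exact hB0 w (by rwa [mem_closedBall_zero_iff] at hw)
  obtain ⟨w₀, hw₀, hmin⟩ := (isCompact_sphere (0 : ℂ) ρ).exists_isMinOn
    (f := fun w => (A w / B w).re) ⟨(ρ : ℂ), by simp [abs_of_pos hρ]⟩
    (continuous_re.comp_continuousOn (hcont.mono Metric.sphere_subset_closedBall))
  rw [mem_sphere_zero_iff_norm] at hw₀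
  have hδ := hFre w₀ hw₀
  set δ := (A w₀ / B w₀).re with hδdef
  intro w hw hAw
  have hd : DiffContOnCl ℂ (fun w => exp (-(A w / B w))) (Metric.ball (0 : ℂ) ρ) := by
    refine ⟨?_, ?_⟩
    · refine DifferentiableOn.cexp ?_
      refine DifferentiableOn.neg ?_
      refine hA.differentiableOn.div hB.differentiableOn fun w hw => ?_
      exact hB0 w (by rw [mem_ball_zero_iff] at hw; exact hw.le)
    · rw [hcl]
      exact hcont.neg.cexp
  have h1 := norm_le_of_forall_mem_frontier_norm_le Metric.isBounded_ball hd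
    (C := Real.exp (-δ)) (z := w) (by
      intro z hz
      rw [frontier_ball _ hρ.ne'] at hz
      rw [norm_exp, neg_re]
      apply Real.exp_le_exp.2
      have := hmin hz
      rw [Set.mem_ofPred_eq] at this
      linarith)
    (by rw [hcl, mem_closedBall_zero_iff]; exact hw)
  rw [hAw, zero_div, neg_zero, exp_zero, norm_one] at h1
  have h2 : Real.exp (-δ) < 1 := Real.exp_lt_one_iff.2 (by linarith)
  linarith

end Pool.Agent.J6H14.WF2
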