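import Pool.Agent.J6H14.WF2.Nd2
import Pool.Agent.J6H14.WF2.Omega
import Pool.Agent.J6H14.WF2.Root2
import Pool.Agent.R80.WF.Asm

/-!
# A 3-adic criterion for `p = 2`
-/

set_option autoImplicit false

namespace Pool.Agent.J6H14.WF2

open Polynomial Pool.Agent.R80.WF

/-- a polynomial over `ℤ` vanishing mod 3 is divisible by 3 -/
theorem three_dvd (F : ℤ[X]) (h : F.map (Int.castRingHom (ZMod 3)) = 0) :
    ∃ R : ℤ[X], F = C 3 * R := by
  have : C 3 ∣ F := by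
    rw [C_dvd_iff_dvd_coeff]
    intro i
    have h1 := congrArg (fun G => coeff G i) h
    simp only [coeff_map, coeff_zero, eq_intCast] at h1
    exact_mod_cast (ZMod.intCast_zmod_eq_zero_iff_dvd (F.coeff i) 3).1 h1
  exact this

instance : Fact (Nat.Prime 3) := ⟨Nat.prime_three⟩

theorem modthree (P : ℤ[X]) (N t : ℕ) (hN : N ≤ 3 ^ t)
    (hP : P.map (Int.castRingHom (ZMod 3)) = (X ^ 2 - 1) ^ N) :
    ∃ R : ℤ[X], X ^ (2 * 3 ^ t) - 1 = P * (X ^ 2 - 1) ^ (3 ^ t - N) + C 3 * R := by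
  obtain ⟨R, hR⟩ := three_dvd (X ^ (2 * 3 ^ t) - 1 - P * (X ^ 2 - 1) ^ (3 ^ t - N)) (by
    rw [Polynomial.map_sub, Polynomial.map_mul, hP, Polynomial.map_sub, Polynomial.map_pow,
      Polynomial.map_pow, Polynomial.map_sub, Polynomial.map_pow, Polynomial.map_X,
      Polynomial.map_one, ← pow_add, Nat.add_sub_cancel' hN, sub_pow_char_pow, one_pow,
      ← pow_mul, sub_self])
  exact ⟨R, by rw [← hR]; ring⟩

/-- a root of unity congruent to one mod three is one -/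
theorem unit3 (ξ w : ℂ) (k : ℕ) (hk : 1 ≤ k) (hξ : ξ ^ k = 1) (hw : IsIntegral ℤ w)
    (h : ξ - 1 = 3 * w) : ξ = 1 := by
  have hfin : IsOfFinOrder ξ := isOfFinOrder_iff_pow_eq_one.2 ⟨k, hk, hξ⟩
  have hr0 : 0 < orderOf ξ := hfin.orderOf_pos
  obtain ⟨r, hr⟩ : ∃ r, orderOf ξ = r + 1 := ⟨orderOf ξ - 1, by omega⟩
  have hprim : IsPrimitiveRoot ξ (r + 1) := hr ▸ IsPrimitiveRoot.orderOf ξ
  have hprod := hprim.prod_one_sub_pow_eq_order
  have hξi : IsIntegral ℤ ξ := by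
    have : ξ = 1 + 3 * w := by linear_combination h
    rw [this]
    exact isIntegral_one.add ((isIntegral_algebraMap (R := ℤ) (x := 3)).mul hw)
  have hk' : ∀ j : ℕ, ∃ v : ℂ, IsIntegral ℤ v ∧ 1 - ξ ^ (j + 1) = 3 * v := by
    intro j
    refine ⟨-w * ∑ i ∈ Finset.range (j + 1), ξ ^ i, ?_, ?_⟩
    · exact hw.neg.mul (IsIntegral.sum _ fun i _ => hξi.pow i)
    · have h1 := geom_sum_mul ξ (j + 1)
      linear_combination h1 - (∑ i ∈ Finset.range (j + 1), ξ ^ i) * h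
  choose v hv1 hv2 using hk'
  have hprod2 : (3 : ℂ) ^ r * ∏ j ∈ Finset.range r, v j = r + 1 := by
    rw [← hprod]
    simp only [hv2]
    rw [Finset.prod_mul_distrib, Finset.prod_const, Finset.card_range]
  have hint : IsIntegral ℤ (∏ j ∈ Finset.range r, v j) := IsIntegral.prod _ fun j _ => hv1 j
  have hval : ∏ j ∈ Finset.range r, v j = algebraMap ℚ ℂ (((r : ℚ) + 1) / 3 ^ r) := by
    have h2 : (3 : ℂ) ^ r ≠ 0 := pow_ne_zero _ three_ne_zero
    rw [eq_ratCast]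
    push_cast
    rw [eq_div_iff h2, ← hprod2]
    ring
  rw [hval] at hint
  have hint2 : IsIntegral ℤ (((r : ℚ) + 1) / 3 ^ r) :=
    (isIntegral_algebraMap_iff (algebraMap ℚ ℂ).injective).1 hint
  obtain ⟨z, hz⟩ := IsIntegrallyClosed.isIntegral_iff.1 hint2
  have hz' : (r : ℚ) + 1 = z * 3 ^ r := by
    have : (z : ℚ) = ((r : ℚ) + 1) / 3 ^ r := hz
    rw [this]; field_simp
  have hz'' : (r : ℤ) + 1 = z * 3 ^ r := by exact_mod_cast hz'
  have h3 : (0 : ℤ) < 3 ^ r := by positivity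
  have hzpos : 1 ≤ z := by
    by_contra hcon
    push Not at hcon
    have : z ≤ 0 := by omega
    nlinarith
  have hle : (3 : ℤ) ^ r ≤ r + 1 := by
    rw [hz'']
    nlinarith
  have hr1 : r = 0 := by
    by_contra hcon
    have h4 : ∀ m : ℕ, (m : ℤ) + 1 + 1 < 3 ^ (m + 1) := by
      intro m
      induction m with
      | zero => norm_num
      | succ m ih =>
        rw [pow_succ]
        push_cast
        linarith
    have h5 := h4 (r - 1)
    have h6 : r - 1 + 1 = r := by omega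
    rw [h6] at h5
    have h7 : ((r - 1 : ℕ) : ℤ) = (r : ℤ) - 1 := by omega
    rw [h7] at h5
    linarith
  rw [hr1, zero_add] at hr
  exact orderOf_eq_one_iff.1 hr

theorem conj_pow3 (P : ℤ[X]) (N t : ℕ) (hPm : P.Monic) (hN : N ≤ 3 ^ t)
    (hP : P.map (Int.castRingHom (ZMod 3)) = (X ^ 2 - 1) ^ N) (x y : ℂ) (hx : aeval x P = 0)
    (hy : aeval y P = 0) (hx0 : x ≠ 0) (n : ℕ) (hn : 1 ≤ n) (hxy : y ^ n = x ^ n) :
    y ^ (2 * 3 ^ t) = x ^ (2 * 3 ^ t) := by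
  obtain ⟨R, hR⟩ := modthree P N t hN hP
  have hxi : IsIntegral ℤ x := ⟨P, hPm, hx⟩
  have hyi : IsIntegral ℤ y := ⟨P, hPm, hy⟩
  have key : ∀ z : ℂ, aeval z P = 0 → z ^ (2 * 3 ^ t) - 1 = 3 * aeval z R := by
    intro z hz
    have h1 := congrArg (aeval z) hR
    simp only [map_add, map_sub, map_mul, map_pow, aeval_X, map_one, hz, zero_mul, zero_add,
      aeval_C] at h1
    rw [h1]
    norm_num
  have hint : ∀ z : ℂ, IsIntegral ℤ z → IsIntegral ℤ (aeval z R) := by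
    intro z hz
    rw [aeval_eq_sum_range]
    exact IsIntegral.sum _ fun i _ => (hz.pow i).smul _
  set ξ : ℂ := (y / x) ^ (2 * 3 ^ t) with hξ
  have hx' : x ^ (2 * 3 ^ t) ≠ 0 := pow_ne_zero _ hx0
  have h1 : ξ * x ^ (2 * 3 ^ t) = y ^ (2 * 3 ^ t) := by
    rw [hξ, div_pow, div_mul_cancel₀ _ hx']
  have h2 : ξ ^ n = 1 := by
    rw [hξ, ← pow_mul, mul_comm, pow_mul, div_pow, hxy, div_self (pow_ne_zero _ hx0), one_pow]
  have hξi : IsIntegral ℤ ξ := by
    refine ⟨X ^ n - 1, monic_X_pow_sub_C 1 (by omega), ?_⟩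
    simp [h2]
  have h3 := unit3 ξ (aeval y R - ξ * aeval x R) n hn h2
    ((hint y hyi).sub (hξi.mul (hint x hxi))) (by
      linear_combination h1 + key y hy - ξ * key x hx)
  rw [← h1, h3, one_mul]

/-- a 3-power root of unity in a field without a square root of `-3` -/
theorem three_pow_root {K : IntermediateField ℚ ℂ} (hK : ∀ s ∈ K, s ^ 2 ≠ -3) (t : ℕ) {v : ℂ}
    (hv : v ∈ K) (h : v ^ 3 ^ t = 1) : v = 1 := by
  induction t with
  | zero => simpa using h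
  | succ t ih =>
    apply ih
    set z := v ^ 3 ^ t with hz
    have hz3 : z ^ 3 = 1 := by
      rw [hz, ← pow_mul, ← pow_succ]; exact h
    have h1 : (z - 1) * (z ^ 2 + z + 1) = 0 := by linear_combination hz3
    rcases mul_eq_zero.1 h1 with h2 | h2
    · exact sub_eq_zero.1 h2
    · exfalso
      have hzK : z ∈ K := pow_mem hv _
      refine hK (z + z + 1) (add_mem (add_mem hzK hzK) (one_mem _)) ?_
      linear_combination 4 * h2

theorem ndA {P : ℤ[X]} {g : ℕ} (hPm : P.Monic)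
    (hP : P.map (Int.castRingHom (ZMod 3)) = (X ^ 2 - 1) ^ g)
    (hirr : Irreducible (P.map (Int.castRingHom ℚ))) {x : ℂ} (hx : aeval x P = 0) (hx0 : x ≠ 0)
    (hω : ∀ s ∈ IntermediateField.adjoin ℚ {x}, s ^ 2 ≠ -3)
    (h2 : ∃ k, P.coeff k ≠ 0 ∧ P.natDegree % 2 ≠ k % 2)
    (h3 : ∃ k, P.coeff k ≠ 0 ∧ P.natDegree % 3 ≠ k % 3) {n : ℕ} (hn : 1 ≤ n) :
    IntermediateField.adjoin ℚ {x ^ n} = IntermediateField.adjoin ℚ {x} := by
  obtain ⟨t, ht⟩ : ∃ t : ℕ, g ≤ 3 ^ t := ⟨g, (Nat.lt_pow_self (by norm_num)).le⟩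
  have hζ : ∀ ζ : ℂ, ∀ m : ℕ, 1 ≤ m → aeval (ζ * x) P = 0 → ζ ^ m = 1 → ζ ^ (2 * 3 ^ t) = 1 := by
    intro ζ m hm h1 h4
    have h5 := conj_pow3 P g t hPm ht hP x (ζ * x) hx h1 hx0 m hm (by rw [mul_pow, h4, one_mul])
    rw [mul_pow] at h5
    exact mul_right_cancel₀ (pow_ne_zero _ hx0) (h5.trans (one_mul _).symm)
  refine nd_gen hPm hx hx0 ?_ ?_
  · intro s hs hsK
    have h1 : s.prod ^ (2 * 3 ^ t) = 1 := by
      refine Multiset.prod_induction (fun z => z ^ (2 * 3 ^ t) = 1) s ?_ (one_pow _) ?_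
      · intro a b ha hb
        rw [mul_pow, ha, hb, one_mul]
      · intro a ha
        exact hζ a n hn (hs a ha).1 (hs a ha).2
    rw [pow_mul] at h1
    exact three_pow_root hω t (pow_mem hsK 2) h1
  · intro q hq hall
    have hq0 : q ≠ 0 := hq.ne_zero
    have hprim : IsPrimitiveRoot (Complex.exp (2 * Real.pi * Complex.I / q)) q :=
      Complex.isPrimitiveRoot_exp q hq0
    have h1 := hζ _ q hq.one_le (hall _ hprim.pow_eq_one) hprim.pow_eq_one
    have h4 := (hprim.pow_eq_one_iff_dvd _).1 h1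
    rcases (Nat.Prime.dvd_mul hq).1 h4 with h5 | h5
    · have h6 : q = 2 := (Nat.prime_dvd_prime_iff_eq hq Nat.prime_two).1 h5
      obtain ⟨k, hk, hk2⟩ := h2
      subst h6
      exact hk2 (exps hPm hirr hx hq hall hk)
    · have h6 : q = 3 := (Nat.prime_dvd_prime_iff_eq hq Nat.prime_three).1
        (hq.dvd_of_dvd_pow h5)
      obtain ⟨k, hk, hk2⟩ := h3
      subst h6
      exact hk2 (exps hPm hirr hx hq hall hk)

end Pool.Agent.J6H14.WF2
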