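import Pool.Agent.J6H14.WF2.Small

/-!
# A second criterion for small genus: prime values and a simple root modulo 2 or 3
-/

set_option autoImplicit false

namespace Pool.Agent.J6H14.WF2

open Polynomial Pool.Agent.R80.WF

theorem sqrt_two_lt' : Real.sqrt 2 < 3 / 2 := by
  rw [Real.sqrt_lt' (by norm_num)]
  norm_num

theorem prod_ge (n : ℤ) (hn : 3 ≤ |n|) (s : Multiset ℂ) (hs : ∀ x ∈ s, ‖x‖ = Real.sqrt 2) :
    (3 / 2 : ℝ) ^ s.card ≤ ‖(s.map (fun x => (n : ℂ) - x)).prod‖ := by
  induction s using Multiset.induction_on with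
  | empty => simp
  | cons y s ih =>
    rw [Multiset.map_cons, Multiset.prod_cons, norm_mul, Multiset.card_cons, pow_succ']
    have h1 := ih fun x hx => hs x (Multiset.mem_cons_of_mem hx)
    have h2 := hs y (Multiset.mem_cons_self y s)
    have h3 : (3 / 2 : ℝ) ≤ ‖(n : ℂ) - y‖ := by
      have h4 := norm_sub_norm_le (n : ℂ) y
      rw [h2, Complex.norm_intCast] at h4
      have h5 : (3 : ℝ) ≤ |(n : ℝ)| := by exact_mod_cast hn
      have h6 := sqrt_two_lt'
      linarith
    exact mul_le_mul h3 h1 (by positivity) (norm_nonneg _)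

theorem val_ge {A : ℤ[X]} (hA : A.Monic) (hd : A.natDegree ≠ 0)
    (hr : ∀ x : ℂ, aeval x A = 0 → ‖x‖ = Real.sqrt 2) {n : ℤ} (hn : 3 ≤ |n|) :
    3 ≤ |A.eval n| := by
  have hd2 : 2 ≤ A.natDegree := by
    by_contra hcon
    have h1 : A.natDegree = 1 := by omega
    have h2 : A = X + C (A.coeff 0) := by
      have := A.as_sum_range_C_mul_X_pow
      rw [h1, Finset.sum_range_succ, Finset.sum_range_one] at this
      have h3 : A.coeff 1 = 1 := by
        rw [← h1]; exact hA.leadingCoeff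
      rw [h3] at this
      simpa [add_comm] using this
    have h3 : aeval ((-A.coeff 0 : ℤ) : ℂ) A = 0 := by
      rw [h2]
      simp
    have h4 := hr _ h3
    rw [Complex.norm_intCast] at h4
    have h5 : (((-A.coeff 0) ^ 2 : ℤ) : ℝ) = 2 := by
      push_cast
      rw [← sq_abs]
      push_cast at h4
      rw [h4, Real.sq_sqrt (by norm_num)]
    have h6 : (-A.coeff 0) ^ 2 = 2 := by exact_mod_cast h5
    have h7 : -A.coeff 0 = 0 ∨ -A.coeff 0 = 1 ∨ -A.coeff 0 = -1 ∨ 2 ≤ -A.coeff 0 ∨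
        -A.coeff 0 ≤ -2 := by omega
    rcases h7 with h | h | h | h | h <;> nlinarith
  set Q : ℂ[X] := A.map (Int.castRingHom ℂ) with hQ
  have hQm : Q.Monic := hA.map _
  have hs : Q.Splits := IsAlgClosed.splits _
  have hev : Q.eval (n : ℂ) = ((A.eval n : ℤ) : ℂ) := eval_map_apply (Int.castRingHom ℂ) n
  have h1 := prod_ge n hn Q.roots (by
    intro y hy
    rw [mem_roots hQm.ne_zero, IsRoot.def, hQ, eval_map] at hy
    exact hr y hy)
  rw [← hs.eval_eq_prod_roots_of_monic hQm, hev, Complex.norm_intCast,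
    ← hs.natDegree_eq_card_roots, hQ, hA.natDegree_map] at h1
  have h2 : (3 / 2 : ℝ) ^ 2 ≤ (3 / 2 : ℝ) ^ A.natDegree :=
    pow_le_pow_right₀ (by norm_num) hd2
  have h3 : (2 : ℝ) < |((A.eval n : ℤ) : ℝ)| := by
    have : (3 / 2 : ℝ) ^ 2 = 9 / 4 := by norm_num
    linarith
  have h4 : (2 : ℤ) < |A.eval n| := by exact_mod_cast h3
  omega

theorem irrB {P : ℤ[X]} (hPm : P.Monic) (hd : P.natDegree ≠ 0)
    (hr : ∀ x : ℂ, aeval x P = 0 → ‖x‖ = Real.sqrt 2) {n : ℤ} (hn : 3 ≤ |n|) {c ℓ : ℕ}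
    (hc0 : 0 < c) (hc : c ≤ 2) (hℓ : ℓ.Prime) (h : P.eval n = c * ℓ) :
    Irreducible (P.map (Int.castRingHom ℚ)) := by
  have hirrZ : Irreducible P := by
    rw [hPm.irreducible_iff_natDegree]
    refine ⟨?_, ?_⟩
    · intro h
      rw [h, natDegree_one] at hd
      exact hd rfl
    · intro A B hA hB hAB
      by_contra hcon
      push Not at hcon
      obtain ⟨hdA, hdB⟩ := hcon
      have hA3 : 3 ≤ |A.eval n| := val_ge hA hdA (fun x hx => hr x (by
        rw [← hAB, map_mul, hx, zero_mul])) hn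
      have hB3 : 3 ≤ |B.eval n| := val_ge hB hdB (fun x hx => hr x (by
        rw [← hAB, map_mul, hx, mul_zero])) hn
      have h1 : A.eval n * B.eval n = c * ℓ := by rw [← h, ← hAB, eval_mul]
      have hℓp : Prime (ℓ : ℤ) := Nat.prime_iff_prime_int.1 hℓ
      have hℓ0 : (0 : ℤ) < ℓ := by exact_mod_cast hℓ.pos
      have key : ∀ u v : ℤ, u * v = c * ℓ → (ℓ : ℤ) ∣ u → 3 ≤ |v| → 3 ≤ |u| → False := by
        rintro u v huv ⟨k, rfl⟩ hv hu
        have h2 : k * v = c := by
          have : (ℓ : ℤ) * (k * v) = ℓ * c := by linear_combination huv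
          exact mul_left_cancel₀ hℓ0.ne' this
        have h3 : |k| * |v| = c := by
          rw [← abs_mul, h2, abs_of_nonneg (by positivity)]
        have h4 : 1 ≤ |k| := by
          rw [← Int.cast_one]
          apply Int.one_le_abs
          rintro rfl
          rw [zero_mul] at h2
          have : (c : ℤ) ≠ 0 := by exact_mod_cast hc0.ne'
          exact this h2.symm
        have h5 : (c : ℤ) ≤ 2 := by exact_mod_cast hc
        nlinarith
      rcases hℓp.dvd_or_dvd (Dvd.intro_left _ h1.symm) with h2 | h2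
      · exact key _ _ h1 h2 hB3 hA3
      · exact key _ _ (by rw [mul_comm]; exact h1) h2 hA3 hB3
  exact (Polynomial.IsPrimitive.Int.irreducible_iff_irreducible_map_cast hPm.isPrimitive).1 hirrZ

end Pool.Agent.J6H14.WF2
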