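import Mathlib

/-!
# Roots of unity in a number field with a prime of degree one over 2 or 3
-/

set_option autoImplicit false

namespace Pool.Agent.J6H14.WF2

open Polynomial

theorem zt2 : ∀ t : ZMod 2, t ≠ 0 → t - 1 = 0 := by decide

theorem zt2' : ∀ t : ZMod 2, t ≠ 0 → t + 1 = 0 := by decide

theorem zt3 : ∀ t : ZMod 3, t ≠ 0 → t ^ 2 - 1 = 0 := by decide

section

variable {q : ℕ} [Fact q.Prime]

/-- a root of unity congruent to 1 modulo `κ` (`κ = 3` for `q = 3`, `κ = 4` for `q = 2`) -/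
theorem ru_aux (h : q = 2 ∨ q = 3) {η : ℤ_[q]} {n : ℕ} (hn : 1 ≤ n) (hη : η ^ n = 1)
    (hκ : (if q = 2 then (4 : ℤ_[q]) else 3) ∣ η - 1) : η = 1 := by
  by_contra hne
  have hfin : IsOfFinOrder η := isOfFinOrder_iff_pow_eq_one.2 ⟨n, hn, hη⟩
  have hm0 : 0 < orderOf η := hfin.orderOf_pos
  have hm1 : orderOf η ≠ 1 := by
    rw [Ne, orderOf_eq_one_iff]
    exact hne
  obtain ⟨ℓ, hℓ, k, hk⟩ := Nat.exists_prime_and_dvd hm1
  have hk0 : 0 < k := by
    rcases Nat.eq_zero_or_pos k with h0 | h0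
    · rw [h0, mul_zero] at hk
      omega
    · exact h0
  set θ := η ^ k with hθ
  have hθℓ : θ ^ ℓ = 1 := by
    rw [hθ, ← pow_mul, mul_comm, ← hk, pow_orderOf_eq_one]
  have hθ1 : θ ≠ 1 := by
    intro h1
    have h2 := orderOf_dvd_of_pow_eq_one h1
    have h3 := Nat.le_of_dvd hk0 h2
    have h4 := hℓ.two_le
    nlinarith
  set κ : ℤ_[q] := if q = 2 then (4 : ℤ_[q]) else 3 with hκdef
  have hθκ : κ ∣ θ - 1 := by
    have h1 : η - 1 ∣ η ^ k - 1 ^ k := sub_dvd_pow_sub_pow η 1 k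
    rw [one_pow] at h1
    exact hκ.trans h1
  have hsum : ∑ i ∈ Finset.range ℓ, θ ^ i = 0 := by
    have h1 := geom_sum_mul θ ℓ
    rw [hθℓ, sub_self] at h1
    exact (mul_eq_zero.1 h1).resolve_right (sub_ne_zero.2 hθ1)
  have hℓκ : κ ∣ (ℓ : ℤ_[q]) := by
    have h1 : κ ∣ ∑ i ∈ Finset.range ℓ, (θ ^ i - 1) := by
      refine Finset.dvd_sum fun i _ => ?_
      have h2 : θ - 1 ∣ θ ^ i - 1 ^ i := sub_dvd_pow_sub_pow θ 1 i
      rw [one_pow] at h2
      exact hθκ.trans h2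
    rw [Finset.sum_sub_distrib, hsum, zero_sub, Finset.sum_const, Finset.card_range,
      nsmul_eq_mul, mul_one] at h1
    exact (dvd_neg.1 h1)
  rcases h with h | h
  · subst h
    rw [if_pos rfl] at hκdef
    rw [hκdef] at hℓκ
    have h1 : ((2 : ℕ) : ℤ_[2]) ^ 2 ∣ ((ℓ : ℤ) : ℤ_[2]) := by
      have : ((2 : ℕ) : ℤ_[2]) ^ 2 = 4 := by norm_num
      rw [this]
      exact_mod_cast hℓκ
    rw [PadicInt.pow_p_dvd_int_iff] at h1
    have h2 : 4 ∣ ℓ := by exact_mod_cast h1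
    obtain ⟨j, hj⟩ := h2
    have h3 : 2 ∣ ℓ := ⟨2 * j, by omega⟩
    have h4 := (Nat.prime_dvd_prime_iff_eq Nat.prime_two hℓ).1 h3
    omega
  · subst h
    rw [if_neg (by norm_num)] at hκdef
    rw [hκdef] at hℓκ hθκ
    have h1 : ((3 : ℕ) : ℤ_[3]) ^ 1 ∣ ((ℓ : ℤ) : ℤ_[3]) := by
      rw [pow_one]
      exact_mod_cast hℓκ
    rw [PadicInt.pow_p_dvd_int_iff] at h1
    have h2 : 3 ∣ ℓ := by
      have : (3 : ℤ) ∣ (ℓ : ℤ) := by simpa using h1
      exact_mod_cast this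
    have h4 := (Nat.prime_dvd_prime_iff_eq Nat.prime_three hℓ).1 h2
    subst h4
    obtain ⟨w, hw⟩ := hθκ
    have h5 : θ = 1 + 3 * w := by linear_combination hw
    rw [Finset.sum_range_succ, Finset.sum_range_succ, Finset.sum_range_one, h5] at hsum
    have h6 : (3 : ℤ_[3]) * (1 + 3 * (w + w ^ 2)) = 0 := by linear_combination hsum
    have h7 : (1 : ℤ_[3]) + 3 * (w + w ^ 2) = 0 :=
      (mul_eq_zero.1 h6).resolve_left (by norm_num)
    have h8 : ((3 : ℕ) : ℤ_[3]) ∣ 1 := ⟨-(w + w ^ 2), by push_cast; linear_combination h7⟩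
    have h9 : IsUnit ((3 : ℕ) : ℤ_[3]) := isUnit_of_dvd_one h8
    exact (PadicInt.prime_p (p := 3)).not_isUnit h9

theorem ru_padic (h : q = 2 ∨ q = 3) {v : ℚ_[q]} {n : ℕ} (hn : 1 ≤ n) (hv : v ^ n = 1) :
    v ^ 2 = 1 := by
  have hnorm : ‖v‖ = 1 := by
    have h1 : ‖v‖ ^ n = 1 := by rw [← norm_pow, hv, norm_one]
    exact (pow_eq_one_iff_of_nonneg (norm_nonneg _) (by omega)).1 h1
  set z : ℤ_[q] := ⟨v, hnorm.le⟩ with hz
  have hzv : (z : ℚ_[q]) = v := rfl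
  have hzn : z ^ n = 1 := by
    apply PadicInt.ext
    rw [PadicInt.coe_pow, hzv, hv, PadicInt.coe_one]
  have hunit : IsUnit z := IsUnit.of_pow_eq_one hzn (by omega)
  have hz2 : z ^ 2 = 1 := by
    refine ru_aux (n := n) h hn (by rw [← pow_mul, mul_comm, pow_mul, hzn, one_pow]) ?_
    have hmod : (PadicInt.toZMod z) ≠ 0 := (hunit.map PadicInt.toZMod).ne_zero
    have hker : ∀ y : ℤ_[q], PadicInt.toZMod y = 0 → ((q : ℕ) : ℤ_[q]) ∣ y := by
      intro y hy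
      have h1 : y ∈ RingHom.ker (PadicInt.toZMod : ℤ_[q] →+* ZMod q) := hy
      rw [PadicInt.ker_toZMod, PadicInt.maximalIdeal_eq_span_p, Ideal.mem_span_singleton] at h1
      exact h1
    rcases h with h | h
    · subst h
      rw [if_pos rfl]
      have h1 : PadicInt.toZMod (z - 1) = 0 := by
        rw [map_sub, map_one]
        exact zt2 _ hmod
      obtain ⟨w, hw⟩ := hker _ h1
      have h2 : PadicInt.toZMod (z + 1) = 0 := by
        rw [map_add, map_one]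
        exact zt2' _ hmod
      obtain ⟨w', hw'⟩ := hker _ h2
      push_cast at hw hw'
      exact ⟨w * w', by linear_combination (z + 1) * hw + 2 * w * hw'⟩
    · subst h
      rw [if_neg (by norm_num)]
      have h1 : PadicInt.toZMod (z ^ 2 - 1) = 0 := by
        rw [map_sub, map_one, map_pow]
        exact zt3 _ hmod
      have h2 := hker _ h1
      push_cast at h2
      exact h2
  have h1 := congrArg (fun t : ℤ_[q] => (t : ℚ_[q])) hz2
  simp only [PadicInt.coe_pow, PadicInt.coe_one, hzv] at h1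
  exact h1

theorem muB (h : q = 2 ∨ q = 3) {P : ℤ[X]} (hPm : P.Monic)
    (hirr : Irreducible (P.map (Int.castRingHom ℚ))) {x : ℂ} (hx : aeval x P = 0) {a : ℤ}
    (ha : (q : ℤ) ∣ P.eval a) (ha' : ¬ (q : ℤ) ∣ P.derivative.eval a) :
    ∀ u ∈ IntermediateField.adjoin ℚ {x}, ∀ n : ℕ, 1 ≤ n → u ^ n = 1 → u ^ 2 = 1 := by
  have hmin : minpoly ℚ x = P.map (Int.castRingHom ℚ) := by
    symm
    refine minpoly.eq_of_irreducible_of_monic hirr ?_ (hPm.map _)
    have : aeval x (P.map (algebraMap ℤ ℚ)) = 0 := by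
      rw [aeval_map_algebraMap]; exact hx
    exact this
  have hxZ : IsIntegral ℤ x := ⟨P, hPm, hx⟩
  have hxi : IsIntegral ℚ x := hxZ.tower_top
  have hev : ∀ F : ℤ[X], aeval (a : ℤ_[q]) F = ((F.eval a : ℤ) : ℤ_[q]) := by
    intro F
    have := aeval_algebraMap_apply ℤ_[q] a F
    simpa using this
  obtain ⟨z, hz, -⟩ := hensels_lemma (p := q) (F := P) (a := (a : ℤ_[q])) (by
    rw [hev, hev]
    have h1 : ‖((P.derivative.eval a : ℤ) : ℤ_[q])‖ = 1 := by
      refine le_antisymm (PadicInt.norm_le_one _) (not_lt.1 fun h2 => ha' ?_)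
      exact (PadicInt.norm_int_lt_one_iff_dvd _).1 h2
    rw [h1, one_pow]
    exact (PadicInt.norm_int_lt_one_iff_dvd _).2 ha)
  have hz' : aeval (z : ℚ_[q]) (minpoly ℚ x) = 0 := by
    rw [hmin]
    have h1 : aeval (z : ℚ_[q]) (P.map (algebraMap ℤ ℚ)) = 0 := by
      rw [aeval_map_algebraMap]
      have h2 := aeval_algebraMap_apply ℚ_[q] z P
      rw [hz, map_zero] at h2
      exact h2
    exact h1
  set φ : IntermediateField.adjoin ℚ {x} →ₐ[ℚ] ℚ_[q] :=
    (IntermediateField.algHomAdjoinIntegralEquiv ℚ hxi).symm ⟨(z : ℚ_[q]), by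
      rw [mem_aroots]
      exact ⟨minpoly.ne_zero hxi, hz'⟩⟩ with hφ
  intro u hu n hn hun
  have h1 : φ ⟨u, hu⟩ ^ n = 1 := by
    rw [← map_pow]
    have : (⟨u, hu⟩ : IntermediateField.adjoin ℚ {x}) ^ n = 1 := Subtype.ext hun
    rw [this, map_one]
  have h2 := ru_padic h hn h1
  rw [← map_pow, ← map_one φ] at h2
  have h3 := φ.toRingHom.injective h2
  exact congrArg Subtype.val h3

end

end Pool.Agent.J6H14.WF2
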