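import Pool.Agent.J6H14.WF2.TabB
import Pool.Agent.J6H14.WF2.CritB
import Pool.Agent.J6H14.WF2.Mu
import Pool.Agent.R80.WF.XG

/-!
# The second criterion, assembled
-/

set_option autoImplicit false

namespace Pool.Agent.J6H14.WF2

open Polynomial Pool.Agent.R80.WF

theorem noDiv_spec {n k : ℕ} (h : noDiv n k = true) : ∀ m, 2 ≤ m → m ≤ k + 1 → ¬ m ∣ n := by
  induction k with
  | zero => intro m h1 h2; omega
  | succ k ih =>
    rw [noDiv, Bool.and_eq_true, bne_iff_ne] at h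
    intro m h1 h2 h3
    rcases Nat.lt_or_eq_of_le h2 with h4 | h4
    · exact ih h.2 m h1 (by omega) h3
    · apply h.1
      rw [show k + 2 = m by omega]
      exact Nat.mod_eq_zero_of_dvd h3

theorem prime_of_chk {l : ℕ} (h : (Nat.ble 2 l && Nat.blt l (8200 * 8200) &&
    noDiv l (min (l - 2) 8200)) = true) : l.Prime := by
  simp only [Bool.and_eq_true, Nat.ble_eq, Nat.blt_eq] at h
  obtain ⟨⟨h1, h2⟩, h3⟩ := h
  rw [Nat.prime_def_le_sqrt]
  refine ⟨h1, fun m hm hm2 hdvd => ?_⟩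
  have h4 : m * m ≤ l := Nat.le_sqrt.1 hm2
  have h5 : m < 8200 := by
    by_contra hcon
    push Not at hcon
    nlinarith
  have h6 : m < l := by nlinarith
  exact noDiv_spec h3 m hm (by omega) hdvd

theorem evP_eq (g : ℕ) (a : List ℤ) (z : ℤ) :
    (PP 2 g (fun i => a.getD i 0)).eval z = evP g a z := by
  rw [eval_PP, evP, sm_eq]

theorem goodB {g f : ℕ} (hg : 2 ≤ g) (hf : f ≤ g) {a : ℕ → ℤ} (ha0 : a 0 = 1)
    (hroot : ∀ x : ℂ, aeval x (PP 2 g a) = 0 → ‖x‖ = Real.sqrt (2 : ℕ))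
    (hpar : ∀ i, f < i → i ≤ g → (2 : ℤ) ∣ a i) (hf' : ¬ (2 : ℤ) ∣ a f)
    {n : ℤ} (hn : 3 ≤ |n|) {c ℓ : ℕ} (hc0 : 0 < c) (hc : c ≤ 2) (hℓ : ℓ.Prime)
    (hev : (PP 2 g a).eval n = c * ℓ) {q : ℕ} [Fact q.Prime] (hq : q = 2 ∨ q = 3) {b : ℤ}
    (hb : (q : ℤ) ∣ (PP 2 g a).eval b)
    (hb' : ¬ ((q : ℤ) * q) ∣ (PP 2 g a).eval (b + q) - (PP 2 g a).eval b)
    {i j : ℕ} (hi : i ≤ g) (hj : j ≤ g) (hai : a i ≠ 0) (haj : a j ≠ 0)
    (hij : Nat.gcd i j = 1) : Good 2 g f := by
  have hm : (PP 2 g a).Monic := monic_PP (by omega) ha0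
  have hd : (PP 2 g a).natDegree = 2 * g := natDegree_PP (by omega) ha0
  have hroot' : ∀ x : ℂ, aeval x (PP 2 g a) = 0 → ‖x‖ = Real.sqrt 2 := by
    intro x hx
    have := hroot x hx
    push_cast at this
    exact this
  have hirr : Irreducible ((PP 2 g a).map (Int.castRingHom ℚ)) :=
    irrB hm (by omega) hroot' hn hc0 hc hℓ hev
  have hder : ¬ (q : ℤ) ∣ (PP 2 g a).derivative.eval b := by
    intro h
    apply hb'
    obtain ⟨k, hk⟩ := (PP 2 g a).binomExpansion b q
    obtain ⟨m, hm⟩ := h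
    refine ⟨m + k, ?_⟩
    rw [hk, hm]
    ring
  refine ⟨PP 2 g a, hm, hd, hirr, hroot, ?_, ?_, ?_⟩
  · intro i hi
    rw [coeff_PP]
    split_ifs with h4 h5 h6
    · exact Dvd.dvd.mul_right (dvd_pow_self _ (by omega)) _
    · exact_mod_cast hpar g (by omega) le_rfl
    · exact_mod_cast hpar (2 * g - i) (by omega) (by omega)
    · exact dvd_zero _
  · rw [coeff_PP, if_neg (by omega)]
    by_cases hfg : f = g
    · rw [if_pos (by omega)]
      rw [hfg] at hf'
      exact_mod_cast hf'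
    · rw [if_neg (by omega), if_pos (by omega)]
      have e : 2 * g - (2 * g - f) = f := by omega
      rw [e]
      exact_mod_cast hf'
  · intro x hx n hn
    have hx0 : x ≠ 0 := by
      rintro rfl
      have := hroot' 0 hx
      rw [norm_zero] at this
      have h2 : (0 : ℝ) < Real.sqrt 2 := Real.sqrt_pos.2 (by norm_num)
      linarith
    have hcoef : ∀ i ≤ g, (PP 2 g a).coeff (2 * g - i) = a i := by
      intro i hi
      rw [coeff_PP, if_neg (by omega)]
      by_cases hig : i = g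
      · rw [if_pos (by omega), hig]
      · rw [if_neg (by omega), if_pos (by omega)]
        congr 1
        omega
    refine nd_gen hm hx hx0 ?_ ?_
    · intro s hs hsK
      have h1 : s.prod ^ n = 1 := by
        refine Multiset.prod_induction (fun z => z ^ n = 1) s ?_ (one_pow _) ?_
        · intro a b ha hb
          rw [mul_pow, ha, hb, one_mul]
        · intro a ha
          exact (hs a ha).2
      exact muB hq hm hirr hx hb hder _ hsK n hn h1
    · intro r hr hall
      have hdiv : ∀ i ≤ g, a i ≠ 0 → r ∣ i := by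
        intro i hi hai
        have h1 := exps hm hirr hx hr hall (k := 2 * g - i) (by rw [hcoef i hi]; exact hai)
        rw [hd] at h1
        have h2 : 2 * g - i ≡ 2 * g [MOD r] := h1.symm
        rw [Nat.modEq_iff_dvd' (by omega)] at h2
        have e : 2 * g - (2 * g - i) = i := by omega
        rwa [e] at h2
      have h3 := Nat.dvd_gcd (hdiv i hi hai) (hdiv j hj haj)
      rw [hij] at h3
      exact hr.one_lt.ne' (Nat.dvd_one.1 h3)

instance : Fact (Nat.Prime 2) := ⟨Nat.prime_two⟩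

theorem good_of_okB {g f : ℕ} (hg : 2 ≤ g) (hf : f ≤ g) {e : EntryB} (h : okB g f e = true)
    (hroot : ∀ x : ℂ, aeval x (PP 2 g (fun i => e.t.a.getD i 0)) = 0 →
      ‖x‖ = Real.sqrt (2 : ℕ)) : Good 2 g f := by
  simp only [okB, Bool.and_eq_true] at h
  obtain ⟨⟨⟨⟨⟨⟨⟨⟨⟨⟨⟨hlen, h0⟩, heven⟩, hfo⟩, hn⟩, hc⟩, hl⟩, hev⟩, hq⟩, hb⟩, hb'⟩, hij⟩ := h
  rw [beq_iff_eq] at hlen h0 hfo hev hb
  rw [List.all_eq_true] at heven
  rw [bne_iff_ne] at hb'
  obtain ⟨⟨⟨⟨hi, hj⟩, hai⟩, haj⟩, hgcd⟩ := hij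
  rw [bne_iff_ne] at hai haj
  rw [Nat.ble_eq] at hi hj hn
  rw [beq_iff_eq] at hgcd
  have hl' : e.l.Prime := prime_of_chk (by simpa only [Bool.and_eq_true] using hl)
  have hc' : 0 < e.c ∧ e.c ≤ 2 := by
    rw [Bool.or_eq_true, beq_iff_eq, beq_iff_eq] at hc
    omega
  have hn' : 3 ≤ |e.n| := by
    have : ((3 : ℕ) : ℤ) ≤ (e.n.natAbs : ℤ) := by exact_mod_cast hn
    rw [Int.natCast_natAbs] at this
    exact_mod_cast this
  have hpar : ∀ i, f < i → i ≤ g → (2 : ℤ) ∣ e.t.a.getD i 0 := by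
    intro i hfi hi
    have h1 := blt_or (heven i (List.mem_range.2 (by omega))) hfi
    rw [beq_iff_eq] at h1
    omega
  have hq' : e.q = 2 ∨ e.q = 3 := by
    rw [Bool.or_eq_true, beq_iff_eq, beq_iff_eq] at hq
    exact hq
  have key : ∀ q : ℕ, ∀ _ : Fact q.Prime, (q = 2 ∨ q = 3) → e.q = q → Good 2 g f := by
    intro q _ hq2 heq
    rw [heq] at hb hb'
    refine goodB (a := fun i => e.t.a.getD i 0) hg hf h0 hroot hpar (by omega) hn' hc'.1 hc'.2 hl'
      (by rw [evP_eq]; exact hev) hq2 (b := e.b) ?_ ?_ hi hj hai haj hgcd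
    · rw [evP_eq]
      exact Int.dvd_of_emod_eq_zero hb
    · rw [evP_eq, evP_eq]
      intro h1
      exact hb' (Int.emod_eq_zero_of_dvd h1)
  rcases hq' with h2 | h2
  · exact key 2 inferInstance (Or.inl rfl) h2
  · exact key 3 inferInstance (Or.inr rfl) h2

theorem good_of_okB' {g f : ℕ} (hg : 2 ≤ g) (hf : f ≤ g) {e : EntryB} (h : okB g f e = true)
    (h2 : okRoot e.t = true) : Good 2 g f := by
  have hlen : e.t.a.length = g + 1 := by
    have h' := h
    simp only [okB, Bool.and_eq_true] at h'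
    obtain ⟨⟨⟨⟨⟨⟨⟨⟨⟨⟨⟨hlen, -⟩, -⟩, -⟩, -⟩, -⟩, -⟩, -⟩, -⟩, -⟩, -⟩, -⟩ := h'
    exact beq_iff_eq.1 hlen
  exact good_of_okB hg hf h fun x hx => root_zf (by norm_num) (by omega) _ (zf_AA hlen h2) hx

/-- the polynomial for the traces in the case `g = 4`, `f = 2` -/
noncomputable def H42 : ℤ[X] := X ^ 4 - 7 * X ^ 2 - 2 * X + 6

theorem H42_monic : H42.Monic := by
  unfold H42
  monicity!

theorem H42_deg : H42.natDegree = 4 := by
  unfold H42
  compute_degree!

theorem root42 {x : ℂ} (hx : aeval x (PP 2 4 (fun i => [1, 0, 1, -2, 2].getD i 0)) = 0) :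
    ‖x‖ = Real.sqrt (2 : ℕ) := by
  have hF : ∀ s : ℝ, aeval s H42 = s ^ 4 - 7 * s ^ 2 - 2 * s + 6 := by
    intro s
    simp only [H42, map_add, map_sub, map_mul, map_pow, aeval_X, map_ofNat]
  have hcont : Continuous fun s : ℝ => s ^ 4 - 7 * s ^ 2 - 2 * s + 6 := by fun_prop
  obtain ⟨r1, hr1, h1⟩ := intermediate_value_Icc' (a := (-14 / 5 : ℝ)) (b := -2) (by norm_num)
    hcont.continuousOn (show (0 : ℝ) ∈ _ by norm_num)
  obtain ⟨r2, hr2, h2⟩ := intermediate_value_Icc (a := (-2 : ℝ)) (b := -1) (by norm_num)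
    hcont.continuousOn (show (0 : ℝ) ∈ _ by norm_num)
  obtain ⟨r3, hr3, h3⟩ := intermediate_value_Icc' (a := (-1 : ℝ)) (b := 1) (by norm_num)
    hcont.continuousOn (show (0 : ℝ) ∈ _ by norm_num)
  obtain ⟨r4, hr4, h4⟩ := intermediate_value_Icc (a := (1 : ℝ)) (b := 14 / 5) (by norm_num)
    hcont.continuousOn (show (0 : ℝ) ∈ _ by norm_num)
  simp only at h1 h2 h3 h4
  have d12 : r1 < r2 := by
    refine lt_of_le_of_ne (hr1.2.trans hr2.1) fun h => ?_
    have : r1 = -2 := le_antisymm hr1.2 (by rw [h]; exact hr2.1)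
    rw [this] at h1
    norm_num at h1
  have d23 : r2 < r3 := by
    refine lt_of_le_of_ne (hr2.2.trans hr3.1) fun h => ?_
    have : r2 = -1 := le_antisymm hr2.2 (by rw [h]; exact hr3.1)
    rw [this] at h2
    norm_num at h2
  have d34 : r3 < r4 := by
    refine lt_of_le_of_ne (hr3.2.trans hr4.1) fun h => ?_
    have : r3 = 1 := le_antisymm hr3.2 (by rw [h]; exact hr4.1)
    rw [this] at h3
    norm_num at h3
  have hx0 : x ≠ 0 := by
    rintro rfl
    simp [PP, Finset.sum_range_succ, map_ofNat] at hx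
  have hP : aeval x (PP 2 4 (fun i => [1, 0, 1, -2, 2].getD i 0)) =
      x ^ 4 * aeval (x + 2 / x) H42 := by
    simp [PP, Finset.sum_range_succ, H42, map_ofNat]
    field_simp
    ring
  rw [hP] at hx
  have hH : aeval (x + 2 / x) H42 = 0 := by
    rcases mul_eq_zero.1 hx with h | h
    · exact absurd h (pow_ne_zero _ hx0)
    · exact h
  refine xg_norm_of_roots (p := 2) (g := 4) (by norm_num) H42_monic H42_deg {r1, r2, r3, r4} ?_ ?_ ?_
    x (2 / x) (by field_simp; norm_num) hH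
  · rw [Finset.card_insert_of_notMem, Finset.card_insert_of_notMem, Finset.card_insert_of_notMem,
      Finset.card_singleton]
    · rw [Finset.mem_singleton]; exact d34.ne
    · rw [Finset.mem_insert, Finset.mem_singleton]
      push Not
      exact ⟨d23.ne, (d23.trans d34).ne⟩
    · rw [Finset.mem_insert, Finset.mem_insert, Finset.mem_singleton]
      push Not
      exact ⟨d12.ne, (d12.trans d23).ne, (d12.trans (d23.trans d34)).ne⟩
  · intro s hs
    rw [hF]
    simp only [Finset.mem_insert, Finset.mem_singleton] at hs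
    rcases hs with h | h | h | h <;> rw [h] <;> assumption
  · intro s hs
    simp only [Finset.mem_insert, Finset.mem_singleton] at hs
    have b1 := hr1.1
    have b2 := hr1.2
    have b3 := hr2.1
    have b4 := hr2.2
    have b5 := hr3.1
    have b6 := hr3.2
    have b7 := hr4.1
    have b8 := hr4.2
    have : |s| ≤ 14 / 5 := by
      rw [abs_le]
      rcases hs with h | h | h | h <;> rw [h] <;> constructor <;> linarith
    have h5 : s ^ 2 ≤ (14 / 5) ^ 2 := by
      rw [← sq_abs]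
      exact pow_le_pow_left₀ (abs_nonneg _) this 2
    push_cast
    linarith

theorem good_low {g f : ℕ} (hg : 3 ≤ g) (hg6 : g ≤ 6) (hf2 : 2 ≤ f) (hf : f ≤ g) :
    Good 2 g f := by
  obtain ⟨k, rfl⟩ : ∃ k, g = k + 3 := ⟨g - 3, by omega⟩
  obtain ⟨j, rfl⟩ : ∃ j, f = j + 2 := ⟨f - 2, by omega⟩
  have h1 := tabB_ok
  rw [List.all_eq_true] at h1
  have h2 := h1 k (List.mem_range.2 (by omega))
  rw [List.all_eq_true] at h2
  have h3 := h2 j (List.mem_range.2 (by omega))
  by_cases he : k = 1 ∧ j = 0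
  · obtain ⟨rfl, rfl⟩ := he
    exact good_of_okB (by norm_num) hf h3 fun x hx => root42 hx
  · have h4 := tabB_root
    rw [List.all_eq_true] at h4
    have h5 := h4 k (List.mem_range.2 (by omega))
    rw [List.all_eq_true] at h5
    have h6 := h5 j (List.mem_range.2 (by omega))
    rw [Bool.or_eq_true, Bool.and_eq_true, beq_iff_eq, beq_iff_eq] at h6
    exact good_of_okB' (by omega) hf h3 (h6.resolve_left he)

theorem good_exc {g f : ℕ} (h : exc g f = true) : Good 2 g f := by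
  simp only [exc, Bool.or_eq_true, Bool.and_eq_true, beq_iff_eq] at h
  rcases h with (⟨rfl, rfl⟩ | ⟨rfl, rfl⟩) | ⟨rfl, rfl⟩
  · have h1 := Bool.and_eq_true_iff.1 ex73_ok
    exact good_of_okB' (by norm_num) (by norm_num) h1.1 h1.2
  · have h1 := Bool.and_eq_true_iff.1 ex82_ok
    exact good_of_okB' (by norm_num) (by norm_num) h1.1 h1.2
  · have h1 := Bool.and_eq_true_iff.1 ex83_ok
    exact good_of_okB' (by norm_num) (by norm_num) h1.1 h1.2

/-- `p = 2` -/
theorem good_two {g f : ℕ} (hg : 3 ≤ g) (hf2 : 2 ≤ f) (hf : f ≤ g) : Good 2 g f := by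
  rcases Nat.lt_or_ge g 7 with h | h
  · exact good_low hg (by omega) hf2 hf
  · rcases Nat.lt_or_ge g 18 with h2 | h2
    · by_cases he : exc g f = true
      · exact good_exc he
      · exact good_small h (by omega) hf2 hf (by simpa using he)
    · exact good_big h2 hf2 hf

end Pool.Agent.J6H14.WF2
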