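import Pool.Agent.J6H14.WF2.Root2

/-!
# Certificates for zero-free polynomials on the disc of radius `√2`

A polynomial is a list of integer coefficients (lowest first). On the circle `|u|² = 2` the real part
of `A(u) conj(B(u))` is the real part of the polynomial `crs A B`; comparing with `|R(u)|²` and
bounding the difference coefficientwise proves that it is positive.
-/

set_option autoImplicit false

namespace Pool.Agent.J6H14.WF2

open Complex

/-- value of the list polynomial -/
noncomputable def ev (l : List ℤ) (u : ℂ) : ℂ := l.foldr (fun a z => (a : ℂ) + u * z) 0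

theorem ev_nil (u : ℂ) : ev [] u = 0 := rfl

theorem ev_cons (a : ℤ) (l : List ℤ) (u : ℂ) : ev (a :: l) u = (a : ℂ) + u * ev l u := rfl

theorem differentiable_ev (l : List ℤ) : Differentiable ℂ (ev l) := by
  induction l with
  | nil => exact differentiable_const 0
  | cons a l ih =>
    have : ev (a :: l) = fun u => (a : ℂ) + u * ev l u := rfl
    rw [this]
    fun_prop

/-- sum of two list polynomials -/
def addl : List ℤ → List ℤ → List ℤ
  | [], m => m
  | a :: l, [] => a :: l
  | a :: l, b :: m => (a + b) :: addl l m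

theorem ev_addl (l m : List ℤ) (u : ℂ) : ev (addl l m) u = ev l u + ev m u := by
  induction l generalizing m with
  | nil => simp [addl, ev_nil]
  | cons a l ih =>
    cases m with
    | nil => simp [addl, ev_nil]
    | cons b m =>
      rw [addl, ev_cons, ev_cons, ev_cons, ih]
      push_cast
      ring

theorem ev_map (c : ℤ) (l : List ℤ) (u : ℂ) : ev (l.map (fun t => c * t)) u = c * ev l u := by
  induction l with
  | nil => simp [ev_nil]
  | cons a l ih =>
    rw [List.map_cons, ev_cons, ev_cons, ih]
    push_cast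
    ring

/-- the polynomial whose real part on the circle `|u|² = 2` is that of `A conj B` -/
def crs : List ℤ → List ℤ → List ℤ
  | a :: A, b :: B => addl (a * b :: addl (A.map (fun t => b * t)) (B.map (fun t => a * t)))
      ((crs A B).map (fun t => 2 * t))
  | _, _ => []

theorem crs_spec {u : ℂ} (hu : normSq u = 2) (A B : List ℤ) :
    (ev A u * (starRingEnd ℂ) (ev B u)).re = (ev (crs A B) u).re := by
  induction A generalizing B with
  | nil => simp [crs, ev_nil]
  | cons a A ih =>
    cases B with
    | nil => simp [crs, ev_nil]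
    | cons b B =>
      rw [crs, ev_addl, ev_cons, ev_cons, ev_cons, ev_addl, ev_map, ev_map, ev_map]
      have h := ih B
      have huu : u * (starRingEnd ℂ) u = 2 := by
        rw [mul_conj, hu]; norm_num
      have e : ((a : ℂ) + u * ev A u) * (starRingEnd ℂ) ((b : ℂ) + u * ev B u) =
          (a * b : ℤ) + (a : ℂ) * (starRingEnd ℂ) (u * ev B u) + (b : ℂ) * (u * ev A u) +
          2 * (ev A u * (starRingEnd ℂ) (ev B u)) := by
        rw [map_add, map_mul, map_intCast]
        push_cast
        linear_combination ev A u * (starRingEnd ℂ) (ev B u) * huu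
      have hc : ∀ z : ℂ, ((a : ℂ) * (starRingEnd ℂ) z).re = ((a : ℂ) * z).re := by
        intro z
        simp
      have h2 : ∀ z : ℂ, ((2 : ℂ) * z).re = 2 * z.re := by
        intro z; simp
      have e2 : ((2 : ℤ) : ℂ) = 2 := by norm_num
      rw [e, add_re, add_re, add_re, add_re, hc, h2, h, e2, h2, add_re, mul_add, add_re]
      have e3 : (u * ((b : ℂ) * ev A u)).re = ((b : ℂ) * (u * ev A u)).re := by
        congr 1; ring
      have e4 : (u * ((a : ℂ) * ev B u)).re = ((a : ℂ) * (u * ev B u)).re := by
        congr 1; ring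
      rw [e3, e4]
      ring

/-- bound `x + y √2` for the absolute value -/
def absb : List ℤ → ℕ × ℕ
  | [] => (0, 0)
  | a :: l => (a.natAbs + 2 * (absb l).2, (absb l).1)

theorem absb_spec {u : ℂ} (hu : ‖u‖ ≤ Real.sqrt 2) (l : List ℤ) :
    ‖ev l u‖ ≤ (absb l).1 + (absb l).2 * Real.sqrt 2 := by
  induction l with
  | nil => simp [ev_nil, absb]
  | cons a l ih =>
    have h2 : Real.sqrt 2 * Real.sqrt 2 = 2 := Real.mul_self_sqrt (by norm_num)
    rw [ev_cons, absb]
    have h3 : ‖u * ev l u‖ ≤ Real.sqrt 2 * ((absb l).1 + (absb l).2 * Real.sqrt 2) := by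
      rw [norm_mul]
      exact mul_le_mul hu ih (norm_nonneg _) (Real.sqrt_nonneg _)
    have h4 : ‖(a : ℂ)‖ = (a.natAbs : ℝ) := by
      rw [Complex.norm_intCast, Nat.cast_natAbs]
      simp
    refine (norm_add_le _ _).trans ?_
    rw [h4]
    push_cast
    nlinarith [h3]

theorem sqrt_two_lt : Real.sqrt 2 < 17 / 12 := by
  rw [Real.sqrt_lt' (by norm_num)]
  norm_num

/-- the check: `2^e Re (A conj B) > M` on the circle -/
def posChk (A B R : List ℤ) (e : ℕ) (M : ℤ) : Bool :=
  match addl ((crs A B).map (fun t => 2 ^ e * t)) ((crs R R).map (fun t => -1 * t)) with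
  | [] => false
  | d :: D => decide (24 * ((absb D).2 : ℤ) + 17 * ((absb D).1 : ℤ) + 12 * M < 12 * d)

theorem posChk_spec {A B R : List ℤ} {e : ℕ} {M : ℤ} (h : posChk A B R e M = true) {u : ℂ}
    (hu : normSq u = 2) : (M : ℝ) < 2 ^ e * (ev A u * (starRingEnd ℂ) (ev B u)).re := by
  have hn : ‖u‖ = Real.sqrt 2 := by
    rw [← hu, Complex.norm_def]
  unfold posChk at h
  generalize hD : addl ((crs A B).map (fun t => 2 ^ e * t)) ((crs R R).map (fun t => -1 * t)) = L
    at h
  cases L with
  | nil => simp at h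
  | cons d D =>
    simp only [decide_eq_true_eq] at h
    have h1 := congrArg (fun l => (ev l u).re) hD
    simp only [ev_addl, ev_map, add_re] at h1
    have h2 : (ev (crs R R) u).re = normSq (ev R u) := by
      rw [← crs_spec hu, mul_conj, ofReal_re]
    have h3 : ((((2 ^ e : ℤ)) : ℂ) * ev (crs A B) u).re =
        2 ^ e * (ev A u * (starRingEnd ℂ) (ev B u)).re := by
      rw [crs_spec hu, ← ofReal_intCast, re_ofReal_mul]
      push_cast
      rfl
    have h4 : ((((-1 : ℤ)) : ℂ) * ev (crs R R) u).re = - normSq (ev R u) := by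
      rw [← h2]
      simp
    rw [h3, h4, ev_cons, add_re, intCast_re] at h1
    have h5 : -(‖u * ev D u‖) ≤ (u * ev D u).re := (abs_le.1 (abs_re_le_norm _)).1
    have h6 : ‖u * ev D u‖ ≤ Real.sqrt 2 * ((absb D).1 + (absb D).2 * Real.sqrt 2) := by
      rw [norm_mul, hn]
      exact mul_le_mul_of_nonneg_left (absb_spec hn.le D) (Real.sqrt_nonneg _)
    have h7 : Real.sqrt 2 * Real.sqrt 2 = 2 := Real.mul_self_sqrt (by norm_num)
    have h8 := normSq_nonneg (ev R u)
    have h9 : (24 * ((absb D).2 : ℝ) + 17 * ((absb D).1 : ℝ) + 12 * M < 12 * d) := by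
      exact_mod_cast h
    have h10 : (0 : ℝ) ≤ (absb D).1 := Nat.cast_nonneg _
    have h11 := sqrt_two_lt
    nlinarith [mul_le_mul_of_nonneg_left h11.le h10]

/-- zero-free on the closed disc of radius `√2` -/
def Zf (l : List ℤ) : Prop := ∀ u : ℂ, ‖u‖ ≤ Real.sqrt 2 → ev l u ≠ 0

theorem zf_one : Zf [1] := by
  intro u _
  simp [ev_cons, ev_nil]

theorem normSq_of_norm {u : ℂ} (hu : ‖u‖ = Real.sqrt 2) : normSq u = 2 := by
  rw [normSq_eq_norm_sq, hu, Real.sq_sqrt (by norm_num)]

theorem zf_of_chk {A B R : List ℤ} {e : ℕ} (hB : Zf B) (h : posChk A B R e 0 = true) : Zf A := by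
  refine zf_step (differentiable_ev A) (differentiable_ev B) (Real.sqrt_pos.2 (by norm_num)) hB ?_
  intro w hw
  have h1 := posChk_spec h (normSq_of_norm hw)
  have h2 : (0 : ℝ) < 2 ^ e := by positivity
  push_cast at h1
  exact (mul_pos_iff_of_pos_left h2).1 h1

/-- a chain of comparisons -/
def chain : List ℤ → List (List ℤ × List ℤ × ℕ) → Bool
  | _, [] => true
  | B, (A, R, e) :: L => posChk A B R e 0 && chain A L

/-- the last polynomial of a chain -/
def lastOf : List ℤ → List (List ℤ × List ℤ × ℕ) → List ℤ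
  | B, [] => B
  | _, (A, _, _) :: L => lastOf A L

theorem zf_chain (L : List (List ℤ × List ℤ × ℕ)) (B : List ℤ) (hB : Zf B)
    (h : chain B L = true) : Zf (lastOf B L) := by
  induction L generalizing B with
  | nil => exact hB
  | cons x L ih =>
    obtain ⟨A, R, e⟩ := x
    rw [chain, Bool.and_eq_true] at h
    rw [lastOf]
    exact ih A (zf_of_chk hB h.1) h.2

end Pool.Agent.J6H14.WF2
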