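import Pool.Agent.R80.WF.Nd

/-!
# `ℚ(x^n) = ℚ(x)` when the field contains few roots of unity
-/

set_option autoImplicit false

namespace Pool.Agent.J6H14.WF2

open Polynomial

theorem nd_gen {P : ℤ[X]} (hPm : P.Monic)
    {x : ℂ} (hx : aeval x P = 0) (hx0 : x ≠ 0) {n : ℕ}
    (hu : ∀ s : Multiset ℂ, (∀ ζ ∈ s, aeval (ζ * x) P = 0 ∧ ζ ^ n = 1) →
      s.prod ∈ IntermediateField.adjoin ℚ {x} → s.prod ^ 2 = 1)
    (hq : ∀ q : ℕ, q.Prime → (∀ ζ : ℂ, ζ ^ q = 1 → aeval (ζ * x) P = 0) → False) :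
    IntermediateField.adjoin ℚ {x ^ n} = IntermediateField.adjoin ℚ {x} := by
  have hxi : IsIntegral ℤ x := ⟨P, hPm, hx⟩
  have hxK : x ∈ IntermediateField.adjoin ℚ {x} := IntermediateField.mem_adjoin_simple_self ℚ x
  have hle : IntermediateField.adjoin ℚ {x ^ n} ≤ IntermediateField.adjoin ℚ {x} := by
    rw [IntermediateField.adjoin_simple_le_iff]
    exact pow_mem hxK _
  refine le_antisymm hle ?_
  set L := IntermediateField.adjoin ℚ {x ^ n} with hL
  have hxiL : IsIntegral L x := hxi.tower_top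
  have hxnL : x ^ n ∈ L := IntermediateField.mem_adjoin_simple_self ℚ (x ^ n)
  set m := minpoly L x with hm
  have hmm : m.Monic := minpoly.monic hxiL
  set r := m.natDegree with hr
  set M := (m.map (algebraMap L ℂ)).roots with hM
  have hsplit : (m.map (algebraMap L ℂ)).Splits := IsAlgClosed.splits _
  have hcard : M.card = r := by
    rw [hM, ← hsplit.natDegree_eq_card_roots, natDegree_map]
  -- roots of `m`
  have hroot : ∀ y : ℂ, aeval y m = 0 → aeval y P = 0 ∧ y ^ n = x ^ n := by
    intro y hy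
    refine ⟨?_, ?_⟩
    · have hd : m ∣ P.map (algebraMap ℤ L) := by
        refine minpoly.dvd _ _ ?_
        rw [aeval_map_algebraMap]; exact hx
      obtain ⟨q, hq⟩ := hd
      have h2 := congrArg (aeval y) hq
      rw [map_mul, hy, zero_mul, aeval_map_algebraMap] at h2
      exact h2
    · have hd : m ∣ X ^ n - C (⟨x ^ n, hxnL⟩ : L) := by
        refine minpoly.dvd _ _ ?_
        simp
      obtain ⟨q, hq⟩ := hd
      have h2 := congrArg (aeval y) hq
      rw [map_mul, hy, zero_mul] at h2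
      simp only [map_sub, map_pow, aeval_X, aeval_C] at h2
      have h3 : (algebraMap L ℂ) (⟨x ^ n, hxnL⟩ : L) = x ^ n := rfl
      rw [h3, sub_eq_zero] at h2
      exact h2
  have hMroot : ∀ y ∈ M, aeval y m = 0 := by
    intro y hy
    rw [hM, mem_roots (map_ne_zero hmm.ne_zero), IsRoot.def, eval_map_algebraMap] at hy
    exact hy
  have hprod : (algebraMap L ℂ) (m.coeff 0) = (-1) ^ r * M.prod := by
    have h1 := hsplit.coeff_zero_eq_prod_roots_of_monic (hmm.map (algebraMap L ℂ))
    rw [coeff_map, natDegree_map] at h1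
    exact h1
  have hMprodL : M.prod ∈ L := by
    have h1 : M.prod = (-1) ^ r * (algebraMap L ℂ) (m.coeff 0) := by
      rw [hprod, ← mul_assoc, ← mul_pow]
      simp
    rw [h1]
    exact mul_mem (pow_mem (neg_mem (one_mem _)) _) (m.coeff 0).2
  have hsprod : (M.map (fun y => y / x)).prod = M.prod / x ^ r := by
    rw [Multiset.prod_map_div, Multiset.map_id', Multiset.map_const', Multiset.prod_replicate,
      hcard]
  have h1 := hu (M.map (fun y => y / x)) (by
    intro ζ hζ
    obtain ⟨y, hy, rfl⟩ := Multiset.mem_map.1 hζ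
    obtain ⟨h2, h3⟩ := hroot y (hMroot y hy)
    refine ⟨?_, ?_⟩
    · rw [div_mul_cancel₀ _ hx0]; exact h2
    · rw [div_pow, h3, div_self (pow_ne_zero _ hx0)]) (by
    rw [hsprod]
    exact div_mem (hle hMprodL) (pow_mem hxK _))
  rw [hsprod] at h1
  have hxr : x ^ r ∈ L := by
    rcases sq_eq_one_iff.1 h1 with h | h
    · rw [div_eq_one_iff_eq (pow_ne_zero _ hx0)] at h
      rw [← h]; exact hMprodL
    · rw [div_eq_iff (pow_ne_zero _ hx0)] at h
      have : x ^ r = - M.prod := by rw [h]; ring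
      rw [this]
      exact neg_mem hMprodL
  have hrpos : 0 < r := minpoly.natDegree_pos hxiL
  have hmeq : m = X ^ r - C (⟨x ^ r, hxr⟩ : L) := by
    symm
    refine eq_of_monic_of_dvd_of_natDegree_le hmm (monic_X_pow_sub_C _ hrpos.ne') ?_ ?_
    · refine minpoly.dvd _ _ ?_
      simp
    · rw [natDegree_X_pow_sub_C]
  by_cases hr1 : r = 1
  · have h2 : x ∈ L := by
      rw [hr1, pow_one] at hxr
      exact hxr
    rw [IntermediateField.adjoin_simple_le_iff]
    exact h2
  · exfalso
    obtain ⟨q, hqp, k, hk⟩ := Nat.exists_prime_and_dvd hr1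
    refine hq q hqp fun ζ hζ => ?_
    refine (hroot _ ?_).1
    rw [hmeq]
    simp only [map_sub, map_pow, aeval_X, aeval_C]
    have h3 : (algebraMap L ℂ) (⟨x ^ r, hxr⟩ : L) = x ^ r := rfl
    rw [h3, mul_pow, hk, pow_mul ζ, hζ, one_pow, one_mul, sub_self]

/-- the exponents of a polynomial whose roots are stable under `q`-th roots of unity -/
theorem exps {P : ℤ[X]} (hPm : P.Monic) (hirr : Irreducible (P.map (Int.castRingHom ℚ)))
    {x : ℂ} (hx : aeval x P = 0) {q : ℕ} (hqp : q.Prime)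
    (h : ∀ ζ : ℂ, ζ ^ q = 1 → aeval (ζ * x) P = 0) {k : ℕ} (hk : P.coeff k ≠ 0) :
    P.natDegree % q = k % q := by
  by_contra hcon
  have hq0 : q ≠ 0 := hqp.ne_zero
  have hprim : IsPrimitiveRoot (Complex.exp (2 * Real.pi * Complex.I / q)) q :=
    Complex.isPrimitiveRoot_exp q hq0
  set ζ := Complex.exp (2 * Real.pi * Complex.I / q) with hζ
  have hζ0 : ζ ≠ 0 := hprim.ne_zero hq0
  set D := P.natDegree with hD
  have hmin : minpoly ℚ x = P.map (Int.castRingHom ℚ) := by
    symm
    refine minpoly.eq_of_irreducible_of_monic hirr ?_ (hPm.map _)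
    have : aeval x (P.map (algebraMap ℤ ℚ)) = 0 := by
      rw [aeval_map_algebraMap]; exact hx
    exact this
  set Q : ℚ[X] := ∑ j ∈ (Finset.range (D + 1)).filter (fun j => j % q = k % q),
    C ((P.coeff j : ℤ) : ℚ) * X ^ j with hQ
  have hkD : k ≤ D := le_natDegree_of_ne_zero hk
  have hcoeff : ∀ i, Q.coeff i = if i ≤ D ∧ i % q = k % q then ((P.coeff i : ℤ) : ℚ) else 0 := by
    intro i
    rw [hQ, finsetSum_coeff]
    simp only [coeff_C_mul, coeff_X_pow, mul_ite, mul_one, mul_zero]
    rw [Finset.sum_ite_eq]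
    simp [Finset.mem_filter, Nat.lt_succ_iff]
  have hQ0 : Q ≠ 0 := by
    intro h0
    have h1 := hcoeff k
    rw [h0, coeff_zero, if_pos ⟨hkD, rfl⟩] at h1
    exact hk (by exact_mod_cast h1.symm)
  have hQdeg : Q.natDegree < D := by
    have h1 : Q.natDegree ≤ D := by
      rw [natDegree_le_iff_coeff_eq_zero]
      intro N hN
      rw [hcoeff, if_neg (by omega)]
    refine lt_of_le_of_ne h1 fun h2 => ?_
    have h3 : Q.coeff Q.natDegree = 0 := by
      rw [hcoeff, h2, if_neg (by omega)]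
    rw [coeff_natDegree, leadingCoeff_eq_zero] at h3
    exact hQ0 h3
  have hQx : aeval x Q = 0 := by
    -- average over the roots of unity
    have e1 : ∀ y : ℂ, aeval y P = ∑ j ∈ Finset.range (D + 1), ((P.coeff j : ℤ) : ℂ) * y ^ j := by
      intro y
      rw [aeval_eq_sum_range, hD]
      refine Finset.sum_congr rfl fun i _ => ?_
      rw [zsmul_eq_mul]
    have h2 : ∑ m ∈ Finset.range q, ((ζ ^ k)⁻¹) ^ m * aeval (ζ ^ m * x) P = 0 := by
      refine Finset.sum_eq_zero fun m _ => ?_
      rw [h (ζ ^ m) (by rw [← pow_mul, mul_comm, pow_mul, hprim.pow_eq_one, one_pow]), mul_zero]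
    simp only [e1, Finset.mul_sum] at h2
    rw [Finset.sum_comm] at h2
    have h3 : ∀ j ∈ Finset.range (D + 1), ∑ m ∈ Finset.range q,
        ((ζ ^ k)⁻¹) ^ m * (((P.coeff j : ℤ) : ℂ) * (ζ ^ m * x) ^ j) =
        (if j % q = k % q then ((P.coeff j : ℤ) : ℂ) * x ^ j else 0) * q := by
      intro j _
      have h4 : ∀ m ∈ Finset.range q, ((ζ ^ k)⁻¹) ^ m * (((P.coeff j : ℤ) : ℂ) * (ζ ^ m * x) ^ j) =
          ((P.coeff j : ℤ) : ℂ) * x ^ j * (ζ ^ j * (ζ ^ k)⁻¹) ^ m := by
        intro m _
        rw [mul_pow, mul_pow, ← pow_mul, ← pow_mul, mul_comm m j]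
        ring
      rw [Finset.sum_congr rfl h4, ← Finset.mul_sum]
      set η := ζ ^ j * (ζ ^ k)⁻¹ with hη
      have h5 : η ^ q = 1 := by
        rw [hη, mul_pow, inv_pow, ← pow_mul, ← pow_mul, mul_comm j, mul_comm k, pow_mul, pow_mul,
          hprim.pow_eq_one, one_pow, one_pow, inv_one, mul_one]
      by_cases h6 : j % q = k % q
      · have h7 : η = 1 := by
          have : ζ ^ j = ζ ^ k := by
            rw [← Nat.mod_add_div j q, ← Nat.mod_add_div k q, pow_add, pow_add, pow_mul, pow_mul,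
              hprim.pow_eq_one, one_pow, one_pow, h6]
          rw [hη, this, mul_inv_cancel₀ (pow_ne_zero _ hζ0)]
        rw [h7, if_pos h6]
        simp
      · have h7 : η ≠ 1 := by
          intro h8
          apply h6
          have h9 : ζ ^ j = ζ ^ k := by
            rw [hη, mul_inv_eq_one₀ (pow_ne_zero _ hζ0)] at h8
            exact h8
          have h10 : ζ ^ (j % q) = ζ ^ (k % q) := by
            rw [← Nat.mod_add_div j q, ← Nat.mod_add_div k q, pow_add, pow_add, pow_mul, pow_mul,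
              hprim.pow_eq_one, one_pow, one_pow, mul_one, mul_one] at h9
            exact h9
          exact hprim.pow_inj (Nat.mod_lt _ hqp.pos) (Nat.mod_lt _ hqp.pos) h10
        have h8 := geom_sum_mul η q
        rw [h5, sub_self] at h8
        rcases mul_eq_zero.1 h8 with h9 | h9
        · rw [h9, if_neg h6]
          simp
        · exact absurd (sub_eq_zero.1 h9) h7
    rw [Finset.sum_congr rfl h3, ← Finset.sum_mul] at h2
    have h4 : (q : ℂ) ≠ 0 := by exact_mod_cast hq0
    have h5 := (mul_eq_zero.1 h2).resolve_right h4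
    rw [← Finset.sum_filter] at h5
    rw [hQ, map_sum, ← h5]
    refine Finset.sum_congr rfl fun i _ => ?_
    rw [map_mul, aeval_C, map_pow, aeval_X, eq_ratCast, Rat.cast_intCast]
  have h6 := natDegree_le_natDegree (minpoly.degree_le_of_ne_zero ℚ x hQ0 hQx)
  rw [hmin, hPm.natDegree_map, ← hD] at h6
  omega

end Pool.Agent.J6H14.WF2
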