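import Pool.Agent.J6H14.WF2.SmallTab
import Pool.Agent.J6H14.WF2.Big

/-!
# The case `p = 2`, `7 ≤ g ≤ 17`, `f ≥ 2` except three pairs
-/

set_option autoImplicit false

namespace Pool.Agent.J6H14.WF2

open Polynomial Pool.Agent.R80.WF

theorem sm_eq (F : ℕ → ℤ) (n : ℕ) : sm F n = ∑ i ∈ Finset.range n, F i := by
  induction n with
  | zero => simp [sm]
  | succ n ih => rw [sm, ih, Finset.sum_range_succ]

theorem AA_succ (g : ℕ) (a : ℕ → ℤ) (w : ℂ) :
    AA (g + 1) a w = (a 0 : ℂ) + w * AA g (fun i => a (i + 1)) w := by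
  rw [AA, AA, Finset.sum_range_succ', mul_add, Finset.mul_sum, pow_zero, mul_one]
  have h : ∀ i ∈ Finset.range g, (a (i + 1) : ℂ) * w ^ (i + 1) = w * ((a (i + 1) : ℂ) * w ^ i) := by
    intro i _
    ring
  rw [Finset.sum_congr rfl h, pow_succ]
  ring

theorem ev_scA (l : List ℤ) (g : ℕ) (hl : l.length = g + 1) (w : ℂ) :
    ev (scA l) (2 * w) = 2 ^ (g + 1) * AA g (fun i => l.getD i 0) w := by
  induction l generalizing g with
  | nil => simp at hl
  | cons x l ih =>
    cases l with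
    | nil =>
      have hg : g = 0 := by simpa using hl.symm
      subst hg
      simp [scA, ev_cons, ev_nil, AA]
      ring
    | cons y l =>
      obtain ⟨g', rfl⟩ : ∃ g', g = g' + 1 := ⟨l.length, by simpa using hl.symm⟩
      have hl' : (y :: l).length = g' + 1 := by
        rw [List.length_cons] at hl
        omega
      have hl2 : l.length = g' := by simpa using hl'
      rw [scA, ev_cons, ih g' hl', AA_succ, hl2]
      simp only [List.getD_cons_succ, List.getD_cons_zero]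
      push_cast
      ring

theorem zf_AA {g : ℕ} {t : Entry} (hl : t.a.length = g + 1) (h : okRoot t = true) :
    ∀ w : ℂ, ‖w‖ ≤ (Real.sqrt (2 : ℕ))⁻¹ → AA g (fun i => t.a.getD i 0) w ≠ 0 := by
  rw [okRoot, Bool.and_eq_true] at h
  have h1 : Zf (scA t.a) := zf_of_chk (zf_of_chk zf_one h.1) h.2
  intro w hw h0
  have e2 : ((2 : ℕ) : ℝ) = 2 := by norm_num
  rw [e2] at hw
  have h2 : (0 : ℝ) < Real.sqrt 2 := Real.sqrt_pos.2 (by norm_num)
  have h22 : Real.sqrt 2 ^ 2 = 2 := Real.sq_sqrt (by norm_num)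
  have hinv : 2 * (Real.sqrt 2)⁻¹ = Real.sqrt 2 := by
    field_simp
    linarith
  apply h1 (2 * w)
  · rw [norm_mul, Complex.norm_ofNat, ← hinv]
    linarith
  · rw [ev_scA t.a g hl, h0, mul_zero]

theorem good_of_okSmall {g f : ℕ} (hg : 2 ≤ g) (hf : f ≤ g) {t : Entry}
    (h : okSmall g f t = true) : Good 2 g f := by
  simp only [okSmall, Bool.and_eq_true] at h
  obtain ⟨⟨⟨⟨⟨⟨⟨⟨hlen, h0⟩, hres⟩, h9⟩, hodd⟩, h3⟩, heven⟩, hfo⟩, hroot⟩ := h
  rw [beq_iff_eq] at hlen h0 h9 hfo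
  rw [List.all_eq_true] at hres heven
  rw [List.any_eq_true] at hodd h3
  refine critA (a := fun i => t.a.getD i 0) hg hf h0 ?_ ?_ (zf_AA hlen hroot) ?_ ?_ ?_ ?_
  · intro i hi
    have h1 := hres i (List.mem_range.2 hi)
    rw [beq_iff_eq, czc_eq] at h1
    omega
  · rw [eval_PP, ← h9, sm_eq]
    congr 1
    congr 1
    · refine Finset.sum_congr rfl fun i _ => ?_
      simp
    · simp
  · obtain ⟨i, hi, h1⟩ := hodd
    rw [Bool.and_eq_true, beq_iff_eq, bne_iff_ne] at h1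
    have := List.mem_range.1 hi
    exact ⟨i, by omega, h1.1, h1.2⟩
  · obtain ⟨i, hi, h1⟩ := h3
    rw [Bool.and_eq_true, bne_iff_ne, bne_iff_ne] at h1
    have := List.mem_range.1 hi
    exact ⟨i, by omega, h1.1, h1.2⟩
  · intro i hfi hi
    have h1 := blt_or (heven i (List.mem_range.2 (by omega))) hfi
    rw [beq_iff_eq] at h1
    omega
  · omega

theorem good_small {g f : ℕ} (hg : 7 ≤ g) (hg17 : g ≤ 17) (hf2 : 2 ≤ f) (hf : f ≤ g)
    (he : exc g f = false) : Good 2 g f := by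
  obtain ⟨k, rfl⟩ : ∃ k, g = k + 7 := ⟨g - 7, by omega⟩
  obtain ⟨j, rfl⟩ : ∃ j, f = j + 2 := ⟨f - 2, by omega⟩
  have h1 := smallTab_ok
  rw [List.all_eq_true] at h1
  have h2 := h1 k (List.mem_range.2 (by omega))
  rw [List.all_eq_true] at h2
  have h3 := h2 j (List.mem_range.2 (by omega))
  rw [he, Bool.false_or] at h3
  exact good_of_okSmall (by omega) hf h3

end Pool.Agent.J6H14.WF2
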