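import Pool.Agent.J6H14.WF2.BigTab

/-!
# Table for `7 ≤ g ≤ 17`, with certificates
-/

set_option autoImplicit false

namespace Pool.Agent.J6H14.WF2

/-- coefficients, comparison polynomial with certificate, certificate -/
structure Entry where
  /-- the coefficients -/
  a : List ℤ
  /-- the comparison polynomial -/
  b : List ℤ
  /-- certificate for the comparison polynomial -/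
  rb : List ℤ
  /-- exponent for the comparison polynomial -/
  eb : ℕ
  /-- certificate -/
  r : List ℤ
  /-- exponent -/
  e : ℕ

/-- the entries for `g = 7` -/
def st7 : List Entry := [
  ⟨[1, 0, -1, 0, 0, 0, 4, 6], [64, 0, 0, -8, 0, 0, 1], [], 0,
    [7085, -339, -1248, -583, 167, 115, 381, 111], 12⟩,
  ⟨[], [], [], 0, [], 0⟩,
  ⟨[1, 0, -1, 0, 3, 0, -2, 6], [8, 0, -2, 1], [], 0,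
    [584, 91, -170, -2, 87, 7, -17, 11], 8⟩,
  ⟨[1, 0, -1, 0, 0, -3, -2, 12], [1], [], 0,
    [203, -4, -32, -7, -1, -10, -5, 8], 8⟩,
  ⟨[1, 0, -1, 0, 0, 0, 1, 6], [1], [], 0,
    [], 0⟩,
  ⟨[1, 0, -1, 0, 0, 0, 1, -3], [8, 0, 1], [], 0,
    [], 0⟩]

/-- the entries for `g = 8` -/
def st8 : List Entry := [
  ⟨[], [], [], 0, [], 0⟩,
  ⟨[], [], [], 0, [], 0⟩,
  ⟨[1, 0, 1, -3, 1, 0, 4, 0, -2], [16, 0, 0, -3], [], 0,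
    [2399, 199, 474, -820, 28, -28, 114, 1, -7], 10⟩,
  ⟨[1, 0, 1, 0, 1, -3, -2, 0, -8], [8, 0, 1], [], 0,
    [433, 7, 101, 1, 27, -28, -7, 0, -5], 6⟩,
  ⟨[1, 0, 1, 0, 1, 3, 1, 6, 4], [4, 0, 1], [], 0,
    [152, -9, 41, -5, 8, 10, 2, 5, 1], 4⟩,
  ⟨[1, 0, 1, 0, 1, 0, 1, -3, 4], [8, 0, -1], [], 0,
    [196, 2, 13, 1, 8, 3, 2, -4, 1], 4⟩,
  ⟨[1, 0, 1, 0, 1, 0, 1, -3, -5], [1], [], 0,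
    [150, -2, 24, 1, 6, 2, 2, -3, -1], 6⟩]

/-- the entries for `g = 9` -/
def st9 : List Entry := [
  ⟨[1, 0, 3, 0, 6, 0, 6, 0, 6, 6], [4, 0, 1], [], 0,
    [5912, -13, 2987, 141, 1392, -82, 390, -33, 133, 33], 14⟩,
  ⟨[1, 0, 0, -3, 0, 0, 6, 0, -6, -6], [16, 0, 0, -3], [], 0,
    [109511, 8456, 6986, -35155, -1061, -3072, 7253, 390, -1767, -460], 20⟩,
  ⟨[1, 0, 0, 0, -3, 0, 0, 0, 6, 6], [1], [], 0,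
    [204, -3, 0, -2, -23, 2, 0, 0, 4, 1], 6⟩,
  ⟨[1, 0, 0, 0, 0, 3, 0, 0, 0, 0], [1], [], 0,
    [], 0⟩,
  ⟨[1, 0, 0, 0, 0, 0, -3, 0, 6, 6], [64, 0, 0, -8, 0, 0, 1], [], 0,
    [212, -4, 9, -10, 1, -3, -6, 0, 4, 1], 0⟩,
  ⟨[1, 0, 0, 0, 0, 0, 0, 3, 0, 0], [1], [], 0,
    [], 0⟩,
  ⟨[1, 0, 0, 0, 0, 0, 0, 0, 3, 6], [1], [], 0,
    [], 0⟩,
  ⟨[1, 0, 0, 0, 0, 0, 0, 0, 3, -3], [1], [], 0,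
    [], 0⟩]

/-- the entries for `g = 10` -/
def st10 : List Entry := [
  ⟨[1, 0, -1, 0, 0, 0, 0, -6, 0, 6, 12], [16, 0, 0, 0, -1], [], 0,
    [292, -5, -43, 8, -10, -6, -1, -9, 1, 3, 1], 2⟩,
  ⟨[1, 0, 2, 3, 0, 6, 0, 0, 6, -6, 12], [16, 0, 6, 0, 1], [12, 0, 3, 0, 1], 4,
    [8300, 795, 3666, 2484, 533, 1024, 205, -110, 197, -104, 47], 12⟩,
  ⟨[1, 0, 2, 0, 3, 0, 6, 0, 12, -6, 18], [32, 0, 8, 0, 1], [], 0,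
    [1706, 56, 653, 16, 171, 1, 81, 4, 53, -15, 11], 6⟩,
  ⟨[1, 0, -1, 0, 0, -3, 0, 6, 0, 0, -6], [8, 0, -1], [], 0,
    [417, -3, -91, -5, 1, -26, 0, 15, 0, 0, -1], 4⟩,
  ⟨[1, 0, -1, 0, 0, 0, 3, 0, -6, -6, 18], [4, -1], [], 0,
    [289, -32, -43, 3, 0, -3, 9, 0, -4, -3, 2], 4⟩,
  ⟨[1, 0, -1, 0, 0, 0, 0, 3, 0, -6, -6], [1], [], 0,
    [592, -4, -105, 6, 1, 5, 0, 7, -1, -5, -1], 8⟩,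
  ⟨[1, 0, -1, 0, 0, 0, 0, -3, -3, 6, 0], [8, 0, 1], [], 0,
    [99, 0, -10, -1, 0, -1, -1, -1, -1, 1], 0⟩,
  ⟨[1, 0, -1, 0, 0, 0, 0, 0, 3, -3, -12], [8, 0, 1], [], 0,
    [], 0⟩,
  ⟨[1, 0, -1, 0, 0, 0, 0, 3, 0, -3, 3], [8, 0, 1], [], 0,
    [], 0⟩]

/-- the entries for `g = 11` -/
def st11 : List Entry := [
  ⟨[1, 0, 1, 0, -2, 0, 0, 0, 6, 0, 6, 6], [64, 0, -16, 0, 0, 0, 1], [], 0,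
    [733, 0, 99, -3, -56, -1, -6, 2, 10, -2, 4, 1], 2⟩,
  ⟨[1, 0, -2, 3, 4, -6, 0, 12, 0, -6, 12, 18], [8, 0, -2, 1], [], 0,
    [34404, -334, -12959, 8638, 4055, -3722, 107, 2224, 45, -289, 368, 137], 16⟩,
  ⟨[1, 0, 1, 0, 1, 0, 0, 0, 0, 0, 0, 6], [1], [], 0,
    [], 0⟩,
  ⟨[1, 0, 1, 0, 1, -3, 0, -6, 0, -6, 0, 0], [8, 0, 1], [], 0,
    [294, 3, 56, 9, 11, -17, 1, -10, 0, -3], 2⟩,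
  ⟨[1, 0, 1, 0, 1, 0, 3, 0, 6, 0, 6, 6], [1], [], 0,
    [198, 0, 27, 0, 4, 0, 6, 0, 3, 0, 1], 4⟩,
  ⟨[1, 0, 1, 0, 1, 0, 0, 3, 0, 6, 0, 6], [16, 0, 0, 0, -1], [], 0,
    [195, 1, 28, -2, 1, -4, 0, 3, 0, 2], 0⟩,
  ⟨[1, 0, 1, 0, 1, 0, 3, 0, 3, 0, 0, 6], [16, 0, 0, 0, 1], [], 0,
    [197, 1, 36, 0, 16, 0, 6, 0, 2], 0⟩,
  ⟨[1, 0, 1, 0, 1, 0, 0, 0, 0, -3, 0, -6], [16, 0, 0, 0, -1], [], 0,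
    [], 0⟩,
  ⟨[1, 0, 1, 0, 1, 0, 0, 0, 0, 0, -3, 6], [8, 0, -1], [], 0,
    [], 0⟩,
  ⟨[1, 0, 1, 0, 1, 0, 0, 0, 0, 0, -3, -3], [8, 0, -1], [], 0,
    [], 0⟩]

/-- the entries for `g = 12` -/
def st12 : List Entry := [
  ⟨[1, 0, 3, 0, 6, 0, 8, 0, 6, 0, 0, -6, -6], [16, 0, 4, 0, 1], [], 0,
    [4297, -84, 2166, -27, 1105, 8, 396, 16, 95, 12, 2, -12, -3], 8⟩,
  ⟨[1, 0, 0, -3, 0, 0, 8, 0, 0, -12, 0, 6, 24], [8, 0, 0, -1], [], 0,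
    [390, 3, 0, -102, -2, -3, 31, 0, 1, -7, 0, 1, 1], 2⟩,
  ⟨[1, 0, 0, 0, 3, 0, 2, 0, 6, 0, 6, -6, 6], [8, 0, 1], [], 0,
    [401, -2, 23, 0, 47, 1, 8, 2, 8, 0, 2, -1], 2⟩,
  ⟨[1, 0, 0, 0, 0, -3, 2, 0, 0, 0, 6, -6, 6], [4, -1], [], 0,
    [552, -76, -1, 1, 7, -40, 11, 1, 0, -1, 3, -1], 4⟩,
  ⟨[1, 0, 0, 0, 0, 0, -1, 0, 0, 0, 0, 6, 6], [1], [], 0,
    [], 0⟩,
  ⟨[1, 0, 0, 0, 0, 0, -1, -3, 0, 0, 0, 0, 6], [1], [], 0,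
    [], 0⟩,
  ⟨[1, 0, 0, 0, 0, 0, -1, 0, 3, 0, 0, 6, 0], [64, 0, 0, 8, 0, 0, 1], [], 0,
    [], 0⟩,
  ⟨[1, 0, 0, 0, 0, 0, -1, 0, 0, -3, 0, 6, 6], [1], [], 0,
    [], 0⟩,
  ⟨[1, 0, 0, 0, 0, 0, -1, 0, 0, -3, -3, 0, 12], [1], [], 0,
    [], 0⟩,
  ⟨[1, 0, 0, 0, 0, 0, -1, 0, 0, 0, 0, 3, 6], [1], [], 0,
    [], 0⟩,
  ⟨[1, 0, 0, 0, 0, 0, -1, 0, 0, 0, 0, 3, 15], [1], [], 0,
    [], 0⟩]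

/-- the entries for `g = 13` -/
def st13 : List Entry := [
  ⟨[1, 0, -1, 0, 0, 0, 2, 0, -2, 0, 0, 0, 0, 6], [1], [], 0,
    [], 0⟩,
  ⟨[1, 0, -1, 3, 0, -6, 2, 0, -14, 0, 6, -12, 6, 36], [8, 0, 0, 1], [], 0,
    [4282, 55, -576, 1032, 36, -486, -3, 6, -161, -16, 18, -18, 6, 9], 8⟩,
  ⟨[1, 0, -1, 0, 3, 0, -4, 0, 4, 0, -6, 0, 0, 6], [8, 0, -1], [], 0,
    [274, 0, -51, 0, 33, 0, -12, 0, 3, 0, -1], 0⟩,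
  ⟨[1, 0, -1, 0, 0, -3, 2, 6, -2, 0, 0, -6, -6, 30], [8, 0, -1], [], 0,
    [1154, 13, -260, -30, 18, -64, 18, 38, -4, -1, 0, -2, -1, 2], 4⟩,
  ⟨[1, 0, -1, 0, 0, 0, -1, 0, 4, 0, -6, 0, 6, 6], [8, 0, 1], [], 0,
    [], 0⟩,
  ⟨[1, 0, -1, 0, 0, 0, 2, -3, -2, 6, 0, -6, 6, 12], [1], [], 0,
    [809, 18, -134, -15, 8, -5, 17, -11, -5, 7, 1, -2, 1], 6⟩,
  ⟨[1, 0, -1, 0, 0, 0, -1, 0, 1, 0, 0, 0, 0, 6], [32, 0, 8, 0, 1], [], 0,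
    [], 0⟩,
  ⟨[1, 0, -1, 0, 0, 0, 2, 0, -5, 3, 6, -6, 0, 12], [1], [], 0,
    [397, 4, -67, -4, 3, 1, 7, 1, -5, 1, 2, -1], 4⟩,
  ⟨[1, 0, -1, 0, 0, 0, -1, 0, 1, 0, -3, 0, 6, 6], [32, 0, 8, 0, 1], [], 0,
    [], 0⟩,
  ⟨[1, 0, -1, 0, 0, 0, -1, 0, 1, 0, 0, 3, 0, 0], [32, 0, 8, 0, 1], [], 0,
    [], 0⟩,
  ⟨[1, 0, -1, 0, 0, 0, -1, 0, 1, 0, -3, 0, 3, 6], [32, 0, 8, 0, 1], [], 0,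
    [], 0⟩,
  ⟨[1, 0, -1, 0, 0, 0, -1, 0, 1, 0, 0, 0, 0, -3], [32, 0, 8, 0, 1], [], 0,
    [], 0⟩]

/-- the entries for `g = 14` -/
def st14 : List Entry := [
  ⟨[1, 0, 1, 0, -2, 0, -4, 0, 2, 0, 8, 0, 0, -6, -24], [1], [], 0,
    [2249, -6, 475, 3, -99, 3, -105, -2, 1, -2, 13, 1, 1, -1, -1], 8⟩,
  ⟨[1, 0, 1, -3, -2, 0, 2, 12, -4, 6, -22, -6, -12, 0, 24], [16, 0, 0, -3], [], 0,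
    [16346, 1234, 3779, -4839, -1394, -445, 362, 1048, -117, 201, -282, -27, -59, -2, 12], 10⟩,
  ⟨[1, 0, 1, 0, 1, 0, 2, 0, 2, 0, 2, 0, 6, 6, -6], [8, 0, -1], [], 0,
    [368, 0, 22, 0, 12, 0, 8, 0, 2, 0, 0, 0, 1], 0⟩,
  ⟨[1, 0, 1, 0, 1, 3, 2, 6, 2, 6, 2, 6, 12, 0, 36], [8, 0, 0, 1], [], 0,
    [1532, -47, 212, 64, 66, 77, 36, 45, 9, 14, 0, 5, 3, 0, 2], 4⟩,
  ⟨[1, 0, 1, 0, 1, 0, -1, 0, -4, 0, -10, 0, -12, 6, -18], [1], [], 0,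
    [551, 0, 84, 1, 30, 1, -3, 1, -4, 0, -4, 0, -1], 4⟩,
  ⟨[1, 0, 1, 0, 1, 0, 2, -3, 2, 0, 2, 0, 0, -6, 24], [8, 0, -1], [], 0,
    [1507, 31, 100, 9, 51, 20, 32, -29, 8, 0, 2, 1, -1, -1, 1], 4⟩,
  ⟨[1, 0, 1, 0, 1, 0, 2, 0, 5, 0, 8, 0, 6, -6, 12], [1], [], 0,
    [558, -1, 84, 0, 16, 1, 8, 0, 7, 0, 3, 0, 1], 4⟩,
  ⟨[1, 0, 1, 0, 1, 0, 2, 0, 2, -3, 2, -6, 0, 0, -12], [1], [], 0,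
    [280, 0, 45, 1, 10, 1, 6, 1, 2, -1, 0, -1], 2⟩,
  ⟨[1, 0, 1, 0, 1, 0, 2, 0, 2, 0, 5, 0, 6, -6, 6], [8, 0, -1], [], 0,
    [369, 0, 22, 0, 12, 0, 8, 0, 1, 0, 1], 0⟩,
  ⟨[1, 0, 1, 0, 1, 0, 2, 0, 2, 0, 2, 3, 6, 0, 12], [8, 0, -1], [], 0,
    [737, 0, 44, 0, 25, -1, 17, 0, 4, -1, 1, 1, 1], 2⟩,
  ⟨[1, 0, 1, 0, 1, 0, 2, 0, 2, 0, 2, -3, 3, 0, 0], [8, 0, -1], [], 0,
    [370, 0, 22, 0, 12, 1, 9, 0, 2, 0, 1, -1], 0⟩,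
  ⟨[1, 0, 1, 0, 1, 0, 2, 0, 2, 0, 5, 0, 6, 3, 6], [8, 0, -1], [], 0,
    [363, 0, 22, 0, 12, 0, 8, 0, 1, 0, 1], 0⟩,
  ⟨[1, 0, 1, 0, 1, 0, 2, 0, 2, 0, 2, 0, 3, -3, 9], [8, 0, -1], [], 0,
    [], 0⟩]

/-- the entries for `g = 15` -/
def st15 : List Entry := [
  ⟨[1, 0, 3, 0, 6, 0, 10, 0, 18, 0, 30, 0, 34, 0, 18, 6], [32, 0, 8, 0, 1], [], 0,
    [3901, 18, 1892, 9, 729, 0, 274, -2, 158, -1, 89, -1, 31, 0, 5], 4⟩,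
  ⟨[1, 0, 0, -3, 0, 0, 4, 0, 0, 0, 0, 0, -8, 0, 6, 30], [1], [], 0,
    [2906, 4, 1, -705, -3, -7, 174, 0, 0, -11, 0, 2, -3, 0, 1, 1], 8⟩,
  ⟨[1, 0, 0, 0, -3, 0, -2, 0, 6, 0, 6, 0, -8, 0, -6, 6], [8, 0, 1], [], 0,
    [536, 0, 6, 0, -70, 0, -6, 0, 11, 0, 2, 0, -1], 0⟩,
  ⟨[1, 0, 0, 0, 0, -3, -2, 0, 0, 0, 6, 6, 4, 0, 0, 0], [4, 1], [], 0,
    [393, 54, -2, 1, -5, -28, -7, 1, 0, 0, 2, 1], 0⟩,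
  ⟨[1, 0, 0, 0, 0, 0, 1, 0, 0, 0, 0, 0, 4, 0, -6, 6], [1], [], 0,
    [], 0⟩,
  ⟨[1, 0, 0, 0, 0, 0, 1, 3, 0, 0, 0, 0, -2, 12, 6, -6], [1], [], 0,
    [], 0⟩,
  ⟨[1, 0, 0, 0, 0, 0, 1, 0, 3, 0, 0, 0, -2, 0, 12, 6], [1], [], 0,
    [], 0⟩,
  ⟨[1, 0, 0, 0, 0, 0, 1, 0, 0, 3, 0, 0, -2, 0, -6, 36], [1], [], 0,
    [], 0⟩,
  ⟨[1, 0, 0, 0, 0, 0, 1, 0, 0, 0, 3, 0, 4, 0, 0, 6], [1], [], 0,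
    [], 0⟩,
  ⟨[1, 0, 0, 0, 0, 0, 1, 0, 0, 0, 0, 3, 4, 0, 0, 0], [1], [], 0,
    [], 0⟩,
  ⟨[1, 0, 0, 0, 0, 0, 1, 0, 0, 0, 0, 0, 1, 0, 6, 6], [1], [], 0,
    [], 0⟩,
  ⟨[1, 0, 0, 0, 0, 0, 1, 0, 0, 0, 0, 0, 4, 3, 0, 0], [1], [], 0,
    [], 0⟩,
  ⟨[1, 0, 0, 0, 0, 0, 1, 0, 0, 0, 0, 0, 4, 0, -3, 6], [1], [], 0,
    [], 0⟩,
  ⟨[1, 0, 0, 0, 0, 0, 1, 0, 0, 0, 0, 0, 4, 0, -3, -3], [1], [], 0,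
    [], 0⟩]

/-- the entries for `g = 16` -/
def st16 : List Entry := [
  ⟨[1, 0, -1, 0, 0, 0, -2, 0, 2, 0, 0, 0, 4, 0, -10, -6, 18], [4, 0, 1], [], 0,
    [], 0⟩,
  ⟨[1, 0, -1, 3, 0, -6, 4, 0, -16, 0, 6, -18, 4, 24, -4, 12, 72], [8, 0, 0, 1], [], 0,
    [11265, 1178, -1447, 2560, 410, -1315, 246, 71, -491, -66, 65, -69, 0, 31, 0, 3, 7], 8⟩,
  ⟨[1, 0, -1, 0, 3, 0, -2, 0, 8, 0, -6, 0, 22, 0, -16, 6, 60], [1], [], 0,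
    [2136, 4, -250, -4, 230, 1, -21, -1, 40, 0, -4, -1, 8, 0, -1, 0, 1], 6⟩,
  ⟨[1, 0, -1, 0, 0, -3, 4, 6, -4, -6, 6, -6, -2, 12, 2, -18, 12], [8, 0, -1], [], 0,
    [3101, 75, -607, -55, -16, -181, 129, 106, -27, -30, 13, -7, -1, 4, 0, -1], 4⟩,
  ⟨[1, 0, -1, 0, 0, 0, 1, 0, -4, 0, 6, 0, -2, 0, -4, 6, 12], [8, 0, 1], [], 0,
    [], 0⟩,
  ⟨[1, 0, -1, 0, 0, 0, 1, 3, 2, -6, -6, 6, 4, 12, -4, -24, 30], [1], [], 0,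
    [2252, -41, -386, 41, 24, 6, 31, 34, 8, -18, -10, 7, 2, 2, 0, -1], 6⟩,
  ⟨[1, 0, -1, 0, 0, 0, 1, 0, -1, 0, 0, 0, 4, 0, -4, -6, 6], [8, 0, 1], [], 0,
    [], 0⟩,
  ⟨[1, 0, -1, 0, 0, 0, 1, 0, -1, 3, 0, -6, 4, 6, -4, 0, 6], [8, 0, 1], [], 0,
    [745, 1, -80, -4, 9, 2, 8, 3, -3, 2, 1, -2, 1, 1], 0⟩,
  ⟨[1, 0, -1, 0, 0, 0, 1, 0, -1, 0, -3, 0, 10, 0, -16, -6, 24], [8, 0, 1], [], 0,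
    [], 0⟩,
  ⟨[1, 0, -1, 0, 0, 0, 1, 0, -1, 0, 0, -3, 4, 6, -10, -6, 36], [8, 0, 1], [], 0,
    [], 0⟩,
  ⟨[1, 0, -1, 0, 0, 0, 1, 0, -1, 0, -3, 3, 13, -6, -22, 6, 48], [8, 0, 1], [], 0,
    [1455, 0, -148, 0, 17, -2, 14, 1, -7, 1, -1, 1, 3, -1, -1, 0, 1], 2⟩,
  ⟨[1, 0, -1, 0, 0, 0, 1, 0, -1, 0, -3, 0, 10, 3, -16, 0, 24], [8, 0, 1], [], 0,
    [], 0⟩,
  ⟨[1, 0, -1, 0, 0, 0, 1, 0, -1, 0, -3, 0, 10, 0, -13, -6, 18], [8, 0, 1], [], 0,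
    [], 0⟩,
  ⟨[1, 0, -1, 0, 0, 0, 1, 0, -1, 0, -3, 0, 10, 0, -16, 3, 24], [8, 0, 1], [], 0,
    [], 0⟩,
  ⟨[1, 0, -1, 0, 0, 0, 1, 0, -1, 0, -3, 0, 10, 0, -16, -3, 33], [8, 0, 1], [], 0,
    [], 0⟩]

/-- the entries for `g = 17` -/
def st17 : List Entry := [
  ⟨[1, 0, 1, 0, -2, 0, -2, 0, 4, 0, 10, 0, 4, 0, -8, 0, -8, 6], [4, 0, -1], [], 0,
    [665, 0, 83, 0, -40, 0, -28, 0, 2, 0, 6, 0, 1], 0⟩,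
  ⟨[1, 0, 1, -3, -2, -6, 4, 0, 16, 6, 10, -12, -20, -36, -14, 18, 28, 108], [8, 0, 0, -1], [], 0,
    [15315, -1078, 2204, -4043, -1212, -1411, 762, -32, 669, 28, 116, -71, -52, -63, -11, 7, 9, 7], 8⟩,
  ⟨[1, 0, 1, 0, 1, 0, 4, 0, 4, 0, 4, 0, 10, 0, 10, 0, 4, 6], [16, 0, 0, 0, 1], [], 0,
    [1539, 0, 293, 0, 106, 0, 65, 0, 17, 0, 3, 0, 3, 0, 1], 0⟩,
  ⟨[1, 0, 1, 0, 1, 3, -2, 6, -2, 6, 4, 0, 22, -12, 28, -12, 34, 6], [4, -1], [], 0,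
    [5877, -862, 674, -303, 310, 300, -135, 159, -48, 48, 8, -3, 25, -8, 9, -3, 3], 6⟩,
  ⟨[1, 0, 1, 0, 1, 0, 1, 0, 4, 0, 4, 0, 10, 0, 10, 0, 22, 6], [8, 0, -1], [], 0,
    [1029, 0, 69, 0, 40, 0, 2, 0, 11, 0, 2, 0, 2], 0⟩,
  ⟨[1, 0, 1, 0, 1, 0, 1, 3, -2, 6, -2, 12, -2, 18, -8, 0, -14, -18], [1], [], 0,
    [3135, 79, 464, 12, 120, -35, 45, 42, -17, 21, -4, 12, -1, 6, -1, 0, -1], 6⟩,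
  ⟨[1, 0, 1, 0, 1, 0, 1, 0, 1, 0, -2, 0, -2, 0, -8, 0, -14, 6], [8, 0, -1], [], 0,
    [], 0⟩,
  ⟨[1, 0, 1, 0, 1, 0, 1, 0, 1, -3, 4, -6, 10, -6, 16, -12, 10, -12], [1], [], 0,
    [1555, 17, 258, 9, 65, 4, 16, 6, 1, -5, 3, -3, 2, -1, 1], 4⟩,
  ⟨[1, 0, 1, 0, 1, 0, 1, 0, 1, 0, 1, 0, -2, 0, -2, 0, -8, 6], [8, 0, -1], [], 0,
    [], 0⟩,
  ⟨[1, 0, 1, 0, 1, 0, 1, 0, 1, 0, 1, -3, -2, 0, -2, -6, -8, 6], [8, 0, -1], [], 0,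
    [], 0⟩,
  ⟨[1, 0, 1, 0, 1, 0, 1, 0, 1, 0, 1, 0, 1, 0, -2, 0, -2, 6], [8, 0, -1], [], 0,
    [], 0⟩,
  ⟨[1, 0, 1, 0, 1, 0, 1, 0, 1, 0, 1, 0, -2, 3, -2, 0, -8, 18], [8, 0, -1], [], 0,
    [], 0⟩,
  ⟨[1, 0, 1, 0, 1, 0, 1, 0, 1, 0, 1, 0, -2, 0, 1, 0, -8, 6], [8, 0, -1], [], 0,
    [], 0⟩,
  ⟨[1, 0, 1, 0, 1, 0, 1, 0, 1, 0, 1, 0, -2, 0, 1, -3, -8, -6], [8, 0, -1], [], 0,
    [], 0⟩,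
  ⟨[1, 0, 1, 0, 1, 0, 1, 0, 1, 0, 1, 0, -2, 0, 1, 0, -5, 6], [8, 0, -1], [], 0,
    [], 0⟩,
  ⟨[1, 0, 1, 0, 1, 0, 1, 0, 1, 0, 1, 0, -2, 0, 1, 0, -5, -3], [8, 0, -1], [], 0,
    [], 0⟩]

/-- the whole table -/
def smallTab : List (List Entry) :=
  [st7, st8, st9, st10, st11, st12, st13, st14, st15, st16, st17]

/-- scaled coefficients -/
def scA : List ℤ → List ℤ
  | [] => []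
  | [x] => [x]
  | x :: y :: l => 2 ^ (l.length + 2) * x :: scA (y :: l)

/-- finite sums -/
def sm (F : ℕ → ℤ) : ℕ → ℤ
  | 0 => 0
  | n + 1 => sm F n + F n

/-- the location of the roots -/
def okRoot (t : Entry) : Bool :=
  posChk t.b [1] t.rb t.eb 0 && posChk (scA t.a) t.b t.r t.e 0

/-- the checks for one entry -/
def okSmall (g f : ℕ) (t : Entry) : Bool :=
  t.a.length == g + 1 && t.a.getD 0 0 == 1 &&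
  (List.range g).all (fun i => (t.a.getD i 0 - czc g i) % 3 == 0) &&
  (sm (fun i => t.a.getD i 0 * (1 + 2 ^ (g - i))) g + t.a.getD g 0) % 9 == 6 &&
  (List.range (g + 1)).any (fun i => i % 2 == 1 && t.a.getD i 0 != 0) &&
  (List.range (g + 1)).any (fun i => i % 3 != 0 && t.a.getD i 0 != 0) &&
  (List.range (g + 1)).all (fun i => !(Nat.blt f i) || t.a.getD i 0 % 2 == 0) &&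
  t.a.getD f 0 % 2 == 1 && okRoot t

/-- the three pairs treated differently -/
def exc (g f : ℕ) : Bool :=
  (g == 7 && f == 3) || (g == 8 && f == 2) || (g == 8 && f == 3)

theorem smallTab_ok : (List.range 11).all (fun k => (List.range (k + 6)).all (fun j =>
    exc (k + 7) (j + 2) || okSmall (k + 7) (j + 2)
      ((smallTab.getD k []).getD j ⟨[], [], [], 0, [], 0⟩))) = true := by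
  decide +kernel

end Pool.Agent.J6H14.WF2
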