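import Pool.Agent.J6H14.WF2.SmallTab

/-!
# Table for `3 ≤ g ≤ 6` and three more pairs, with certificates
-/

set_option autoImplicit false

namespace Pool.Agent.J6H14.WF2

/-- coefficients and certificates: `P(n) = c ℓ`, `b` is a simple root modulo `q`, the coefficients
with index `i`, `j` do not vanish -/
structure EntryB where
  /-- coefficients and location of the roots -/
  t : Entry
  /-- argument -/
  n : ℤ
  /-- cofactor -/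
  c : ℕ
  /-- prime -/
  l : ℕ
  /-- small prime -/
  q : ℕ
  /-- simple root modulo `q` -/
  b : ℤ
  /-- first index -/
  i : ℕ
  /-- second index -/
  j : ℕ

/-- the entries for `g = 3` -/
def tb3 : List EntryB := [
  ⟨⟨[1, 1, -1, -2], [1], [], 0,
    [48, 24, -5, -5], 8⟩, 3, 1, 839, 3, 2, 1, 1⟩,
  ⟨⟨[1, 1, 1, 1], [1], [], 0,
    [12, 3, 2, 1], 4⟩, -3, 2, 277, 3, 2, 1, 1⟩]

/-- the entries for `g = 4` -/
def tb4 : List EntryB := [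
  ⟨⟨[1, 0, 1, -2, 2], [1], [], 0,
    [], 0⟩, -3, 2, 4049, 3, 2, 2, 3⟩,
  ⟨⟨[1, -1, 0, 1, -2], [1], [], 0,
    [17, -6, 1, 1, -1], 4⟩, -3, 1, 8329, 3, 2, 1, 1⟩,
  ⟨⟨[1, 0, 0, -1, 1], [1], [], 0,
    [], 0⟩, 3, 1, 6361, 3, 2, 3, 4⟩]

/-- the entries for `g = 5` -/
def tb5 : List EntryB := [
  ⟨⟨[1, 1, -1, -2, 0, 2], [1], [], 0,
    [194, 79, -3, -38, -4, 5], 10⟩, -3, 1, 36821, 3, 2, 1, 1⟩,
  ⟨⟨[1, 0, -1, -1, 2, 2], [1], [], 0,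
    [51, -1, -7, -4, 5, 1], 6⟩, -3, 1, 56039, 3, 2, 2, 3⟩,
  ⟨⟨[1, 0, 0, 1, -1, -2], [1], [], 0,
    [], 0⟩, 3, 1, 59999, 3, 2, 3, 4⟩,
  ⟨⟨[1, 0, 0, -1, 0, -1], [1], [], 0,
    [], 0⟩, 3, 1, 56543, 3, 2, 3, 5⟩]

/-- the entries for `g = 6` -/
def tb6 : List EntryB := [
  ⟨⟨[1, 1, 1, 0, 0, 0, 2], [1], [], 0,
    [36, 10, 7], 4⟩, -3, 1, 414913, 3, 2, 1, 1⟩,
  ⟨⟨[1, 0, 1, -1, 0, -2, 2], [1], [], 0,
    [74, 3, 13, -4, 0, -3, 1], 6⟩, 3, 1, 566911, 3, 2, 2, 3⟩,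
  ⟨⟨[1, -1, 1, -1, 1, 0, 0], [1], [], 0,
    [17, -5, 2, -1, 1], 2⟩, 3, 1, 400441, 3, 2, 1, 1⟩,
  ⟨⟨[1, 0, 0, 0, 1, 1, -4], [1], [], 0,
    [], 0⟩, 3, 1, 538147, 3, 2, 4, 5⟩,
  ⟨⟨[1, 0, 0, 0, 0, -1, -5], [1], [], 0,
    [], 0⟩, -3, 1, 530533, 3, 2, 5, 6⟩]

/-- the entry for `g = 7`, `f = 3` -/
def ex73 : EntryB :=
  ⟨⟨[1, -1, 0, 1, -2, 2, 0, -4], [1], [], 0,
    [198, -64, 6, 9, -13, 10, -2, -3], 8⟩, 3, 1, 3279329, 3, 2, 1, 1⟩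

/-- the entry for `g = 8`, `f = 2` -/
def ex82 : EntryB :=
  ⟨⟨[1, 1, 1, 2, 2, 2, 2, 2, 0], [1], [], 0,
    [70, 14, 4, 9, 5, 3, 1, 1], 4⟩, 3, 1, 66965887, 3, 2, 1, 1⟩

/-- the entry for `g = 8`, `f = 3` -/
def ex83 : EntryB :=
  ⟨⟨[1, 1, 0, -1, -2, -2, 0, 2, 2], [1], [], 0,
    [68, 23, 2, -3, -5, -3, -1, 1], 4⟩, 3, 1, 54438661, 3, 2, 1, 1⟩

/-- the table -/
def tabB : List (List EntryB) := [tb3, tb4, tb5, tb6]

/-- no divisor from `2` to `k + 1` -/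
def noDiv (n : ℕ) : ℕ → Bool
  | 0 => true
  | k + 1 => n % (k + 2) != 0 && noDiv n k

/-- value of the polynomial -/
def evP (g : ℕ) (a : List ℤ) (z : ℤ) : ℤ :=
  sm (fun i => a.getD i 0 * (z ^ (2 * g - i) + 2 ^ (g - i) * z ^ i)) g + a.getD g 0 * z ^ g

/-- the checks for one entry, without the location of the roots -/
def okB (g f : ℕ) (e : EntryB) : Bool :=
  e.t.a.length == g + 1 && e.t.a.getD 0 0 == 1 &&
  (List.range (g + 1)).all (fun i => !(Nat.blt f i) || e.t.a.getD i 0 % 2 == 0) &&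
  e.t.a.getD f 0 % 2 == 1 &&
  Nat.ble 3 e.n.natAbs && (e.c == 1 || e.c == 2) &&
  (Nat.ble 2 e.l && Nat.blt e.l (8200 * 8200) && noDiv e.l (min (e.l - 2) 8200)) &&
  evP g e.t.a e.n == (e.c : ℤ) * (e.l : ℤ) &&
  (e.q == 2 || e.q == 3) && evP g e.t.a e.b % (e.q : ℤ) == 0 &&
  (evP g e.t.a (e.b + (e.q : ℤ)) - evP g e.t.a e.b) % ((e.q : ℤ) * (e.q : ℤ)) != 0 &&
  (Nat.ble e.i g && Nat.ble e.j g && e.t.a.getD e.i 0 != 0 && e.t.a.getD e.j 0 != 0 &&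
    Nat.gcd e.i e.j == 1)

/-- the default entry -/
def defB : EntryB := ⟨⟨[], [], [], 0, [], 0⟩, 0, 0, 0, 0, 0, 0, 0⟩

theorem tabB_ok : (List.range 4).all (fun k => (List.range (k + 2)).all (fun j =>
    okB (k + 3) (j + 2) ((tabB.getD k []).getD j defB))) = true := by
  decide +kernel

theorem tabB_root : (List.range 4).all (fun k => (List.range (k + 2)).all (fun j =>
    (k == 1 && j == 0) || okRoot ((tabB.getD k []).getD j defB).t)) = true := by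
  decide +kernel

theorem ex73_ok : (okB 7 3 ex73 && okRoot ex73.t) = true := by
  decide +kernel

theorem ex82_ok : (okB 8 2 ex82 && okRoot ex82.t) = true := by
  decide +kernel

theorem ex83_ok : (okB 8 3 ex83 && okRoot ex83.t) = true := by
  decide +kernel

end Pool.Agent.J6H14.WF2
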