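import Pool.Agent.R80.WF.XG

/-!
# The pair `(g, f) = (2, 2)`: the polynomial `X⁴ + X³ + X² + p X + p²`
-/

set_option autoImplicit false

namespace Pool.Agent.J6H14.WF2

open Polynomial Pool.Agent.R80.WF

/-- the quartic -/
noncomputable def P22 (p : ℤ) : ℤ[X] := X ^ 4 + X ^ 3 + X ^ 2 + C p * X + C (p ^ 2)

theorem P22_coeff (p : ℤ) (i : ℕ) : (P22 p).coeff i = (if i = 4 then 1 else 0) +
    (if i = 3 then 1 else 0) + (if i = 2 then 1 else 0) + (if i = 1 then p else 0) +
    (if i = 0 then p ^ 2 else 0) := by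
  unfold P22
  simp only [coeff_add, coeff_X_pow, coeff_C_mul, coeff_X, coeff_C]
  congr 2
  by_cases h : i = 1
  · rw [if_pos h, if_pos h.symm, mul_one]
  · rw [if_neg h, if_neg (fun h' => h h'.symm), mul_zero]

theorem int_of_pow {z : ℂ} {n : ℕ} (hn : 1 ≤ n) (h : z ^ n = 1) : IsIntegral ℤ z :=
  ⟨X ^ n - 1, monic_X_pow_sub_C 1 (by omega), by simp [h]⟩

/-- the trace polynomial -/
noncomputable def H22 (p : ℤ) : ℤ[X] := X ^ 2 + X + C (1 - 2 * p)

theorem P22_monic (p : ℤ) : (P22 p).Monic := by
  unfold P22; monicity!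

theorem P22_deg (p : ℤ) : (P22 p).natDegree = 2 * 2 := by
  unfold P22; compute_degree!

theorem H22_monic (p : ℤ) : (H22 p).Monic := by
  unfold H22; monicity!

theorem H22_deg (p : ℤ) : (H22 p).natDegree = 2 := by
  unfold H22; compute_degree!

theorem aeval_P22 {K : Type} [Field K] (p : ℤ) (x : K) : aeval x (P22 p) =
    x ^ 4 + x ^ 3 + x ^ 2 + p * x + p ^ 2 := by
  have e : ∀ n : ℤ, aeval x (C n : ℤ[X]) = (n : K) := fun n => by rw [aeval_C]; simp
  simp only [P22, map_add, map_mul, map_pow, aeval_X, e]

theorem aeval_H22 {K : Type} [Field K] (p : ℤ) (x : K) : aeval x (H22 p) =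
    x ^ 2 + x + (1 - 2 * p) := by
  have e : ∀ n : ℤ, aeval x (C n : ℤ[X]) = (n : K) := fun n => by rw [aeval_C]; simp
  simp only [H22, map_add, map_pow, aeval_X, e]
  push_cast
  ring

theorem rel22 {K : Type} [Field K] {p : ℤ} {x x' : K} (h : x * x' = p) :
    aeval x (P22 p) = x ^ 2 * aeval (x + x') (H22 p) := by
  rw [aeval_P22, aeval_H22]
  linear_combination (-(x * x' + p) - x - 2 * x ^ 2) * h

theorem H22_irr (p : ℤ) : Irreducible (H22 p) := by
  rw [(H22_monic p).irreducible_iff_roots_eq_zero_of_degree_le_three (by rw [H22_deg])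
    (by rw [H22_deg]; norm_num)]
  rw [Multiset.eq_zero_iff_forall_notMem]
  intro r hr
  rw [mem_roots (H22_monic p).ne_zero, IsRoot.def] at hr
  have h1 : r ^ 2 + r + (1 - 2 * p) = 0 := by
    simpa [H22] using hr
  have h2 : Even (r ^ 2 + r) := by
    have : r ^ 2 + r = r * (r + 1) := by ring
    rw [this]
    exact Int.even_mul_succ_self r
  obtain ⟨k, hk⟩ := h2
  omega

/-- no algebraic integer satisfies `p v² - (2p+1) v + 1 = 0` -/
theorem no_v {p : ℕ} (hp : 2 ≤ p) {v : ℂ} (hv : IsIntegral ℤ v)
    (h : (p : ℂ) * v ^ 2 - (2 * p + 1) * v + 1 = 0) : False := by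
  set F : ℤ[X] := C (p : ℤ) * X ^ 2 - C (2 * (p : ℤ) + 1) * X + C 1 with hF
  have hFv : aeval v F = 0 := by
    have e : ∀ n : ℤ, aeval v (C n : ℤ[X]) = (n : ℂ) := fun n => by rw [aeval_C]; simp
    simp only [hF, map_add, map_sub, map_mul, map_pow, aeval_X, e]
    push_cast
    linear_combination h
  set G := minpoly ℤ v with hG
  have hGm : G.Monic := minpoly.monic hv
  obtain ⟨Q, hQ⟩ : G ∣ F := minpoly.isIntegrallyClosed_dvd hv hFv
  have hFd : F.natDegree = 2 := by
    have hp0 : (p : ℤ) ≠ 0 := by exact_mod_cast (by omega : p ≠ 0)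
    rw [hF]
    compute_degree!
    omega
  have hF0 : F.coeff 0 = 1 := by
    simp [hF]
  have hF2 : F.leadingCoeff = p := by
    rw [leadingCoeff, hFd, hF]
    simp [coeff_X, coeff_one]
  have h0 : G.coeff 0 * Q.coeff 0 = 1 := by rw [← mul_coeff_zero, ← hQ, hF0]
  have hlc : Q.leadingCoeff = p := by
    rw [← hF2, hQ, leadingCoeff_mul, hGm.leadingCoeff, one_mul]
  have hQ0 : Q ≠ 0 := by
    rintro h1
    rw [h1, leadingCoeff_zero] at hlc
    have : (p : ℤ) ≠ 0 := by exact_mod_cast (by omega : p ≠ 0)
    exact this hlc.symm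
  have hdeg : G.natDegree + Q.natDegree = 2 := by
    rw [← hFd, hQ, natDegree_mul hGm.ne_zero hQ0]
  have hGpos : 0 < G.natDegree := minpoly.natDegree_pos hv
  have hpm : (p : ℤ) ≠ 1 ∧ (p : ℤ) ≠ -1 := by omega
  rcases Nat.eq_zero_or_pos Q.natDegree with hq | hq
  · have h1 : Q.coeff 0 = p := by
      rw [← hlc, leadingCoeff, hq]
    rw [h1] at h0
    rcases Int.isUnit_iff.1 (IsUnit.of_mul_eq_one _ (by rw [mul_comm]; exact h0)) with h2 | h2
    · exact hpm.1 h2
    · exact hpm.2 h2
  · have h1 : G.natDegree = 1 := by omega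
    have h2 : G = X + C (G.coeff 0) := by
      have := G.as_sum_range_C_mul_X_pow
      rw [h1, Finset.sum_range_succ, Finset.sum_range_one] at this
      have h3 : G.coeff 1 = 1 := by
        rw [← h1]; exact hGm.leadingCoeff
      rw [h3] at this
      simpa [add_comm] using this
    have h3 : aeval v G = 0 := minpoly.aeval ℤ v
    rw [h2] at h3
    have h4 : v = -((G.coeff 0 : ℤ) : ℂ) := by
      have : v + ((G.coeff 0 : ℤ) : ℂ) = 0 := by simpa using h3
      linear_combination this
    have h5 := Int.isUnit_iff.1 (IsUnit.of_mul_eq_one _ h0)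
    have hpc : (p : ℂ) ≠ 0 := by exact_mod_cast (by omega : p ≠ 0)
    rcases h5 with h6 | h6
    · rw [h4, h6] at h
      have : (3 * p + 2 : ℂ) = 0 := by
        push_cast at h
        linear_combination h
      have h7 : ((3 * p + 2 : ℕ) : ℂ) = 0 := by
        push_cast; exact this
      have h8 : 3 * p + 2 = 0 := by exact_mod_cast h7
      omega
    · rw [h4, h6] at h
      apply hpc
      push_cast at h
      linear_combination -h

theorem good22 {p : ℕ} (hp : p.Prime) : Good p 2 2 := by
  have hp2 := hp.two_le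
  have hpR : (2 : ℝ) ≤ p := by exact_mod_cast hp2
  have hpc : ((p : ℤ) : ℂ) = (p : ℂ) := by norm_num
  have hp0 : (p : ℂ) ≠ 0 := by exact_mod_cast hp.ne_zero
  have hrel : ∀ x x' : ℂ, x * x' = p → aeval x (P22 p) = x ^ 2 * aeval (x + x') (H22 p) := by
    intro x x' h
    exact rel22 (by rw [hpc]; exact h)
  have hx0 : ∀ x : ℂ, aeval x (P22 p) = 0 → x ≠ 0 := by
    rintro x hx rfl
    rw [aeval_P22] at hx
    apply hp0
    have : (p : ℂ) ^ 2 = 0 := by
      rw [hpc] at hx
      linear_combination hx
    exact pow_eq_zero_iff (two_ne_zero) |>.1 this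
  have hxx : ∀ x : ℂ, aeval x (P22 p) = 0 → x * (p / x) = p := by
    intro x hx
    rw [mul_div_cancel₀ _ (hx0 x hx)]
  have hH : ∀ x : ℂ, aeval x (P22 p) = 0 →
      (x + p / x) ^ 2 + (x + p / x) + (1 - 2 * p) = 0 := by
    intro x hx
    have h1 := hrel x (p / x) (hxx x hx)
    rw [hx] at h1
    have h2 := (mul_eq_zero.1 h1.symm).resolve_left (pow_ne_zero _ (hx0 x hx))
    rw [aeval_H22, hpc] at h2
    exact h2
  have hreal : ∀ x : ℂ, aeval x (P22 p) = 0 → x ^ 2 ≠ p := by
    intro x hx h
    have h1 : p / x = x := by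
      rw [← h, pow_two, mul_div_assoc, div_self (hx0 x hx), mul_one]
    have h2 := hH x hx
    rw [h1] at h2
    have h3 : 2 * x = -(2 * p + 1) := by linear_combination h2 - 4 * h
    have h4 : (4 * (p : ℂ) ^ 2 + 1) = 0 := by
      have : (2 * x) ^ 2 = (2 * p + 1) ^ 2 := by rw [h3]; ring
      linear_combination (-1 : ℂ) * this + 4 * h
    have h5 : ((4 * p ^ 2 + 1 : ℕ) : ℂ) = 0 := by push_cast; exact h4
    have h6 : 4 * p ^ 2 + 1 = 0 := by exact_mod_cast h5
    omega
  have hnorm : ∀ x : ℂ, aeval x (P22 p) = 0 → ‖x‖ = Real.sqrt p := by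
    intro x hx
    have hD : (0 : ℝ) < 8 * p - 3 := by linarith
    set r := Real.sqrt (8 * p - 3) with hr
    have hr0 : 0 < r := Real.sqrt_pos.2 hD
    have hr2 : r ^ 2 = 8 * p - 3 := Real.sq_sqrt hD.le
    have hroot : ∀ s : ℝ, s ^ 2 + s + (1 - 2 * p) = 0 → s ^ 2 ≤ 4 * p := by
      intro s hs
      by_contra hcon
      push Not at hcon
      have h1 : s < -(2 * p + 1) := by nlinarith
      nlinarith
    refine xg_norm_of_roots (p := p) (g := 2) (by omega) (H22_monic p) (H22_deg p)
      {(-1 + r) / 2, (-1 - r) / 2} ?_ ?_ ?_ x (p / x) (hxx x hx) ?_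
    · rw [Finset.card_insert_of_notMem, Finset.card_singleton]
      rw [Finset.mem_singleton]
      intro h
      linarith
    · intro s hs
      rw [aeval_H22]
      simp only [Finset.mem_insert, Finset.mem_singleton] at hs
      rcases hs with h | h <;> rw [h] <;> push_cast <;> nlinarith
    · intro s hs
      apply hroot
      simp only [Finset.mem_insert, Finset.mem_singleton] at hs
      rcases hs with h | h <;> rw [h] <;> nlinarith
    · rw [aeval_H22, hpc]
      exact hH x hx
  have hirr : Irreducible ((P22 p).map (Int.castRingHom ℚ)) :=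
    Pool.Agent.Y676.WP.irreducible_of_real2 hp (by norm_num) (P22_monic p) (P22_deg p)
      (H22_monic p) (H22_deg p) (H22_irr p) hrel hreal hnorm
  refine ⟨P22 p, P22_monic p, P22_deg p, hirr, hnorm, ?_, ?_, ?_⟩
  · intro i hi
    have : i = 0 ∨ i = 1 := by omega
    rcases this with h | h
    · rw [h, P22_coeff]
      norm_num
    · rw [h, P22_coeff]
      norm_num
  · have : (P22 p).coeff (2 * 2 - 2) = 1 := by
      rw [P22_coeff]
      norm_num
    rw [this]
    intro h
    have := Int.eq_one_of_dvd_one (by positivity) h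
    omega
  · intro x hx n hn
    refine Pool.Agent.TH343.PR.adjoin_pow_eq (P22_monic p) ?_ hx hn
    intro x y hx hy n hn hxy
    have hx1 := hx0 x hx
    have hy1 := hx0 y hy
    have hxi : IsIntegral ℤ x := ⟨P22 p, P22_monic p, hx⟩
    have h1 := hH x hx
    have h2 := hH y hy
    set β := x + p / x with hβ
    set γ := y + p / y with hγ
    have h3 : (β - γ) * (β + γ + 1) = 0 := by linear_combination h1 - h2
    rcases mul_eq_zero.1 h3 with h4 | h4
    · -- same trace
      have hβi : IsIntegral ℤ β := ⟨H22 p, H22_monic p, by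
        have : aeval β (H22 p) = 0 := by
          rw [aeval_H22, hpc]; exact h1
        exact this⟩
      have h5 : (y - x) * (y - p / x) = 0 := by
        have e1 : γ = β := by linear_combination -h4
        have e2 : y ^ 2 - γ * y + p = 0 := by
          rw [hγ]; field_simp; ring
        have e3 := hxx x hx
        rw [e1, hβ] at e2
        linear_combination e2 + e3
      rcases mul_eq_zero.1 h5 with h6 | h6
      · linear_combination -h6
      · exfalso
        have h7 : y = p / x := by linear_combination h6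
        -- `x²/p` is a root of unity
        have h8 : (x ^ 2 / p) ^ n = 1 := by
          rw [h7, div_pow] at hxy
          rw [div_pow, ← pow_mul, mul_comm 2 n, pow_mul, div_eq_one_iff_eq (pow_ne_zero _ hp0),
            pow_two]
          have hxn : x ^ n ≠ 0 := pow_ne_zero _ hx1
          field_simp at hxy
          linear_combination hxy
        have hμ : IsIntegral ℤ (x ^ 2 / p) := int_of_pow hn h8
        have hμ' : IsIntegral ℤ ((x ^ 2 / p)⁻¹) := int_of_pow hn (by rw [inv_pow, h8, inv_one])
        -- `(β + 1)/p` is an algebraic integer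
        have h9 : IsIntegral ℤ ((β + 1) / p) := by
          have e1 : (β + 1) / p = -(x ^ 2 / p + (x ^ 2 / p)⁻¹) := by
            have e2 : β ^ 2 / p = x ^ 2 / p + 2 + (x ^ 2 / p)⁻¹ := by
              rw [hβ]; field_simp; ring
            have e3 : β ^ 2 / p = 2 - (β + 1) / p := by
              field_simp
              linear_combination h1
            linear_combination e3 - e2
          rw [e1]
          exact (hμ.add hμ').neg
        set δ := (β + 1) / p with hδ
        have h10 : β = p * δ - 1 := by
          rw [hδ]; field_simp; ring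
        have h11 : IsIntegral ℤ ((1 : ℂ) / p) := by
          have e1 : (1 : ℂ) / p = δ + 2 - p * δ ^ 2 := by
            rw [h10] at h1
            rw [div_eq_iff hp0]
            linear_combination h1
          rw [e1]
          have hpi : IsIntegral ℤ (p : ℂ) := by
            rw [← hpc]
            exact isIntegral_algebraMap
          have h2i : IsIntegral ℤ (2 : ℂ) := isIntegral_algebraMap (R := ℤ) (x := 2)
          exact (h9.add h2i).sub (hpi.mul (h9.pow 2))
        have h12 : IsIntegral ℤ ((1 : ℚ) / p) := by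
          have : (1 : ℂ) / p = algebraMap ℚ ℂ (1 / p) := by
            rw [eq_ratCast]; push_cast; ring
          rw [this] at h11
          exact (isIntegral_algebraMap_iff (algebraMap ℚ ℂ).injective).1 h11
        obtain ⟨z, hz⟩ := IsIntegrallyClosed.isIntegral_iff.1 h12
        have hz' : (z : ℚ) * p = 1 := by
          have : (z : ℚ) = 1 / p := hz
          rw [this]
          have : (p : ℚ) ≠ 0 := by exact_mod_cast hp.ne_zero
          field_simp
        have hz'' : z * (p : ℤ) = 1 := by exact_mod_cast hz'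
        have := Int.eq_one_of_dvd_one (by positivity) (Dvd.intro_left z hz'')
        omega
    · -- different traces
      exfalso
      set ζ := y / x with hζ
      have hyx : y = ζ * x := by rw [hζ, div_mul_cancel₀ _ hx1]
      have hζ0 : ζ ≠ 0 := div_ne_zero hy1 hx1
      have hζn : ζ ^ n = 1 := by
        rw [hζ, div_pow, ← hxy, div_self (pow_ne_zero _ hx1)]
      have hζi : IsIntegral ℤ ζ := int_of_pow hn hζn
      have hζi' : IsIntegral ℤ ζ⁻¹ := int_of_pow hn (by rw [inv_pow, hζn, inv_one])
      have hsum : β + γ = -1 := by linear_combination h4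
      have hprod : β * γ = 1 - 2 * p := by
        have e1 : γ = -1 - β := by linear_combination hsum
        rw [e1]
        linear_combination -h1
      have hγ' : γ = ζ * x + p / (ζ * x) := by rw [hγ, hyx]
      refine no_v hp2 (v := ζ + ζ⁻¹ + 2) ?_ ?_
      · exact (hζi.add hζi').add (isIntegral_algebraMap (R := ℤ) (x := 2))
      · -- elimination
        set t := x + p / (ζ * x) with ht
        have e1 : (1 + ζ) * t = -1 := by
          rw [← hsum, hγ', hβ, ht]
          field_simp
          ring
        have e2 : ζ * t ^ 2 = 1 - 2 * p + 2 * p - p * (ζ + ζ⁻¹) := by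
          rw [← hprod, hγ', hβ, ht]
          field_simp
          ring
        have e3 : (ζ + ζ⁻¹ + 2) * (ζ * t ^ 2) = 1 := by
          have : (ζ + ζ⁻¹ + 2) * (ζ * t ^ 2) = ((1 + ζ) * t) ^ 2 := by
            field_simp
            ring
          rw [this, e1]
          norm_num
        rw [e2] at e3
        linear_combination -e3

end Pool.Agent.J6H14.WF2
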